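import Pool.Agent.MK.Code

/-!
# Connected manifolds: definitions for the statement

Spines in the lattice `ℤ⁵` which contain a fixed ring of eight cells; the handle `TT` attached to
the ring; the solid torus `Tor` in the boundary of the thickening of the handle, its core `Core`;
fillers of the core; circles which are contractible resp. of infinite order in a spine.
-/

namespace Pool.Agent.CC39

open Pool.Agent.DT70 Pool.Agent.MK

/-- `f` is an algorithm which solves the problem for connected closed manifolds: whenever `X` and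
`Y` are connected closed combinatorial 4-manifolds with homeomorphic realizations, it halts on
`(X, Y)` and answers correctly whether they are PL homeomorphic (equivalently, diffeomorphic). -/
def SolvesC (f : Code × Code →. Bool) : Prop :=
  Partrec f ∧ ∀ X Y : Code, Mfd false X → Mfd false Y → IsConnected (real X) →
    IsConnected (real Y) → Nonempty (real X ≃ₜ real Y) →
    ∃ d ∈ f (X, Y), (d = true ↔ PLHomeo X Y)

/-- The ring: the four vertices and the four edges of the square with doubled centre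
`(-3, 0, 1, 2, 2)`. -/
def Q : Set P := {c | c 1 = 0 ∧ c 3 = 2 ∧ c 4 = 2 ∧ -4 ≤ c 0 ∧ c 0 ≤ -2 ∧ 0 ≤ c 2 ∧ c 2 ≤ 2 ∧
  ¬ (c 0 = -3 ∧ c 2 = 1)}

/-- The handle: the ring times the interval `[2, 4]` of the last coordinate, and a thick annulus
above it, namely (`[-6, 0] × [-2, 4]` without the open square `(-4, -2) × (0, 2)`, in the
coordinates 0 and 2) times `[0, 2] × [2, 4] × [4, 6]` (coordinates 1, 3, 4). All coordinates are
doubled. -/
def TT : Set P := {c | ¬ (c 0 = -3 ∧ c 2 = 1) ∧
  ((c 1 = 0 ∧ c 3 = 2 ∧ 2 ≤ c 4 ∧ c 4 ≤ 4 ∧ -4 ≤ c 0 ∧ c 0 ≤ -2 ∧ 0 ≤ c 2 ∧ c 2 ≤ 2) ∨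
   (0 ≤ c 1 ∧ c 1 ≤ 2 ∧ 2 ≤ c 3 ∧ c 3 ≤ 4 ∧ 4 ≤ c 4 ∧ c 4 ≤ 6 ∧ -6 ≤ c 0 ∧ c 0 ≤ 0 ∧
    -2 ≤ c 2 ∧ c 2 ≤ 4))}

/-- The solid torus: the facets of the boundary of the thickening of the handle which are in the
hyperplane `x 4 = 7`. -/
def Tor : Set (Finset P) := {G | G ∈ K TT ∧ ∀ x ∈ G, x 4 = 7}

/-- The sixteen cubes in the middle of the top layer of the thickening of the handle. -/
def Mid : Set P := {q | q 4 = 6 ∧ q 1 = 1 ∧ q 3 = 3 ∧ -5 ≤ q 0 ∧ q 0 ≤ -1 ∧ -1 ≤ q 2 ∧ q 2 ≤ 3 ∧
  (q 0 = -5 ∨ q 0 = -1 ∨ q 2 = -1 ∨ q 2 = 3)}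

/-- The core of the solid torus: its facets in the cubes `[q, q + 1]⁵`, `q ∈ Mid`. -/
def Core : Set (Finset P) := {G | G ∈ Tor ∧ ∃ q ∈ Mid, ∀ x ∈ G, q ≤ x ∧ x ≤ q + 1}

/-- The shift of the coordinates. -/
def c₀ : P := fun i => if i = 0 then 7 else if i = 2 then 3 else 1

/-- Names of the lattice points `x` with `0 ≤ x + c₀`: even natural numbers. -/
def nam (x : P) : ℕ := 2 * Encodable.encode (List.ofFn (fun i => (x i + c₀ i).toNat))

/-- `C` is a list of the facets in `S`, with these names. -/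
def Lists (S : Set (Finset P)) (C : Code) : Prop :=
  (∀ F ∈ C, F.Nodup ∧ F.length = 5) ∧ fs C = {t | ∃ s ∈ S, t = s.image nam}

/-- `Y` is a finite connected cubical complex of dimension at most two in `ℤ⁵` which contains the
ring, with last coordinates at most 2 (and coordinates at least `1 - c₀`). -/
structure Spine (Y : Set P) : Prop where
  fin : Y.Finite
  closed : Closed Y
  dim : ∀ q ∈ Y, (dirs q).card ≤ 2
  conn : GConn Y 0
  ring : Q ⊆ Y
  top : ∀ q ∈ Y, q 4 ≤ 2
  low : ∀ q ∈ Y, ∀ i, 1 ≤ q i + c₀ i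

/-- A lattice point from its coordinates. -/
def pt (a b c d f : ℤ) : P := fun i => List.getD [a, b, c, d, f] i 0

/-- The product of the labels along the ring. -/
def hol {Γ : Type} [Group Γ] (Λ : P → Γ) : Γ :=
  Λ (pt (-4) 0 1 2 2) * Λ (pt (-3) 0 2 2 2) * (Λ (pt (-2) 0 1 2 2))⁻¹ * (Λ (pt (-3) 0 0 2 2))⁻¹

/-- The ring is contractible in `Y`: every flat labelling of the edges by elements of a group is
trivial along the ring. -/
def Trivial (Y : Set P) : Prop :=
  ∀ (Γ : Type) [Group Γ] (Λ : P → Γ), Flat Y Λ → hol Λ = 1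

/-- The ring has infinite order in the fundamental group of `Y`. -/
def Essential (Y : Set P) : Prop :=
  ∃ (Γ : Type) (_ : Group Γ) (Λ : P → Γ), Flat Y Λ ∧ ∀ n : ℤ, hol Λ ^ n = 1 → n = 0

/-- `F` can be glued in place of the core: its vertices with even names are vertices of the core,
and the union of `F` and the collar `D` (the solid torus without its core) is connected and a
closed combinatorial manifold near `F`, i.e. the links of the vertices of `F` and of the core are
PL 3-spheres. -/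
structure Filler (D F : Code) : Prop where
  ne : F ≠ []
  facets : ∀ f ∈ F, f.Nodup ∧ f.length = 5
  even : ∀ f ∈ F, ∀ v ∈ f, Even v → ∃ s ∈ Core, ∃ x ∈ s, v = nam x
  lkF : ∀ f ∈ F, ∀ v ∈ f, PLHomeo (link v (D ++ F)) sphere3
  lkC : ∀ s ∈ Core, ∀ x ∈ s, PLHomeo (link (nam x) (D ++ F)) sphere3
  conn : IsConnected (real (D ++ F))

/-- `F` and `F'` are homeomorphic by a homeomorphism which is the identity on the common part with
the collar `D`, i.e. on the boundary. -/
def SameB (D F F' : Code) : Prop :=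
  ∃ f g : E → E, Iso Cont (real F) (real F') f g ∧
    (∀ x ∈ real F, x ∈ real D → f x = x) ∧ ∀ x ∈ real F', x ∈ real D → g x = x

end Pool.Agent.CC39
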