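import Pool.Agent.CC39.Phi
import Pool.Agent.MKD.MoveExt

/-! Module CC39/ExtQ. The moves of MKD/MoveExt (adding an empty level at the top or at the bottom)
relative to the solid torus. Copied from there; only `core85` and the two theorems are changed. -/

set_option autoImplicit false

namespace Pool.Agent.CC39

open Pool.Agent.DT70 Pool.Agent.MK Pool.Agent.MKD

private def SA85 (m : ℕ) (x y v u : ℤ) : Prop :=
  (lad m x y ∧ u = 0 ∧ v = 0) ∨ (y = 0 ∧ -4 ≤ x ∧ x ≤ 0 ∧ nuP true u v)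

private def SB85 (m : ℕ) (x y v u : ℤ) : Prop :=
  (lad m x y ∧ u = 0 ∧ v = 0) ∨ (y = 0 ∧ nuP true u v ∧ (x = 0 ∨ x = -4)) ∨
    (y = 0 ∧ -4 ≤ x ∧ x ≤ 0 ∧ u = 2 ∧ v = 2)

private theorem nu_u85 {k : Bool} {u v : ℤ} (h : nuP k u v) :
    0 ≤ u ∧ u ≤ 2 ∧ 0 ≤ v ∧ v ≤ 2 := by
  unfold nuP at h
  cases k <;> simp at h <;> omega

private theorem closed85 {S : ℤ → ℤ → ℤ → ℤ → Prop}
    (h0 : ∀ x y v u, S x y v u → x % 2 = 1 → S (x + 1) y v u ∧ S (x - 1) y v u)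
    (h1 : ∀ x y v u, S x y v u → y % 2 = 1 → S x (y + 1) v u ∧ S x (y - 1) v u)
    (h3 : ∀ x y v u, S x y v u → v % 2 = 1 → S x y (v + 1) u ∧ S x y (v - 1) u)
    (h4 : ∀ x y v u, S x y v u → u % 2 = 1 → S x y v (u + 1) ∧ S x y v (u - 1)) :
    Closed {c | c 2 = 0 ∧ S (c 0) (c 1) (c 3) (c 4)} := by
  rintro c ⟨hz, h⟩ i hi
  have ho : c i % 2 = 1 := Int.odd_iff.1 hi
  fin_cases i
  · have := h0 _ _ _ _ h ho
    exact ⟨by simpa [e] using ⟨hz, this.1⟩, by simpa [e] using ⟨hz, this.2⟩⟩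
  · have := h1 _ _ _ _ h ho
    exact ⟨by simpa [e] using ⟨hz, this.1⟩, by simpa [e] using ⟨hz, this.2⟩⟩
  · have : c 2 % 2 = 1 := ho
    omega
  · have := h3 _ _ _ _ h ho
    exact ⟨by simpa [e] using ⟨hz, this.1⟩, by simpa [e] using ⟨hz, this.2⟩⟩
  · have := h4 _ _ _ _ h ho
    exact ⟨by simpa [e] using ⟨hz, this.1⟩, by simpa [e] using ⟨hz, this.2⟩⟩

private theorem closed_or85 {S S' : ℤ → ℤ → ℤ → ℤ → Prop}
    (h : Closed {c | c 2 = 0 ∧ S (c 0) (c 1) (c 3) (c 4)})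
    (h' : Closed {c | c 2 = 0 ∧ S' (c 0) (c 1) (c 3) (c 4)}) :
    Closed {c | c 2 = 0 ∧ (S (c 0) (c 1) (c 3) (c 4) ∨ S' (c 0) (c 1) (c 3) (c 4))} := by
  have : {c : P | c 2 = 0 ∧ (S (c 0) (c 1) (c 3) (c 4) ∨ S' (c 0) (c 1) (c 3) (c 4))} =
      {c | c 2 = 0 ∧ S (c 0) (c 1) (c 3) (c 4)} ∪ {c | c 2 = 0 ∧ S' (c 0) (c 1) (c 3) (c 4)} := by
    ext c
    exact and_or_left
  rw [this]
  exact closed_union h h'

private theorem closed_lad85 (m : ℕ) :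
    Closed {c | c 2 = 0 ∧ (lad m (c 0) (c 1) ∧ c 4 = 0 ∧ c 3 = 0)} := by
  apply closed85 (S := fun x y v u => lad m x y ∧ u = 0 ∧ v = 0) <;>
    rintro x y v u ⟨h, h1, h2⟩ ho
  · refine ⟨⟨?_, h1, h2⟩, ⟨?_, h1, h2⟩⟩ <;> unfold lad at h ⊢ <;> omega
  · refine ⟨⟨?_, h1, h2⟩, ⟨?_, h1, h2⟩⟩ <;> unfold lad at h ⊢ <;> omega
  · omega
  · omega

private theorem nu_v85 {u v : ℤ} (h : nuP true u v) (ho : v % 2 = 1) :
    nuP true u (v + 1) ∧ nuP true u (v - 1) := by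
  unfold nuP at h ⊢
  simp at h ⊢
  omega

private theorem nu_up85 {u v : ℤ} (h : nuP true u v) (ho : u % 2 = 1) :
    nuP true (u + 1) v ∧ nuP true (u - 1) v := by
  unfold nuP at h ⊢
  simp at h ⊢
  omega

private theorem closed_EA85 (m : ℕ) : Closed (EA m) := by
  refine closed_or85 (S := fun x y v u => lad m x y ∧ u = 0 ∧ v = 0)
    (S' := fun x y v u => y = 0 ∧ -4 ≤ x ∧ x ≤ 0 ∧ nuP true u v) (closed_lad85 m) ?_
  apply closed85 (S := fun x y v u => y = 0 ∧ -4 ≤ x ∧ x ≤ 0 ∧ nuP true u v) <;>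
    rintro x y v u ⟨h1, h2, h3, h4⟩ ho
  · exact ⟨⟨h1, by omega, by omega, h4⟩, ⟨h1, by omega, by omega, h4⟩⟩
  · omega
  · exact ⟨⟨h1, h2, h3, (nu_v85 h4 ho).1⟩, ⟨h1, h2, h3, (nu_v85 h4 ho).2⟩⟩
  · exact ⟨⟨h1, h2, h3, (nu_up85 h4 ho).1⟩, ⟨h1, h2, h3, (nu_up85 h4 ho).2⟩⟩

private theorem closed_EB85 (m : ℕ) : Closed (EB m) := by
  refine closed_or85 (S := fun x y v u => lad m x y ∧ u = 0 ∧ v = 0)
    (S' := fun x y v u => (y = 0 ∧ nuP true u v ∧ (x = 0 ∨ x = -4)) ∨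
      (y = 0 ∧ -4 ≤ x ∧ x ≤ 0 ∧ u = 2 ∧ v = 2)) (closed_lad85 m) ?_
  refine closed_or85 (S := fun x y v u => y = 0 ∧ nuP true u v ∧ (x = 0 ∨ x = -4))
    (S' := fun x y v u => y = 0 ∧ -4 ≤ x ∧ x ≤ 0 ∧ u = 2 ∧ v = 2) ?_ ?_
  · apply closed85 (S := fun x y v u => y = 0 ∧ nuP true u v ∧ (x = 0 ∨ x = -4)) <;>
      rintro x y v u ⟨h1, h2, h3⟩ ho
    · omega
    · omega
    · exact ⟨⟨h1, (nu_v85 h2 ho).1, h3⟩, ⟨h1, (nu_v85 h2 ho).2, h3⟩⟩
    · exact ⟨⟨h1, (nu_up85 h2 ho).1, h3⟩, ⟨h1, (nu_up85 h2 ho).2, h3⟩⟩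
  · apply closed85 (S := fun x y v u => y = 0 ∧ -4 ≤ x ∧ x ≤ 0 ∧ u = 2 ∧ v = 2) <;>
      rintro x y v u ⟨h1, h2, h3, h4, h5⟩ ho
    · exact ⟨⟨h1, by omega, by omega, h4, h5⟩, ⟨h1, by omega, by omega, h4, h5⟩⟩
    · omega
    · omega
    · omega

private theorem mem_twEA85 (m : ℕ) (I : Set ℤ) (c : P) :
    c ∈ tw (EA m) I ↔ SA85 m (c 0) (c 1) (c 3) (c 4) ∧ c 2 ∈ I := by
  unfold tw EA SA85
  simp [Function.update]

private theorem mem_twEB85 (m : ℕ) (I : Set ℤ) (c : P) :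
    c ∈ tw (EB m) I ↔ SB85 m (c 0) (c 1) (c 3) (c 4) ∧ c 2 ∈ I := by
  unfold tw EB SB85
  simp [Function.update]

private theorem EB_sub85 (m : ℕ) : EB m ⊆ EA m := by
  rintro c ⟨hz, h⟩
  refine ⟨hz, ?_⟩
  simp only [lad, nuP] at h ⊢
  simp at h ⊢
  omega

private theorem fin_EA85 (m : ℕ) : (EA m).Finite := by
  refine (Set.finite_Icc (fun _ => -(4 + 2 * m) : P) (fun _ => 4 + 2 * m)).subset ?_
  rintro c ⟨hz, h⟩
  simp only [lad, nuP] at h
  simp at h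
  constructor
  · intro i
    fin_cases i <;> simp <;> omega
  · intro i
    fin_cases i <;> simp <;> omega

private theorem disc_ht85 {m : ℕ} {k : Bool} {T : Str} (h : T.OK m) {c : P} (hc : c ∈ disc k T) :
    2 * T.lo ≤ c 2 ∧ c 2 ≤ 2 * T.hi := by
  have hlt := h.lt
  have hat : ∀ β, T.at_ β (c 2) → 2 * T.lo ≤ c 2 ∧ c 2 ≤ 2 * T.hi := by
    rintro β (⟨h1, h2, -⟩ | ⟨h1, h2, h3, -⟩) <;> omega
  have hcr : ∀ s, T.cross s (c 2) → 2 * T.lo ≤ c 2 ∧ c 2 ≤ 2 * T.hi := by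
    rintro s ⟨h1, h2⟩
    have h4 := h.out (c 2 / 2)
    by_cases h5 : c 2 / 2 ≤ T.lo ∨ T.hi ≤ c 2 / 2
    · have := h4 h5
      omega
    · omega
  rcases hc with hc | hc | hc | hc | hc | hc | hc | hc
  · exact hat _ hc.2.2.2
  · exact hat _ hc.2.2.2
  · exact hc.2.2.2.2
  · exact hat _ hc.2.2.2.2
  · exact hc.2.2.2
  · rcases hc.2.2.2.2 with h1 | h1 <;> omega
  · obtain ⟨s, h1, -⟩ := hc
    exact hcr s h1
  · obtain ⟨s, h1, -⟩ := hc
    exact hcr s h1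

/-- The discs of relators have `v = 0`. -/
private theorem disc_v85 {T : Str} {c : P} (hc : c ∈ disc false T) : c 3 = 0 := by
  have hnu : nuP false (c 4) (c 3) → c 3 = 0 := by
    unfold nuP
    simp
    omega
  have hen : en false (c 4) (c 3) → c 3 = 0 := by
    unfold en
    simp
  rcases hc with hc | hc | hc | hc | hc | hc | hc | hc
  · exact hnu hc.2.2.1
  · exact hnu hc.2.2.1
  · exact hen hc.1
  · exact hen hc.1
  · exact hnu hc.2.2.1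
  · exact hnu hc.2.2.2.1
  · obtain ⟨s, h1, h2, h3⟩ := hc
    exact hnu h3
  · obtain ⟨s, h1, h2, h3⟩ := hc
    exact hen h3

private theorem XX_ht85 {m : ℕ} {rs : List Str} {T : Str} (h : Adm m rs T) {c : P}
    (hc : c ∈ XX m rs T) : 2 * T.lo ≤ c 2 ∧ c 2 ≤ 2 * T.hi := by
  rcases hc with (hc | ⟨r, hr, hc⟩) | hc
  · exact hc.2.2.2
  · have h1 := disc_ht85 (h.okr r hr) hc
    have h2 := h.inT r hr
    omega
  · exact disc_ht85 h.okT hc

/-- A cell of a relator in `EA` is in the ladder. -/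
private theorem rel_EA85 {m : ℕ} {r : Str} {c : P} (hc : c ∈ disc false r)
    (h : SA85 m (c 0) (c 1) (c 3) (c 4)) : lad m (c 0) (c 1) ∧ c 4 = 0 ∧ c 3 = 0 := by
  have hv := disc_v85 hc
  rcases h with h | h
  · exact h
  · obtain ⟨h1, h2, h3, h4⟩ := h
    unfold nuP at h4
    simp at h4
    refine ⟨Or.inl ⟨h1, h2, ?_⟩, ?_, hv⟩ <;> omega

private theorem core85 {m : ℕ} {rs : List Str} {T T' : Str} (h : Adm m rs T) (h' : Adm m rs T')
    (a : ℤ) {C C' : Set P} (hC : XX m rs T ∩ tw (EA m) (Set.Icc a (a + 2)) = C)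
    (hC' : XX m rs T' ∩ tw (EA m) (Set.Icc a (a + 2)) = C')
    (hc : Col (tw (EA m) (Set.Icc a (a + 2))) C) (hc' : Col (tw (EA m) (Set.Icc a (a + 2))) C')
    (hu : XX m rs T ∪ tw (EA m) (Set.Icc a (a + 2)) = XX m rs T' ∪ tw (EA m) (Set.Icc a (a + 2)))
    (h1 : 1 ≤ T.hi) (h1' : 1 ≤ T'.hi) (ha : ¬ (a ≤ 1 ∧ 1 ≤ a + 2)) :
    FE Tor (K (Phi (XX m rs T))) (K (Phi (XX m rs T'))) := by
  have hd : dd ∉ tw (EA m) (Set.Icc a (a + 2)) := by
    rw [mem_twEA85]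
    rintro ⟨-, h2⟩
    exact ha h2
  have ht : ∀ q ∈ tw (EA m) (Set.Icc a (a + 2)), q 4 ≤ 2 := by
    intro q hq
    rw [mem_twEA85] at hq
    obtain ⟨h1 | h1, -⟩ := hq
    · omega
    · have := nu_u85 h1.2.2.2
      omega
  have h2 := phi_excise (XX_prot h h1) hC hc hd ht
  have h3 := phi_excise (XX_prot h' h1') hC' hc' hd ht
  rw [hu] at h2
  exact Relation.EqvGen.trans _ _ _ h2 (Relation.EqvGen.symm _ _ h3)

/-- Facts about an additional empty interval `[a, a + 2]`, attached at the height `p`; the other end is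
`p'`. -/
private structure Ext85 (T T' : Str) (a p p' : ℤ) : Prop where
  f1 : ∀ z, (2 * T'.lo ≤ z ∧ z ≤ 2 * T'.hi) ↔ (2 * T.lo ≤ z ∧ z ≤ 2 * T.hi) ∨ (a ≤ z ∧ z ≤ a + 2)
  f2 : ∀ z, (2 * T.lo ≤ z ∧ z ≤ 2 * T.hi) → (a ≤ z ∧ z ≤ a + 2) → z = p
  fp : a ≤ p ∧ p ≤ a + 2
  fp' : a ≤ p' ∧ p' ≤ a + 2
  f3 : p = 2 * T.lo ∨ p = 2 * T.hi
  f3' : p' = 2 * T'.lo ∨ p' = 2 * T'.hi
  f4 : ∀ z, (z = 2 * T.lo ∨ z = 2 * T.hi) → z = p ∨ (z = 2 * T'.lo ∨ z = 2 * T'.hi)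
  f5 : ∀ z, (z = 2 * T'.lo ∨ z = 2 * T'.hi) → z = p' ∨ (z = 2 * T.lo ∨ z = 2 * T.hi)
  f6 : ∀ z, (z = 2 * T'.lo ∨ z = 2 * T'.hi) → (a ≤ z ∧ z ≤ a + 2) → z = p'
  g1 : ∀ β z, T.at_ β z → T'.at_ β z
  g2 : ∀ z, T'.at_ true z → T.at_ true z
  g3 : ∀ z, T'.at_ false z → T.at_ false z ∨ (a ≤ z ∧ z ≤ a + 2)
  g4 : ∀ z, (a ≤ z ∧ z ≤ a + 2) → T'.at_ false z
  c1 : ∀ s z, T'.cross s z ↔ T.cross s z
  c2 : ∀ s z, T'.cross s z → ¬ (a ≤ z ∧ z ≤ a + 2)

private theorem int1_85 {m : ℕ} {rs : List Str} {T T' : Str} (h : Adm m rs T) {a p p' : ℤ}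
    (hE : Ext85 T T' a p p') :
    XX m rs T ∩ tw (EA m) (Set.Icc a (a + 2)) = tw (EA m) {p} := by
  ext c
  rw [Set.mem_inter_iff, mem_twEA85, mem_twEA85, Set.mem_Icc, Set.mem_singleton_iff]
  constructor
  · rintro ⟨h1, h2, h3⟩
    exact ⟨h2, hE.f2 _ (XX_ht85 h h1) h3⟩
  · rintro ⟨h1, h2⟩
    have hfp := hE.fp
    have hf3 := hE.f3
    have hlt := h.okT.lt
    refine ⟨?_, h1, by rw [h2]; exact hfp⟩
    rcases h1 with h1 | h1
    · left
      left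
      refine ⟨h1.1, h1.2.1, h1.2.2, ?_, ?_⟩ <;> omega
    · right
      exact Or.inr (Or.inr (Or.inr (Or.inr (Or.inr (Or.inl ⟨h1.1, h1.2.1, h1.2.2.1, h1.2.2.2,
        by rw [h2]; exact hf3⟩)))))

private theorem int2_85 {m : ℕ} {rs : List Str} {T T' : Str} (h' : Adm m rs T') {a p p' : ℤ}
    (hE : Ext85 T T' a p p') :
    XX m rs T' ∩ tw (EA m) (Set.Icc a (a + 2)) =
      tw (EA m) {p'} ∪ tw (EB m) (Set.Icc a (a + 2)) := by
  ext c
  rw [Set.mem_inter_iff, Set.mem_union, mem_twEA85, mem_twEA85, mem_twEB85, Set.mem_Icc,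
    Set.mem_singleton_iff]
  constructor
  · rintro ⟨h1, h2, h3⟩
    rcases h1 with (h1 | ⟨r, hr, h1⟩) | h1
    · right
      exact ⟨Or.inl ⟨h1.1, h1.2.1, h1.2.2.1⟩, h3⟩
    · right
      exact ⟨Or.inl (rel_EA85 h1 h2), h3⟩
    · rcases h1 with h1 | h1 | h1 | h1 | h1 | h1 | h1 | h1
      · obtain ⟨h4, h5, h6, h7⟩ := h1
        exact Or.inr ⟨Or.inr (Or.inl ⟨h5, h6, Or.inl h4⟩), h3⟩
      · obtain ⟨h4, h5, h6, h7⟩ := h1
        rcases h2 with h2 | h2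
        · exact Or.inr ⟨Or.inl h2, h3⟩
        · have := h2.1
          omega
      · obtain ⟨h4, h5, h6, h7, h8⟩ := h1
        exact Or.inr ⟨Or.inr (Or.inr ⟨h5, h6, h7, h4.1, h4.2⟩), h3⟩
      · obtain ⟨h4, h5, h6, h7, h8⟩ := h1
        rcases h2 with h2 | h2
        · exact Or.inr ⟨Or.inl h2, h3⟩
        · exact Or.inr ⟨Or.inr (Or.inr ⟨h2.1, h2.2.1, h2.2.2.1, h4.1, h4.2⟩), h3⟩
      · obtain ⟨h4, h5, h6, h7⟩ := h1
        exact Or.inr ⟨Or.inr (Or.inl ⟨h5, h6, Or.inr h4⟩), h3⟩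
      · obtain ⟨h4, h5, h6, h7, h8⟩ := h1
        exact Or.inl ⟨Or.inr ⟨h4, h5, h6, h7⟩, hE.f6 _ h8 h3⟩
      · obtain ⟨s, h4, h5⟩ := h1
        exact absurd h3 (hE.c2 s _ h4)
      · obtain ⟨s, h4, h5⟩ := h1
        exact absurd h3 (hE.c2 s _ h4)
  · rintro (⟨h1, h2⟩ | ⟨h1, h2⟩)
    · have hfp := hE.fp'
      have hf3 := hE.f3'
      have hlt := h'.okT.lt
      refine ⟨?_, h1, by rw [h2]; exact hfp⟩
      rcases h1 with h1 | h1
      · left
        left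
        refine ⟨h1.1, h1.2.1, h1.2.2, ?_, ?_⟩ <;> omega
      · right
        exact Or.inr (Or.inr (Or.inr (Or.inr (Or.inr (Or.inl ⟨h1.1, h1.2.1, h1.2.2.1, h1.2.2.2,
          by rw [h2]; exact hf3⟩)))))
    · have hz := (hE.f1 (c 2)).2 (Or.inr h2)
      have hat := hE.g4 _ h2
      rcases h1 with h1 | h1 | h1
      · refine ⟨?_, Or.inl h1, h2⟩
        left
        left
        exact ⟨h1.1, h1.2.1, h1.2.2, hz.1, hz.2⟩
      · obtain ⟨h4, h5, h6⟩ := h1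
        refine ⟨?_, Or.inr ⟨h4, by omega, by omega, h5⟩, h2⟩
        right
        rcases h6 with h6 | h6
        · exact Or.inl ⟨h6, h4, h5, hat⟩
        · exact Or.inr (Or.inr (Or.inr (Or.inr (Or.inl ⟨h6, h4, h5, hz⟩))))
      · obtain ⟨h4, h5, h6, h7, h8⟩ := h1
        refine ⟨?_, Or.inr ⟨h4, h5, h6, Or.inl ⟨rfl, Or.inr ⟨h8, by omega, by omega⟩⟩⟩, h2⟩
        right
        exact Or.inr (Or.inr (Or.inl ⟨⟨h7, h8⟩, h4, h5, h6, hz⟩))

private theorem un85 {m : ℕ} {rs : List Str} {T T' : Str} {a p p' : ℤ}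
    (hE : Ext85 T T' a p p') :
    XX m rs T ∪ tw (EA m) (Set.Icc a (a + 2)) = XX m rs T' ∪ tw (EA m) (Set.Icc a (a + 2)) := by
  have hen : ∀ {u v : ℤ}, en true u v → nuP true u v := by
    rintro u v ⟨h1, h2⟩
    simp at h2
    exact Or.inl ⟨rfl, Or.inr ⟨h2, by omega, by omega⟩⟩
  apply Set.Subset.antisymm
  · rintro c (((h1 | h1) | h1) | h1)
    · left
      left
      left
      exact ⟨h1.1, h1.2.1, h1.2.2.1, (hE.f1 _).2 (Or.inl h1.2.2.2)⟩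
    · exact Or.inl (Or.inl (Or.inr h1))
    · rcases h1 with h1 | h1 | h1 | h1 | h1 | h1 | h1 | h1
      · exact Or.inl (Or.inr (Or.inl ⟨h1.1, h1.2.1, h1.2.2.1, hE.g1 _ _ h1.2.2.2⟩))
      · exact Or.inl (Or.inr (Or.inr (Or.inl ⟨h1.1, h1.2.1, h1.2.2.1, hE.g1 _ _ h1.2.2.2⟩)))
      · exact Or.inl (Or.inr (Or.inr (Or.inr (Or.inl ⟨h1.1, h1.2.1, h1.2.2.1, h1.2.2.2.1,
          (hE.f1 _).2 (Or.inl h1.2.2.2.2)⟩))))
      · exact Or.inl (Or.inr (Or.inr (Or.inr (Or.inr (Or.inl ⟨h1.1, h1.2.1, h1.2.2.1, h1.2.2.2.1,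
          hE.g1 _ _ h1.2.2.2.2⟩)))))
      · exact Or.inl (Or.inr (Or.inr (Or.inr (Or.inr (Or.inr (Or.inl ⟨h1.1, h1.2.1, h1.2.2.1,
          (hE.f1 _).2 (Or.inl h1.2.2.2)⟩))))))
      · obtain ⟨h4, h5, h6, h7, h8⟩ := h1
        rcases hE.f4 _ h8 with h9 | h9
        · right
          rw [mem_twEA85]
          exact ⟨Or.inr ⟨h4, h5, h6, h7⟩, by rw [h9, Set.mem_Icc]; exact hE.fp⟩
        · exact Or.inl (Or.inr (Or.inr (Or.inr (Or.inr (Or.inr (Or.inr (Or.inl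
            ⟨h4, h5, h6, h7, h9⟩)))))))
      · obtain ⟨s, h4, h5⟩ := h1
        exact Or.inl (Or.inr (Or.inr (Or.inr (Or.inr (Or.inr (Or.inr (Or.inr (Or.inl
            ⟨s, (hE.c1 _ _).2 h4, h5⟩))))))))
      · obtain ⟨s, h4, h5⟩ := h1
        exact Or.inl (Or.inr (Or.inr (Or.inr (Or.inr (Or.inr (Or.inr (Or.inr (Or.inr
            ⟨s, (hE.c1 _ _).2 h4, h5⟩))))))))
    · exact Or.inr h1
  · rintro c (((h1 | h1) | h1) | h1)
    · rcases (hE.f1 _).1 h1.2.2.2 with h2 | h2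
      · left
        left
        left
        exact ⟨h1.1, h1.2.1, h1.2.2.1, h2⟩
      · right
        rw [mem_twEA85]
        exact ⟨Or.inl ⟨h1.1, h1.2.1, h1.2.2.1⟩, h2⟩
    · exact Or.inl (Or.inl (Or.inr h1))
    · rcases h1 with h1 | h1 | h1 | h1 | h1 | h1 | h1 | h1
      · rcases hE.g3 _ h1.2.2.2 with h2 | h2
        · exact Or.inl (Or.inr (Or.inl ⟨h1.1, h1.2.1, h1.2.2.1, h2⟩))
        · right
          rw [mem_twEA85]
          have h3 := h1.1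
          exact ⟨Or.inr ⟨h1.2.1, by omega, by omega, h1.2.2.1⟩, h2⟩
      · exact Or.inl (Or.inr (Or.inr (Or.inl ⟨h1.1, h1.2.1, h1.2.2.1, hE.g2 _ h1.2.2.2⟩)))
      · obtain ⟨h4, h5, h6, h7, h8⟩ := h1
        rcases (hE.f1 _).1 h8 with h2 | h2
        · exact Or.inl (Or.inr (Or.inr (Or.inr (Or.inl ⟨h4, h5, h6, h7, h2⟩))))
        · right
          rw [mem_twEA85]
          exact ⟨Or.inr ⟨h5, h6, h7, hen h4⟩, h2⟩
      · exact Or.inl (Or.inr (Or.inr (Or.inr (Or.inr (Or.inl ⟨h1.1, h1.2.1, h1.2.2.1, h1.2.2.2.1,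
          hE.g2 _ h1.2.2.2.2⟩)))))
      · obtain ⟨h4, h5, h6, h7⟩ := h1
        rcases (hE.f1 _).1 h7 with h2 | h2
        · exact Or.inl (Or.inr (Or.inr (Or.inr (Or.inr (Or.inr (Or.inl ⟨h4, h5, h6, h2⟩))))))
        · right
          rw [mem_twEA85]
          have h8 : c 0 = -4 := h4
          exact ⟨Or.inr ⟨h5, by omega, by omega, h6⟩, h2⟩
      · obtain ⟨h4, h5, h6, h7, h8⟩ := h1
        rcases hE.f5 _ h8 with h9 | h9
        · right
          rw [mem_twEA85]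
          exact ⟨Or.inr ⟨h4, h5, h6, h7⟩, by rw [h9, Set.mem_Icc]; exact hE.fp'⟩
        · exact Or.inl (Or.inr (Or.inr (Or.inr (Or.inr (Or.inr (Or.inr (Or.inl
            ⟨h4, h5, h6, h7, h9⟩)))))))
      · obtain ⟨s, h4, h5⟩ := h1
        exact Or.inl (Or.inr (Or.inr (Or.inr (Or.inr (Or.inr (Or.inr (Or.inr (Or.inl
            ⟨s, (hE.c1 _ _).1 h4, h5⟩))))))))
      · obtain ⟨s, h4, h5⟩ := h1
        exact Or.inl (Or.inr (Or.inr (Or.inr (Or.inr (Or.inr (Or.inr (Or.inr (Or.inr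
            ⟨s, (hE.c1 _ _).1 h4, h5⟩))))))))
    · exact Or.inr h1

private theorem empty85 (A : Set P) (I : Set ℤ) : A ∪ tw (∅ : Set P) I = A := by
  have : tw (∅ : Set P) I = ∅ := by
    ext c
    simp [tw]
  rw [this, Set.union_empty]

private theorem closed_empty85 : Closed (∅ : Set P) := fun _ hc => hc.elim

theorem move_topQ {m : ℕ} {rs : List Str} {T T' : Str} (h : Adm m rs T) (h' : Adm m rs T')
    (hlo : T'.lo = T.lo) (hhi : T'.hi = T.hi + 1) (hcr : ∀ i, T'.cr i = T.cr i)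
    (hpos : ∀ i, i ≠ T.hi → T'.pos i = T.pos i) (h1' : 1 ≤ T.hi) :
    FE Tor (K (Phi (XX m rs T))) (K (Phi (XX m rs T'))) := by
  have hlt := h.okT.lt
  have hp : T'.pos T.hi = false := by
    have := h'.okT.pos_hi
    rwa [hhi, add_sub_cancel_right] at this
  have hE : Ext85 T T' (2 * T.hi) (2 * T.hi) (2 * T.hi + 2) := by
    refine ⟨?_, ?_, ?_, ?_, ?_, ?_, ?_, ?_, ?_, ?_, ?_, ?_, ?_, ?_, ?_⟩
    · intro z; omega
    · intro z; omega
    · omega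
    · omega
    · omega
    · omega
    · intro z; omega
    · intro z; omega
    · intro z; omega
    · rintro β z (⟨h1, h2, h3⟩ | ⟨h0, h1, h2, h3⟩)
      · exact Or.inl ⟨by omega, by omega, by rw [hpos _ (by omega)]; exact h3⟩
      · exact Or.inr ⟨h0, by omega, by omega, by rw [hpos _ (by omega)]; exact h3⟩
    · rintro z (⟨h1, h2, h3⟩ | ⟨h0, h1, h2, h3⟩)
      · have hne : z / 2 ≠ T.hi := by
          intro h4
          rw [h4, hp] at h3
          exact absurd h3 (by decide)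
        exact Or.inl ⟨by omega, by omega, by rw [← hpos _ hne]; exact h3⟩
      · have hne : z / 2 - 1 ≠ T.hi := by
          intro h4
          rw [h4, hp] at h3
          exact absurd h3 (by decide)
        exact Or.inr ⟨h0, by omega, by omega, by rw [← hpos _ hne]; exact h3⟩
    · rintro z (⟨h1, h2, h3⟩ | ⟨h0, h1, h2, h3⟩)
      · by_cases hne : z / 2 = T.hi
        · right
          omega
        · exact Or.inl (Or.inl ⟨by omega, by omega, by rw [← hpos _ hne]; exact h3⟩)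
      · by_cases hne : z / 2 - 1 = T.hi
        · right
          omega
        · exact Or.inl (Or.inr ⟨h0, by omega, by omega, by rw [← hpos _ hne]; exact h3⟩)
    · rintro z ⟨h1, h2⟩
      by_cases h3 : z = 2 * T.hi + 2
      · have h4 : z / 2 - 1 = T.hi := by omega
        exact Or.inr ⟨by omega, by omega, by omega, by rw [h4]; exact hp⟩
      · have h4 : z / 2 = T.hi := by omega
        exact Or.inl ⟨by omega, by omega, by rw [h4]; exact hp⟩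
    · intro s z
      unfold Str.cross
      rw [hcr]
    · rintro s z ⟨h1, h2⟩ h3
      by_cases h4 : z / 2 = T.hi
      · rw [hcr, h.okT.out (z / 2) (Or.inr (by omega))] at h2
        omega
      · rw [hcr, h.okT.out (z / 2) (Or.inr (by omega))] at h2
        omega
  have hC := int1_85 h hE
  have hC' := int2_85 h' hE
  have hu := un85 (m := m) (rs := rs) hE
  have hEA0 : ∀ c ∈ EA m, c 2 = 0 := fun c hc => hc.1
  have h1 := prism_lo (closed_EA85 m) closed_empty85 (Set.empty_subset _) hEA0 (fin_EA85 m)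
    (2 * T.hi) (even_two_mul _)
  rw [empty85] at h1
  have h2 := prism_hi (closed_EA85 m) (closed_EB85 m) (EB_sub85 m) hEA0 (fin_EA85 m)
    (2 * T.hi) (even_two_mul _)
  exact core85 h h' (2 * T.hi) hC hC' h1 h2 hu h1' (by omega) (by omega)

theorem move_botQ {m : ℕ} {rs : List Str} {T T' : Str} (h : Adm m rs T) (h' : Adm m rs T')
    (hlo : T'.lo = T.lo - 1) (hhi : T'.hi = T.hi) (hcr : ∀ i, T'.cr i = T.cr i)
    (hpos : ∀ i, i ≠ T.lo - 1 → T'.pos i = T.pos i) (h1' : 1 ≤ T.hi) :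
    FE Tor (K (Phi (XX m rs T))) (K (Phi (XX m rs T'))) := by
  have hlt := h.okT.lt
  have hp : T'.pos (T.lo - 1) = false := by
    have := h'.okT.pos_lo
    rwa [hlo] at this
  have hE : Ext85 T T' (2 * T.lo - 2) (2 * T.lo) (2 * T.lo - 2) := by
    refine ⟨?_, ?_, ?_, ?_, ?_, ?_, ?_, ?_, ?_, ?_, ?_, ?_, ?_, ?_, ?_⟩
    · intro z; omega
    · intro z; omega
    · omega
    · omega
    · omega
    · omega
    · intro z; omega
    · intro z; omega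
    · intro z; omega
    · rintro β z (⟨h1, h2, h3⟩ | ⟨h0, h1, h2, h3⟩)
      · exact Or.inl ⟨by omega, by omega, by rw [hpos _ (by omega)]; exact h3⟩
      · exact Or.inr ⟨h0, by omega, by omega, by rw [hpos _ (by omega)]; exact h3⟩
    · rintro z (⟨h1, h2, h3⟩ | ⟨h0, h1, h2, h3⟩)
      · have hne : z / 2 ≠ T.lo - 1 := by
          intro h4
          rw [h4, hp] at h3
          exact absurd h3 (by decide)
        exact Or.inl ⟨by omega, by omega, by rw [← hpos _ hne]; exact h3⟩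
      · have hne : z / 2 - 1 ≠ T.lo - 1 := by
          intro h4
          rw [h4, hp] at h3
          exact absurd h3 (by decide)
        exact Or.inr ⟨h0, by omega, by omega, by rw [← hpos _ hne]; exact h3⟩
    · rintro z (⟨h1, h2, h3⟩ | ⟨h0, h1, h2, h3⟩)
      · by_cases hne : z / 2 = T.lo - 1
        · right
          omega
        · exact Or.inl (Or.inl ⟨by omega, by omega, by rw [← hpos _ hne]; exact h3⟩)
      · by_cases hne : z / 2 - 1 = T.lo - 1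
        · right
          omega
        · exact Or.inl (Or.inr ⟨h0, by omega, by omega, by rw [← hpos _ hne]; exact h3⟩)
    · rintro z ⟨h1, h2⟩
      by_cases h3 : z = 2 * T.lo
      · have h4 : z / 2 - 1 = T.lo - 1 := by omega
        exact Or.inr ⟨by omega, by omega, by omega, by rw [h4]; exact hp⟩
      · have h4 : z / 2 = T.lo - 1 := by omega
        exact Or.inl ⟨by omega, by omega, by rw [h4]; exact hp⟩
    · intro s z
      unfold Str.cross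
      rw [hcr]
    · rintro s z ⟨h1, h2⟩ h3
      rw [hcr, h.okT.out (z / 2) (Or.inl (by omega))] at h2
      omega
  have hC := int1_85 h hE
  have hC' := int2_85 h' hE
  have hu := un85 (m := m) (rs := rs) hE
  have hEA0 : ∀ c ∈ EA m, c 2 = 0 := fun c hc => hc.1
  have hev : Even (2 * T.lo - 2) := ⟨T.lo - 1, by ring⟩
  have h1 := prism_hi (closed_EA85 m) closed_empty85 (Set.empty_subset _) hEA0 (fin_EA85 m)
    (2 * T.lo - 2) hev
  rw [empty85, sub_add_cancel] at h1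
  have h2 := prism_lo (closed_EA85 m) (closed_EB85 m) (EB_sub85 m) hEA0 (fin_EA85 m)
    (2 * T.lo - 2) hev
  have hz := h.zero
  refine core85 h h' (2 * T.lo - 2) hC hC' ?_ h2 hu h1' (by omega) (by omega)
  rw [sub_add_cancel]
  exact h1

end Pool.Agent.CC39
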