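import Pool.Agent.CC39.Defs
import Pool.Agent.MKD.Final
import Pool.Agent.MK.CodeM

/-! Module CC39/FamCode. Computable lists of the facets of the exteriors.

Z w := (fam m rels w \ {dd}) ∪ TT. From `exists_cells` (MKD/Cells) there is a computable `cells` with
Rep (fam m rels w) shf (cells w), shf = (5, 1, 1, 1, 1). The list
 L w := ((cells w).map (fun l => [l0 + 2, l1, l2 + 2, l3, l4])).filter (· ≠ pos c₀ dd) ++ LT,
LT a fixed list of all pos c₀ q, q ∈ TT, satisfies Rep (Z w) c₀ (L w) (c₀ = (7, 1, 3, 1, 1); coordinates: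
`Rep.pos` and the definition of TT; TT is finite: it is contained in a box). Marks (Z w) 0: 0 ∈ fam (`fam_closed`), 0 ≠ dd,
0 - e 4 has coordinate 4 equal to -1: not in fam (`fam_closed`), not in TT.
`code (L w) (pos c₀ 0)` (MK/Code) has the facets K (Z w) with names nm c₀ (`fs_code`, `code_facets`
in MK/CodeFs), computable by `code_computable`; nam x = 2 * nm c₀ x. Let coreL be the list of all orderings of the
sets s.image (nm c₀), s ∈ Core (Core is finite: Core ⊆ Tor ⊆ K TT, `K_finite`);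
 C w := ((code (L w) (pos c₀ 0)).filter (fun F => decide (F ∉ coreL))).map (List.map (2 * ·)).
A facet F of the code (nodup) is in coreL iff its set is s.image (nm c₀) with s ∈ Core; as nm c₀ is
injective on the vertices (`nm_inj`) this means that the facet s' ∈ K (Z w) of F is in Core. -/

set_option autoImplicit false

namespace Pool.Agent.CC39

open Pool.Agent.DT70 Pool.Agent.MK Pool.Agent.MKD

private theorem c0_ge (i : Fin 5) : 1 ≤ c₀ i := by
  unfold c₀
  split_ifs <;> norm_num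

private theorem TT_bd {q : P} (h : q ∈ TT) : -6 ≤ q 0 ∧ q 0 ≤ 0 ∧ 0 ≤ q 1 ∧ q 1 ≤ 2 ∧ -2 ≤ q 2 ∧
    q 2 ≤ 4 ∧ 2 ≤ q 3 ∧ q 3 ≤ 4 ∧ 2 ≤ q 4 ∧ q 4 ≤ 6 := by
  obtain ⟨-, h | h⟩ := h <;> omega

private theorem TT_fin : TT.Finite := by
  refine (Set.finite_Icc (fun _ : Fin 5 => (-6 : ℤ)) (fun _ : Fin 5 => (6 : ℤ))).subset ?_
  intro q hq
  have := TT_bd hq
  constructor
  · intro i
    fin_cases i <;> simp <;> omega
  · intro i
    fin_cases i <;> simp <;> omega

private theorem TT_pos {q : P} (h : q ∈ TT) (i : Fin 5) : 1 ≤ q i + c₀ i := by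
  have := TT_bd h
  fin_cases i <;> simp [c₀] <;> omega

private theorem rep_TT : Rep TT c₀ (TT_fin.toFinset.toList.map (pos c₀)) := by
  refine ⟨fun l => ?_, fun q hq i => TT_pos hq i⟩
  simp only [List.mem_map, Finset.mem_toList, Set.Finite.mem_toFinset]
  constructor
  · rintro ⟨q, hq, rfl⟩
    exact ⟨q, hq, rfl⟩
  · rintro ⟨q, hq, rfl⟩
    exact ⟨q, hq, rfl⟩

private theorem pos_c0_inj {x y : P} (hx : ∀ i, 0 ≤ x i + c₀ i) (hy : ∀ i, 0 ≤ y i + c₀ i)
    (h : pos c₀ x = pos c₀ y) : x = y := by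
  have := List.ofFn_injective h
  funext i
  have h1 : (x i + c₀ i).toNat = (y i + c₀ i).toNat := congrFun this i
  have := hx i
  have := hy i
  omega

private theorem nm_c0_inj {x y : P} (hx : ∀ i, 0 ≤ x i + c₀ i) (hy : ∀ i, 0 ≤ y i + c₀ i)
    (h : nm c₀ x = nm c₀ y) : x = y :=
  pos_c0_inj hx hy (Encodable.encode_injective h)

private theorem nam_eq (x : P) : nam x = 2 * nm c₀ x := rfl

private theorem K_pos {X : Set P} (h : ∀ q ∈ X, ∀ i, 1 ≤ q i + c₀ i) {s : Finset P} (hs : s ∈ K X)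
    {x : P} (hx : x ∈ s) (i : Fin 5) : 0 ≤ x i + c₀ i := by
  obtain ⟨q, hq, -, -, hb⟩ := K_subset hs
  have h1 : q i ≤ x i := (hb x hx).1 i
  have h2 := h q hq i
  omega

private theorem core_sub {s : Finset P} (hs : s ∈ Core) : s ∈ K TT := hs.1.1

private theorem core_fin : Core.Finite := (K_finite TT_fin).subset fun _ hs => core_sub hs

/-- All orderings of the sets of names of the facets of the core. -/
private noncomputable def coreL : List (List ℕ) :=
  core_fin.toFinset.toList.flatMap (fun s => (s.image (nm c₀)).toList.permutations)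

private theorem mem_coreL {F : List ℕ} (hF : F.Nodup) :
    F ∈ coreL ↔ ∃ s ∈ Core, F.toFinset = s.image (nm c₀) := by
  unfold coreL
  simp only [List.mem_flatMap, Finset.mem_toList, Set.Finite.mem_toFinset, List.mem_permutations]
  constructor
  · rintro ⟨s, hs, hp⟩
    refine ⟨s, hs, ?_⟩
    ext x
    rw [List.mem_toFinset, hp.mem_iff, Finset.mem_toList]
  · rintro ⟨s, hs, hp⟩
    refine ⟨s, hs, ?_⟩
    refine List.perm_of_nodup_nodup_toFinset_eq hF (Finset.nodup_toList _) ?_
    rw [hp, Finset.toList_toFinset]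

private theorem image_inj {s t : Finset P} (hs : ∀ x ∈ s, ∀ i, 0 ≤ x i + c₀ i)
    (ht : ∀ x ∈ t, ∀ i, 0 ≤ x i + c₀ i) (h : s.image (nm c₀) = t.image (nm c₀)) : s = t := by
  ext x
  constructor
  · intro hx
    have h1 : nm c₀ x ∈ t.image (nm c₀) := h ▸ Finset.mem_image_of_mem _ hx
    obtain ⟨y, hy, hxy⟩ := Finset.mem_image.1 h1
    rw [← nm_c0_inj (ht y hy) (hs x hx) hxy]
    exact hy
  · intro hx
    have h1 : nm c₀ x ∈ s.image (nm c₀) := h.symm ▸ Finset.mem_image_of_mem _ hx
    obtain ⟨y, hy, hxy⟩ := Finset.mem_image.1 h1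
    rw [← nm_c0_inj (hs y hy) (ht x hx) hxy]
    exact hy

private theorem lists_sdiff {X : Set P} {L : List (List ℕ)} (h : Rep X c₀ L) {q₀ : P}
    (hq : Marks X q₀) : Lists (K X \ Core)
      (((code L (pos c₀ q₀)).filter (fun F => decide (F ∉ coreL))).map (List.map (2 * ·))) := by
  have hfs := fs_code h hq
  have hcf := code_facets h hq
  have hcp : ∀ s ∈ Core, ∀ x ∈ s, ∀ i, 0 ≤ x i + c₀ i := fun s hs x hx i =>
    K_pos (fun q hq i => TT_pos hq i) (core_sub hs) hx i
  have hKp : ∀ s ∈ K X, ∀ x ∈ s, ∀ i, 0 ≤ x i + c₀ i := fun s hs x hx i =>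
    K_pos h.pos hs hx i
  have himg : ∀ (G : List ℕ) (s : Finset P), G.toFinset = s.image (nm c₀) →
      (G.map (2 * ·)).toFinset = s.image nam := by
    intro G s hG
    ext n
    simp only [List.mem_toFinset, List.mem_map, Finset.mem_image]
    constructor
    · rintro ⟨a, ha, rfl⟩
      have : a ∈ s.image (nm c₀) := hG ▸ List.mem_toFinset.2 ha
      obtain ⟨x, hx, rfl⟩ := Finset.mem_image.1 this
      exact ⟨x, hx, rfl⟩
    · rintro ⟨x, hx, rfl⟩
      have : nm c₀ x ∈ G.toFinset := hG ▸ Finset.mem_image_of_mem _ hx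
      exact ⟨_, List.mem_toFinset.1 this, rfl⟩
  refine ⟨?_, ?_⟩
  · intro F hF
    obtain ⟨G, hG, rfl⟩ := List.mem_map.1 hF
    obtain ⟨h1, h2⟩ := hcf G (List.mem_filter.1 hG).1
    refine ⟨h1.map ?_, by simpa using h2⟩
    intro a b hab
    simpa using hab
  · ext t
    constructor
    · rintro ⟨F, hF, rfl⟩
      obtain ⟨G, hG, rfl⟩ := List.mem_map.1 hF
      obtain ⟨hG1, hG2⟩ := List.mem_filter.1 hG
      have hG3 : G.toFinset ∈ fs (code L (pos c₀ q₀)) := ⟨G, hG1, rfl⟩
      rw [hfs] at hG3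
      obtain ⟨s, hs, hGs⟩ := hG3
      refine ⟨s, ⟨hs, fun hsc => ?_⟩, himg G s hGs⟩
      have : G ∈ coreL := (mem_coreL (hcf G hG1).1).2 ⟨s, hsc, hGs⟩
      simp [this] at hG2
    · rintro ⟨s, ⟨hs, hsc⟩, rfl⟩
      have h1 : s.image (nm c₀) ∈ fs (code L (pos c₀ q₀)) := by
        rw [hfs]
        exact ⟨s, hs, rfl⟩
      obtain ⟨G, hG, hGs⟩ := h1
      refine ⟨G.map (2 * ·), List.mem_map.2 ⟨G, List.mem_filter.2 ⟨hG, ?_⟩, rfl⟩, himg G s hGs⟩
      rw [decide_eq_true_iff]
      intro hGc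
      obtain ⟨s', hs', hGs'⟩ := (mem_coreL (hcf G hG).1).1 hGc
      apply hsc
      rw [image_inj (hKp s hs) (hcp s' hs') (hGs.symm.trans hGs')]
      exact hs'

/-- Change of the shift. -/
private def sh (l : List ℕ) : List ℕ :=
  [l.getD 0 0 + 2, l.getD 1 0, l.getD 2 0 + 2, l.getD 3 0, l.getD 4 0]

private theorem pos_c0 (q : P) : pos c₀ q =
    [(q 0 + 7).toNat, (q 1 + 1).toNat, (q 2 + 3).toNat, (q 3 + 1).toNat, (q 4 + 1).toNat] := by
  simp [pos, c₀, List.ofFn_succ]

private theorem sh_pos {q : P} (h : ∀ i, 1 ≤ q i + shf i) : sh (pos shf q) = pos c₀ q := by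
  have h0 := h 0
  have h2 := h 2
  simp only [shf] at h0 h2
  norm_num at h0 h2
  rw [pos_shf, pos_c0]
  simp only [sh, List.getD_cons_zero, List.getD_cons_succ]
  congr 1
  · omega
  · congr 1
    congr 1
    omega

private theorem shf_le (i : Fin 5) : shf i ≤ c₀ i := by
  unfold shf c₀
  fin_cases i <;> simp

private theorem dd_pos (i : Fin 5) : 0 ≤ pt (-3) 0 1 2 2 i + c₀ i := by
  fin_cases i <;> simp [pt, c₀]

/-- The list of the cells. -/
private noncomputable def LL (cells : List (List ℕ)) : List (List ℕ) :=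
  ((cells.map sh).filter (fun l => decide (l ≠ pos c₀ (pt (-3) 0 1 2 2)))) ++
    TT_fin.toFinset.toList.map (pos c₀)

private theorem rep_LL {Y : Set P} {cells : List (List ℕ)} (h : Rep Y shf cells) :
    Rep ((Y \ {pt (-3) 0 1 2 2}) ∪ TT) c₀ (LL cells) := by
  have hY : ∀ q ∈ Y, ∀ i, 1 ≤ q i + c₀ i := fun q hq i => by
    have h1 := h.pos q hq i
    have h2 := shf_le i
    omega
  refine ⟨fun l => ?_, ?_⟩
  · unfold LL
    rw [List.mem_append, rep_TT.mem, List.mem_filter, List.mem_map]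
    constructor
    · rintro (⟨⟨l', hl', rfl⟩, h2⟩ | ⟨q, hq, rfl⟩)
      · obtain ⟨q, hq, rfl⟩ := (h.mem l').1 hl'
        rw [sh_pos (h.pos q hq), decide_eq_true_iff] at h2
        refine ⟨q, Or.inl ⟨hq, ?_⟩, sh_pos (h.pos q hq)⟩
        rintro rfl
        exact h2 rfl
      · exact ⟨q, Or.inr hq, rfl⟩
    · rintro ⟨q, ⟨hq, hqd⟩ | hq, rfl⟩
      · left
        refine ⟨⟨pos shf q, (h.mem _).2 ⟨q, hq, rfl⟩, sh_pos (h.pos q hq)⟩, ?_⟩
        rw [decide_eq_true_iff]
        intro he
        apply hqd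
        exact pos_c0_inj (fun i => by have := hY q hq i; omega) dd_pos he
      · right
        exact ⟨q, hq, rfl⟩
  · rintro q (⟨hq, -⟩ | hq) i
    · exact hY q hq i
    · exact TT_pos hq i

private theorem marks_LL {Y : Set P} (h : Marks Y 0) : Marks ((Y \ {pt (-3) 0 1 2 2}) ∪ TT) 0 := by
  refine ⟨Or.inl ⟨h.1, ?_⟩, ?_⟩
  · intro h0
    have := congrFun h0 0
    simp [pt] at this
  · rintro (⟨h1, -⟩ | h1)
    · exact h.2 h1
    · have := TT_bd h1
      simp [e] at this

private theorem pr_mem' {α : Type*} [Primcodable α] [DecidableEq α] :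
    PrimrecRel (fun (L : List α) (b : α) => b ∈ L) := by
  have h := PrimrecRel.exists_mem_list (R := fun (a b : α) => a = b) Primrec.eq
  exact h.of_eq fun L b => by simp

private theorem pr_sh : Primrec sh := by
  have hg : ∀ n : ℕ, Primrec (fun l : List ℕ => l.getD n 0) := fun n =>
    (Primrec.list_getD 0).comp Primrec.id (Primrec.const n)
  unfold sh
  refine Primrec.list_cons.comp (Primrec.nat_add.comp (hg 0) (Primrec.const 2)) ?_
  refine Primrec.list_cons.comp (hg 1) ?_
  refine Primrec.list_cons.comp (Primrec.nat_add.comp (hg 2) (Primrec.const 2)) ?_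
  refine Primrec.list_cons.comp (hg 3) ?_
  exact Primrec.list_cons.comp (hg 4) (Primrec.const [])

private theorem pr_LL : Primrec LL := by
  have h1 : Primrec (fun L : List (List ℕ) => L.map sh) :=
    Primrec.list_map Primrec.id (pr_sh.comp Primrec.snd).to₂
  have hp : PrimrecPred (fun l : List ℕ => l ≠ pos c₀ (pt (-3) 0 1 2 2)) :=
    (Primrec.eq.comp Primrec.id (Primrec.const _)).not
  exact Primrec.list_append.comp ((Primrec.listFilter hp).comp h1) (Primrec.const _)

private theorem pr_fin : Primrec (fun K : Code =>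
    (K.filter (fun F => decide (F ∉ coreL))).map (List.map (2 * ·))) := by
  have hp : PrimrecPred (fun F : List ℕ => F ∉ coreL) :=
    (pr_mem'.comp (Primrec.const coreL) Primrec.id).not
  have h2 : Primrec (fun l : List ℕ => l.map (2 * ·)) :=
    Primrec.list_map Primrec.id (Primrec.nat_mul.comp (Primrec.const 2) Primrec.snd).to₂
  exact Primrec.list_map (Primrec.listFilter hp) (h2.comp Primrec.snd).to₂

theorem fam_codes (m : ℕ) (rels : List (List (ℕ × Bool))) :
    ∃ C : List (ℕ × Bool) → Code, Computable C ∧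
      ∀ w, Lists (K ((fam m rels w \ {pt (-3) 0 1 2 2}) ∪ TT) \ Core) (C w) := by
  obtain ⟨cells, hc, hr⟩ := exists_cells m rels
  refine ⟨fun w => (((code (LL (cells w)) (pos c₀ 0)).filter
    (fun F => decide (F ∉ coreL))).map (List.map (2 * ·))), ?_, fun w => ?_⟩
  · have h1 : Computable (fun w => LL (cells w)) := pr_LL.to_comp.comp hc
    have h2 : Computable (fun w => (LL (cells w), pos c₀ 0)) := h1.pair (Computable.const _)
    have h3 : Computable (fun w => code (LL (cells w)) (pos c₀ 0)) :=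
      Computable.comp (f := fun x : List (List ℕ) × List ℕ => code x.1 x.2)
        (g := fun w => (LL (cells w), pos c₀ 0)) code_computable h2
    exact Computable.comp (f := fun K : Code =>
      (K.filter (fun F => decide (F ∉ coreL))).map (List.map (2 * ·)))
        (g := fun w => code (LL (cells w)) (pos c₀ 0)) pr_fin.to_comp h3
  · exact lists_sdiff (rep_LL (hr w)) (marks_LL (fam_closed m rels w).2.2.2.2)

theorem exists_collar : ∃ D : Code, Lists (Tor \ Core) D := by
  have hfin : (Tor \ Core).Finite := (K_finite TT_fin).subset fun s hs => hs.1.1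
  have hinj : ∀ s ∈ Tor \ Core, ∀ x ∈ s, ∀ y ∈ s, nam x = nam y → x = y := by
    intro s hs x hx y hy hxy
    have hp : ∀ z ∈ s, ∀ i, 0 ≤ z i + c₀ i := fun z hz i =>
      K_pos (fun q hq i => TT_pos hq i) hs.1.1 hz i
    rw [nam_eq, nam_eq] at hxy
    exact nm_c0_inj (hp x hx) (hp y hy) (by omega)
  refine ⟨hfin.toFinset.toList.map (fun s => (s.image nam).toList), ?_, ?_⟩
  · intro F hF
    obtain ⟨s, hs, rfl⟩ := List.mem_map.1 hF
    rw [Finset.mem_toList, Set.Finite.mem_toFinset] at hs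
    refine ⟨Finset.nodup_toList _, ?_⟩
    rw [Finset.length_toList, Finset.card_image_of_injOn]
    · obtain ⟨q, -, -, h5, -⟩ := K_subset hs.1.1
      exact h5
    · intro x hx y hy hxy
      exact hinj s hs x hx y hy hxy
  · ext t
    simp only [fs, List.mem_map, Finset.mem_toList, Set.Finite.mem_toFinset, Set.mem_setOf_eq]
    constructor
    · rintro ⟨F, ⟨s, hs, rfl⟩, rfl⟩
      exact ⟨s, hs, by rw [Finset.toList_toFinset]⟩
    · rintro ⟨s, hs, rfl⟩
      exact ⟨_, ⟨s, hs, rfl⟩, by rw [Finset.toList_toFinset]⟩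

end Pool.Agent.CC39
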