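import Pool.Agent.CC39.Defs
import Pool.Agent.MKD.Final

/-! Module CC39/FamEss. If the word w has the value g (of infinite order) for y, then the ring has
infinite order in the complex of w without the square dd = (-3, 0, 1, 2, 2).

This is MKD/LabelEx (`flat`, `exists_label`) with a strand T whose total product is not 1. Let
φ be the product of the crossings: φ T.lo = 1, φ j = φ (j - 1) * stepV T y j, g := φ (T.hi - 1).
(MKD/Conv `cval_conv`, MKD/Lists `triv_strOf` and its proof: for T = strOf 0 (replicate N 0 ++ conv m w),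
g = MKE.val y w.) Put, as in LabelEx, with z = 2 j,
 Psi'(x, y', z) = g if x < 0 and z ≥ 1, 1 if x < 0 and z ≤ 0; for x ≥ 0: 1 if j ≤ T.lo, g if j ≥ T.hi, otherwise
  φ (j - 1) if (y' = 2) = (T.pos (j - 1) = true) and φ j if not.
Λ q = std y q                        if q 3 = 0, q 4 = 0;
      (Psi' (q 0) (q 1) (q 2))⁻¹     if q 3 = 1, q 4 = 0;
      (Psi_r (q 0) (q 1) (q 2))⁻¹    if q 3 = 0, q 4 = 1 (relators, exactly as in LabelEx: they are trivial);
      g⁻¹                            if q = (-4, 0, 1, 2, 0) or q = (-4, 0, 1, 2, 2);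
      1                              otherwise.
Flat on XX without dd: the only new squares are (-4, 0, 1, 1, 0): base edge 1, edges (-4, 0, 0, 1, 0): 1 and
(-4, 0, 2, 1, 0): g⁻¹, upper edge g⁻¹; and (-4, 0, 1, 2, 1): the edges (-4, 0, 1, 2, 0) and (-4, 0, 1, 2, 2)
have the same label, the others 1. (Here T.lo = 0 and T.hi ≥ 1, so on the top row z = 2 T.hi ≥ 2, x < 0:
Psi' = g, as at its end x = 0; on the bottom row z = 0: Psi' = 1.) Other squares as in LabelEx.flat.
hol Λ = g⁻¹. -/

set_option autoImplicit false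

namespace Pool.Agent.CC39

open Pool.Agent.DT70 Pool.Agent.MK Pool.Agent.MKD

namespace FamEss

variable {Γ : Type} [Group Γ]

open Classical in
/-- The product along the boundary curve. -/
private noncomputable def Psi (T : Str) (φ : ℤ → Γ) (g : Γ) (x y z : ℤ) : Γ :=
  if x < 0 then (if 1 ≤ z then g else 1)
  else if z / 2 ≤ T.lo then 1
  else if T.hi ≤ z / 2 then g
  else if (y = 2 ↔ T.pos (z / 2 - 1) = true) then φ (z / 2 - 1) else φ (z / 2)

private structure HolG (T : Str) (y : ℕ → Γ) (φ : ℤ → Γ) (g : Γ) : Prop where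
  lo : φ T.lo = 1
  hi : φ (T.hi - 1) = g
  step : ∀ j, T.lo < j → j < T.hi → φ j = φ (j - 1) * stepV T y j

private theorem m0 {T : Str} (hlo : T.lo = 0) (hhi : T.lo < T.hi) {x y z : ℤ} (φ : ℤ → Γ) (g : Γ)
    (hx : x % 2 = 1) (h : LabelEx.Bc true T x y z) : Psi T φ g (x - 1) y z = Psi T φ g (x + 1) y z := by
  rcases h with ⟨h, -, -⟩ | ⟨h, -, -⟩ | ⟨h, -, -⟩ | ⟨-, -, h0, h⟩ | ⟨s, -, h⟩
  · omega
  · omega
  · have := (LabelEx.rt_even true).1
    omega
  · have h1 : x - 1 < 0 := by omega
    rcases h with h | h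
    · have hz : ¬ (1 ≤ z) := by omega
      have hz2 : z / 2 ≤ T.lo := by omega
      rw [Psi, Psi, if_pos h1, if_neg hz, if_pos hz2]
      split_ifs <;> rfl
    · have hz : 1 ≤ z := by omega
      have hz2 : ¬ (z / 2 ≤ T.lo) := by omega
      have hz3 : T.hi ≤ z / 2 := by omega
      rw [Psi, Psi, if_pos h1, if_pos hz, if_neg hz2, if_pos hz3]
      split_ifs <;> rfl
  · have h0 : 1 ≤ x := by
      rcases h with h | h | h <;> omega
    have h1 : (x - 1 < 0) = False := by
      simp only [eq_iff_iff, iff_false]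
      omega
    have h2 : (x + 1 < 0) = False := by
      simp only [eq_iff_iff, iff_false]
      omega
    simp only [Psi, h1, h2]

private theorem m1 {m : ℕ} {T : Str} (ok : T.OK m) {x y z : ℤ} {φ : ℤ → Γ} {w : ℕ → Γ} {g : Γ}
    (hφ : HolG T w φ g) (hy : y % 2 = 1)
    (h : LabelEx.Bc true T x y z) :
    w (x / 2).toNat = (Psi T φ g x (y - 1) z)⁻¹ * Psi T φ g x (y + 1) z := by
  rcases h with ⟨-, h, -⟩ | ⟨-, h, -⟩ | ⟨-, h, -⟩ | ⟨h, -, -, -⟩ | ⟨s, hc, h⟩
  · omega
  · omega
  · omega
  · omega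
  · obtain ⟨hz, hc⟩ := hc
    have hx : x = 2 * s ∧ y = 1 := by
      rcases h with h | h | h <;> omega
    obtain ⟨rfl, rfl⟩ := hx
    have hs : ((2 * (s : ℤ)) / 2).toNat = s := by omega
    rw [hs]
    set j := z / 2 with hj
    have hlo : T.lo < j := by
      by_contra hcon
      have := ok.out j (Or.inl (not_lt.mp hcon))
      omega
    have hhi : j < T.hi := by
      by_contra hcon
      have := ok.out j (Or.inr (not_lt.mp hcon))
      omega
    have hst := hφ.step j hlo hhi
    have hsv : stepV T w j = if T.pos (j - 1) then (w s)⁻¹ else w s := by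
      unfold stepV
      rw [hc]
    rw [hsv] at hst
    have hn1 : ¬ ((2 * (s : ℤ)) < 0) := by omega
    have hn2 : ¬ (j ≤ T.lo) := by omega
    have hn3 : ¬ (T.hi ≤ j) := by omega
    simp only [Psi, ← hj, if_neg hn1, if_neg hn2, if_neg hn3]
    by_cases hp : T.pos (j - 1) = true
    · simp only [hp, if_true] at hst
      simp only [hp]
      norm_num
      rw [hst]
      group
    · simp only [hp] at hst
      simp only [hp]
      norm_num
      norm_num at hst
      rw [hst]
      group

private theorem m2 {m : ℕ} {T : Str} (ok : T.OK m) (hlo : T.lo = 0) {x y z : ℤ} {φ : ℤ → Γ}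
    {w : ℕ → Γ} {g : Γ}
    (hφ : HolG T w φ g) (hz : z % 2 = 1)
    (h : LabelEx.Bc true T x y z) (hne : ¬ (x = -4 ∧ z = 1)) :
    Psi T φ g x y (z - 1) = Psi T φ g x y (z + 1) := by
  have e1 : (z - 1) / 2 = z / 2 := by omega
  have e2 : (z + 1) / 2 = z / 2 + 1 := by omega
  have key : ∀ β : Bool, x = 0 → (y = 2 ↔ β = true) → T.at_ β z →
      Psi T φ g x y (z - 1) = Psi T φ g x y (z + 1) := by
    intro β hx hy hat
    rcases hat with ⟨ha, hb, hc⟩ | ⟨ha, -⟩
    swap
    · omega
    have hx0 : ¬ (x < 0) := by omega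
    have key1 : Psi T φ g x y (z - 1) = φ (z / 2) := by
      rw [Psi, e1, if_neg hx0]
      by_cases hl : z / 2 = T.lo
      · rw [if_pos (by omega), hl, hφ.lo]
      · rw [if_neg (by omega), if_neg (by omega)]
        have hlo : T.lo < z / 2 := by omega
        by_cases hpp : (y = 2 ↔ T.pos (z / 2 - 1) = true)
        · rw [if_pos hpp]
          have heq : T.pos (z / 2 - 1) = T.pos (z / 2) := by
            rw [hc, Bool.eq_iff_iff, ← hpp, hy]
          have h0 := (ok.iff _ hlo hb).mpr heq
          have hst := hφ.step _ hlo hb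
          unfold stepV at hst
          rw [h0] at hst
          rw [hst]
          simp
        · rw [if_neg hpp]
    have key2 : Psi T φ g x y (z + 1) = φ (z / 2) := by
      rw [Psi, e2, if_neg hx0, if_neg (by omega)]
      have e3 : z / 2 + 1 - 1 = z / 2 := by omega
      rw [e3]
      by_cases hl : z / 2 + 1 = T.hi
      · rw [if_pos (by omega)]
        have : z / 2 = T.hi - 1 := by omega
        rw [this, hφ.hi]
      · rw [if_neg (by omega), if_pos (by rw [hc]; exact hy)]
    rw [key1, key2]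
  rcases h with ⟨h, h', h''⟩ | ⟨h, h', h''⟩ | ⟨h, -, h', -⟩ | ⟨-, -, -, h⟩ | ⟨s, ⟨hc, -⟩, -⟩
  · exact key false h (by rw [h']; simp) h''
  · exact key true h (by rw [h']; simp) h''
  · have hr : rt true = -4 := rfl
    rw [Psi, Psi, if_pos (by omega), if_pos (by omega), if_pos (by omega), if_pos (by omega)]
  · omega
  · omega

private theorem mside {m : ℕ} {T : Str} (ok : T.OK m) (hlo : T.lo = 0) {φ : ℤ → Γ} {w : ℕ → Γ}
    {g : Γ} (hφ : HolG T w φ g) {q : P} {i : Fin 5} (hi : i < 3) (hodd : q i % 2 = 1)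
    (hev : ∀ l : Fin 5, l < 3 → l ≠ i → q l % 2 = 0)
    (h : LabelEx.Bc true T (q 0) (q 1) (q 2)) (hne : ¬ (q 0 = -4 ∧ q 2 = 1)) :
    std w q * (Psi T φ g ((q + e i) 0) ((q + e i) 1) ((q + e i) 2))⁻¹ =
      (Psi T φ g ((q - e i) 0) ((q - e i) 1) ((q - e i) 2))⁻¹ := by
  have hi3 : i = 0 ∨ i = 1 ∨ i = 2 := by
    fin_cases i <;> simp_all
  rcases hi3 with rfl | rfl | rfl
  · have h1 := hev 1 (by decide) (by decide)
    have hstd : std w q = 1 := by
      rw [std, if_neg]
      rw [Int.odd_iff]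
      omega
    rw [hstd, one_mul, LabelEx.add_same, LabelEx.sub_same,
      LabelEx.add_ne q (by decide : (1 : Fin 5) ≠ 0),
      LabelEx.add_ne q (by decide : (2 : Fin 5) ≠ 0), LabelEx.sub_ne q (by decide : (1 : Fin 5) ≠ 0),
      LabelEx.sub_ne q (by decide : (2 : Fin 5) ≠ 0), m0 hlo ok.lt φ g hodd h]
  · have hstd : std w q = w (q 0 / 2).toNat := by
      rw [std, if_pos (Int.odd_iff.mpr hodd)]
    rw [hstd, LabelEx.add_same, LabelEx.sub_same, LabelEx.add_ne q (by decide : (0 : Fin 5) ≠ 1),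
      LabelEx.add_ne q (by decide : (2 : Fin 5) ≠ 1), LabelEx.sub_ne q (by decide : (0 : Fin 5) ≠ 1),
      LabelEx.sub_ne q (by decide : (2 : Fin 5) ≠ 1), m1 ok hφ hodd h]
    group
  · have h1 := hev 1 (by decide) (by decide)
    have hstd : std w q = 1 := by
      rw [std, if_neg]
      rw [Int.odd_iff]
      omega
    rw [hstd, one_mul, LabelEx.add_same, LabelEx.sub_same,
      LabelEx.add_ne q (by decide : (0 : Fin 5) ≠ 2),
      LabelEx.add_ne q (by decide : (1 : Fin 5) ≠ 2), LabelEx.sub_ne q (by decide : (0 : Fin 5) ≠ 2),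
      LabelEx.sub_ne q (by decide : (1 : Fin 5) ≠ 2), m2 ok hlo hφ hodd h hne]

/-- Cells over the end of the return line. -/
private theorem mem5 {m : ℕ} {rs : List Str} {T : Str} {q : P} (hq : q ∈ XX m rs T)
    (h3 : q 3 = 2) (h2 : q 2 = 1) (h0 : q 0 < 0) :
    q 1 = 0 ∧ -4 ≤ q 0 ∧ (q 0 = -4 ∨ q 4 = 2) := by
  rcases hq with (hq | ⟨r, -, hq⟩) | hq
  · have := hq.2.2.1
    omega
  · exfalso
    have hnu : ∀ u v : ℤ, nuP false u v → v = 0 := by
      intro u v h
      rcases h with ⟨h, -⟩ | h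
      · cases h
      · exact h.2.1
    have hen : ∀ u v : ℤ, en false u v → v = 0 := by
      intro u v h
      simpa using h.2
    rcases hq with h | h | h | h | h | h | ⟨s, h⟩ | ⟨s, h⟩
    · have := hnu _ _ h.2.2.1
      omega
    · have := hnu _ _ h.2.2.1
      omega
    · have := hen _ _ h.1
      omega
    · have := hen _ _ h.1
      omega
    · have := hnu _ _ h.2.2.1
      omega
    · have := hnu _ _ h.2.2.2.1
      omega
    · have := hnu _ _ h.2.2
      omega
    · have := hen _ _ h.2.2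
      omega
  · have hr : rt true = -4 := rfl
    rcases hq with h | h | h | h | h | h | ⟨s, h⟩ | ⟨s, h⟩
    · omega
    · omega
    · have h1 := h.1.1
      obtain ⟨-, h2, h3, -⟩ := h
      omega
    · omega
    · obtain ⟨h1, h2, -⟩ := h
      omega
    · obtain ⟨-, -, -, -, h⟩ := h
      omega
    · have := h.1.1
      omega
    · have := h.1.1
      omega

/-- The labelling. -/
private noncomputable def Lam (w : ℕ → Γ) (F G : ℤ → ℤ → ℤ → Γ) (g : Γ) (q : P) : Γ :=
  open Classical in
  if q 0 = -4 ∧ q 1 = 0 ∧ q 2 = 1 ∧ q 3 = 2 ∧ (q 4 = 0 ∨ q 4 = 2) then g⁻¹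
  else LabelEx.Lam w F G q

private theorem lamg (w : ℕ → Γ) (F G : ℤ → ℤ → ℤ → Γ) (g : Γ) (q : P)
    (h : q 0 = -4 ∧ q 1 = 0 ∧ q 2 = 1 ∧ q 3 = 2 ∧ (q 4 = 0 ∨ q 4 = 2)) :
    Lam w F G g q = g⁻¹ := by
  rw [Lam, if_pos h]

private theorem lamn (w : ℕ → Γ) (F G : ℤ → ℤ → ℤ → Γ) (g : Γ) (q : P)
    (h : ¬ (q 0 = -4 ∧ q 1 = 0 ∧ q 2 = 1 ∧ q 3 = 2 ∧ (q 4 = 0 ∨ q 4 = 2))) :
    Lam w F G g q = LabelEx.Lam w F G q := by
  rw [Lam, if_neg h]

private theorem lam0 (w : ℕ → Γ) (F G : ℤ → ℤ → ℤ → Γ) (g : Γ) (q : P) (h : q 3 = 0 ∧ q 4 = 0) :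
    Lam w F G g q = std w q := by
  rw [lamn _ _ _ _ _ (by omega), LabelEx.lam0 _ _ _ _ h]

private theorem lam3 (w : ℕ → Γ) (F G : ℤ → ℤ → ℤ → Γ) (g : Γ) (q : P) (h : q 3 = 1 ∧ q 4 = 0) :
    Lam w F G g q = (F (q 0) (q 1) (q 2))⁻¹ := by
  rw [lamn _ _ _ _ _ (by omega), LabelEx.lam3 _ _ _ _ h]

private theorem lam4 (w : ℕ → Γ) (F G : ℤ → ℤ → ℤ → Γ) (g : Γ) (q : P) (h : q 3 = 0 ∧ q 4 = 1) :
    Lam w F G g q = (G (q 0) (q 1) (q 2))⁻¹ := by
  rw [lamn _ _ _ _ _ (by omega), LabelEx.lam4 _ _ _ _ h]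

private theorem lam1 (w : ℕ → Γ) (F G : ℤ → ℤ → ℤ → Γ) (g : Γ) (q : P)
    (h : ¬ (q 0 = -4 ∧ q 1 = 0 ∧ q 2 = 1 ∧ q 3 = 2 ∧ (q 4 = 0 ∨ q 4 = 2)))
    (h' : q 3 = 2 ∨ q 4 = 2 ∨ q 3 < 0 ∨ q 3 > 1 ∨ q 4 < 0 ∨ q 4 > 1) :
    Lam w F G g q = 1 := by
  rw [lamn _ _ _ _ _ h, LabelEx.lam1 _ _ _ _ h']

private theorem flat {m : ℕ} {rs : List Str} {T : Str} (h : Adm m rs T) (hlo : T.lo = 0)
    (w : ℕ → Γ) {φ : ℤ → Γ} {g : Γ} (hφ : HolG T w φ g) {G : ℤ → ℤ → ℤ → Γ}
    (hG : ∀ r ∈ rs, ∃ φ, HolOK r w φ ∧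
      ∀ x y z, 2 * r.lo ≤ z → z ≤ 2 * r.hi → G x y z = LabelEx.Psi r φ x y z) :
    Flat (XX m rs T \ {pt (-3) 0 1 2 2}) (Lam w (Psi T φ g) G g) := by
  intro q hq' i j hij hd
  obtain ⟨hq, hqn⟩ := hq'
  have hqn' : ¬ (q 0 = -3 ∧ q 1 = 0 ∧ q 2 = 1 ∧ q 3 = 2 ∧ q 4 = 2) := by
    rintro ⟨a0, a1, a2, a3, a4⟩
    apply hqn
    rw [Set.mem_singleton_iff]
    funext l
    fin_cases l <;> simp [pt, a0, a1, a2, a3, a4]
  have hi : q i % 2 = 1 := by
    have : i ∈ dirs q := by rw [hd]; simp
    simp only [dirs, Finset.mem_filter, Finset.mem_univ, true_and] at this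
    exact LabelEx.mod_of_odd this
  have hj : q j % 2 = 1 := by
    have : j ∈ dirs q := by rw [hd]; simp
    simp only [dirs, Finset.mem_filter, Finset.mem_univ, true_and] at this
    exact LabelEx.mod_of_odd this
  have hk : ∀ l : Fin 5, l ≠ i → l ≠ j → q l % 2 = 0 := by
    intro l h1 h2
    have : l ∉ dirs q := by rw [hd]; simp [h1, h2]
    simp only [dirs, Finset.mem_filter, Finset.mem_univ, true_and] at this
    exact LabelEx.mod_of_not_odd this
  have hne : i ≠ j := ne_of_lt hij
  by_cases hj4 : j = 4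
  · subst hj4
    rcases LabelEx.mem4 h.okr hq hj with ⟨h3, h4⟩ | ⟨h3, h4, r, hr, hz1, hz2, hbc⟩
    · have hi3 : i ≠ 3 := by
        rintro rfl
        omega
      have hi4 : i ≠ 4 := hne
      have a3 : (q + e i) 3 = q 3 := LabelEx.add_ne q hi3.symm
      have a4 : (q + e i) 4 = q 4 := LabelEx.add_ne q hi4.symm
      have b3 : (q - e i) 3 = q 3 := LabelEx.sub_ne q hi3.symm
      have b4 : (q - e i) 4 = q 4 := LabelEx.sub_ne q hi4.symm
      have c0 : (q - e 4) 0 = q 0 := LabelEx.sub_ne q (by decide)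
      have c1 : (q - e 4) 1 = q 1 := LabelEx.sub_ne q (by decide)
      have c2 : (q - e 4) 2 = q 2 := LabelEx.sub_ne q (by decide)
      have c3 : (q - e 4) 3 = q 3 := LabelEx.sub_ne q (by decide)
      have c4 : (q - e 4) 4 = q 4 - 1 := LabelEx.sub_same q 4
      have d0 : (q + e 4) 0 = q 0 := LabelEx.add_ne q (by decide)
      have d1 : (q + e 4) 1 = q 1 := LabelEx.add_ne q (by decide)
      have d2 : (q + e 4) 2 = q 2 := LabelEx.add_ne q (by decide)
      have d3 : (q + e 4) 3 = q 3 := LabelEx.add_ne q (by decide)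
      have d4 : (q + e 4) 4 = q 4 + 1 := LabelEx.add_same q 4
      rw [lam1 w _ G g (q + e i) (by omega) (by omega), lam1 w _ G g (q - e i) (by omega) (by omega)]
      by_cases hc : q 0 = -4 ∧ q 1 = 0 ∧ q 2 = 1
      · rw [lamg w _ G g (q - e 4) (by omega), lamg w _ G g (q + e 4) (by omega)]
        simp
      · rw [lam1 w _ G g (q - e 4) (by omega) (by omega),
          lam1 w _ G g (q + e 4) (by omega) (by omega)]
    · have hi3 : i ≠ 3 := by
        rintro rfl
        omega
      have hi4 : i ≠ 4 := hne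
      have hlt3 : i < 3 := by
        fin_cases i <;> simp_all
      have d3 : (q + e 4) 3 = q 3 := LabelEx.add_ne q (by decide)
      have d4 : (q + e 4) 4 = q 4 + 1 := LabelEx.add_same q 4
      rw [lam0 w _ G g (q - e 4) (by
          rw [LabelEx.sub_ne q (by decide : (3 : Fin 5) ≠ 4), LabelEx.sub_same]
          omega),
        lam4 w _ G g (q + e i) (by
          rw [LabelEx.add_ne q hi3.symm, LabelEx.add_ne q hi4.symm]
          exact ⟨h3, h4⟩),
        lam4 w _ G g (q - e i) (by
          rw [LabelEx.sub_ne q hi3.symm, LabelEx.sub_ne q hi4.symm]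
          exact ⟨h3, h4⟩),
        lam1 w _ G g (q + e 4) (by omega) (by omega), mul_one]
      obtain ⟨φ', hφ', hG'⟩ := hG r hr
      have hza : 2 * r.lo ≤ (q + e i) 2 ∧ (q + e i) 2 ≤ 2 * r.hi := by
        by_cases hi2 : i = 2
        · subst hi2
          rw [LabelEx.add_same]
          omega
        · rw [LabelEx.add_ne q (Ne.symm hi2)]
          exact ⟨hz1, hz2⟩
      have hzb : 2 * r.lo ≤ (q - e i) 2 ∧ (q - e i) 2 ≤ 2 * r.hi := by
        by_cases hi2 : i = 2
        · subst hi2
          rw [LabelEx.sub_same]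
          omega
        · rw [LabelEx.sub_ne q (Ne.symm hi2)]
          exact ⟨hz1, hz2⟩
      rw [hG' _ _ _ hza.1 hza.2, hG' _ _ _ hzb.1 hzb.2]
      have hstd : std w (q - e 4) = std w q := by
        rw [std, std, LabelEx.sub_ne q (by decide : (0 : Fin 5) ≠ 4),
          LabelEx.sub_ne q (by decide : (1 : Fin 5) ≠ 4)]
      rw [hstd]
      refine LabelEx.side (h.okr r hr) hφ' hlt3 hi ?_ hbc
      intro l hl hli
      exact hk l hli (by rintro rfl; exact absurd hl (by decide))
  · by_cases hj3 : j = 3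
    · subst hj3
      obtain ⟨h3, h4, hbc⟩ := LabelEx.mem3 hq hj
      have hi3 : i ≠ 3 := hne
      have hi4 : i ≠ 4 := by
        rintro rfl
        exact absurd hij (by decide)
      have c3 : (q - e 3) 3 = q 3 - 1 := LabelEx.sub_same q 3
      have c4 : (q - e 3) 4 = q 4 := LabelEx.sub_ne q (by decide)
      have d0 : (q + e 3) 0 = q 0 := LabelEx.add_ne q (by decide)
      have d1 : (q + e 3) 1 = q 1 := LabelEx.add_ne q (by decide)
      have d2 : (q + e 3) 2 = q 2 := LabelEx.add_ne q (by decide)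
      have d3 : (q + e 3) 3 = q 3 + 1 := LabelEx.add_same q 3
      have d4 : (q + e 3) 4 = q 4 := LabelEx.add_ne q (by decide)
      have a3 : (q + e i) 3 = q 3 := LabelEx.add_ne q hi3.symm
      have a4 : (q + e i) 4 = q 4 := LabelEx.add_ne q hi4.symm
      have b3 : (q - e i) 3 = q 3 := LabelEx.sub_ne q hi3.symm
      have b4 : (q - e i) 4 = q 4 := LabelEx.sub_ne q hi4.symm
      have hstd : std w (q - e 3) = std w q := by
        rw [std, std, LabelEx.sub_ne q (by decide : (0 : Fin 5) ≠ 3),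
          LabelEx.sub_ne q (by decide : (1 : Fin 5) ≠ 3)]
      rw [lam0 w _ G g (q - e 3) (by omega), lam3 w _ G g (q + e i) (by omega),
        lam3 w _ G g (q - e i) (by omega), hstd]
      by_cases hc : q 0 = -4 ∧ q 1 = 0 ∧ q 2 = 1
      · obtain ⟨k0, k1, k2⟩ := hc
        have hi2 : i = 2 := by
          by_contra hi2
          have hi01 : i = 0 ∨ i = 1 := by
            fin_cases i <;> simp_all
          rcases hi01 with rfl | rfl
          · omega
          · omega
        subst hi2
        rw [lamg w _ G g (q + e 3) (by omega)]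
        have s1 : std w q = 1 := by
          rw [std, if_neg]
          rw [Int.odd_iff]
          omega
        have p0 : (q + e 2) 0 = q 0 := LabelEx.add_ne q (by decide)
        have p2 : (q + e 2) 2 = q 2 + 1 := LabelEx.add_same q 2
        have r0 : (q - e 2) 0 = q 0 := LabelEx.sub_ne q (by decide)
        have r2 : (q - e 2) 2 = q 2 - 1 := LabelEx.sub_same q 2
        rw [s1, Psi, Psi, if_pos (by omega), if_pos (by omega), if_pos (by omega),
          if_neg (by omega)]
        simp
      · rw [lam1 w _ G g (q + e 3) (by omega) (by omega), mul_one]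
        refine mside h.okT hlo hφ hij hi ?_ hbc ?_
        · intro l hl hli
          exact hk l hli (by rintro rfl; exact absurd hl (by decide))
        · rintro ⟨k0, k2⟩
          apply hc
          refine ⟨k0, ?_, k2⟩
          rcases hbc with hb | hb | hb | hb | ⟨s, -, hb⟩
          · omega
          · omega
          · exact hb.2.1
          · exact hb.1
          · rcases hb with hb | hb | hb <;> omega
    · have hj2 : j < 3 := by
        fin_cases j <;> simp_all
      have hi3 : i ≠ 3 := by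
        rintro rfl
        exact absurd (hij.trans hj2) (by decide)
      have hi4 : i ≠ 4 := by
        rintro rfl
        exact absurd (hij.trans hj2) (by decide)
      have h3 := hk 3 hi3.symm (Ne.symm hj3)
      have h4 := hk 4 hi4.symm (Ne.symm hj4)
      have c1 := LabelEx.sub_ne q (Ne.symm hj3)
      have c2 := LabelEx.add_ne q (Ne.symm hj3)
      have c3 := LabelEx.sub_ne q hi3.symm
      have c4 := LabelEx.add_ne q hi3.symm
      have d1 := LabelEx.sub_ne q (Ne.symm hj4)
      have d2 := LabelEx.add_ne q (Ne.symm hj4)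
      have d3 := LabelEx.sub_ne q hi4.symm
      have d4 := LabelEx.add_ne q hi4.symm
      by_cases hb : q 3 = 0 ∧ q 4 = 0
      · rw [lam0 w _ G g (q - e j) (by rw [c1, d1]; exact hb),
          lam0 w _ G g (q + e i) (by rw [c4, d4]; exact hb),
          lam0 w _ G g (q - e i) (by rw [c3, d3]; exact hb),
          lam0 w _ G g (q + e j) (by rw [c2, d2]; exact hb)]
        have hcases : (i = 0 ∧ j = 1) ∨ (i = 0 ∧ j = 2) ∨ (i = 1 ∧ j = 2) := by
          fin_cases i <;> fin_cases j <;> simp_all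
        rcases hcases with ⟨rfl, rfl⟩ | ⟨rfl, rfl⟩ | ⟨rfl, rfl⟩
        · have := LabelEx.mem01 hq hi hj
          omega
        · have h1 := hk 1 (by decide) (by decide)
          have gen : ∀ p : P, p 1 = q 1 → std w p = 1 := by
            intro p hp
            rw [std, if_neg]
            rw [Int.odd_iff]
            omega
          rw [gen _ (LabelEx.sub_ne q (by decide)), gen _ (LabelEx.add_ne q (by decide)),
            gen _ (LabelEx.sub_ne q (by decide)), gen _ (LabelEx.add_ne q (by decide))]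
        · have gen : ∀ p : P, p 1 = q 1 → p 0 = q 0 → std w p = w (q 0 / 2).toNat := by
            intro p hp hp'
            rw [std, if_pos, hp']
            rw [Int.odd_iff]
            omega
          have gen' : ∀ p : P, p 1 % 2 = 0 → std w p = 1 := by
            intro p hp
            rw [std, if_neg]
            rw [Int.odd_iff]
            omega
          rw [gen (q - e 2) (LabelEx.sub_ne q (by decide)) (LabelEx.sub_ne q (by decide)),
            gen (q + e 2) (LabelEx.add_ne q (by decide)) (LabelEx.add_ne q (by decide)),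
            gen' (q + e 1) (by rw [LabelEx.add_same]; omega),
            gen' (q - e 1) (by rw [LabelEx.sub_same]; omega)]
          simp
      · have key : ∀ l : Fin 5, (l = i ∨ l = j) → ∀ p : P, (p = q + e l ∨ p = q - e l) →
            ¬ (p 0 = -4 ∧ p 1 = 0 ∧ p 2 = 1 ∧ p 3 = 2 ∧ (p 4 = 0 ∨ p 4 = 2)) := by
          rintro l hl p hp ⟨a0, a1, a2, a3, a4⟩
          have hl3 : l < 3 := by
            rcases hl with rfl | rfl
            · exact hij.trans hj2
            · exact hj2
          have hlo' : q l % 2 = 1 := by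
            rcases hl with rfl | rfl
            · exact hi
            · exact hj
          have hpl : ∀ k : Fin 5, k ≠ l → p k = q k := by
            intro k hk
            rcases hp with rfl | rfl
            · exact LabelEx.add_ne q hk
            · exact LabelEx.sub_ne q hk
          have hpl' : p l = q l + 1 ∨ p l = q l - 1 := by
            rcases hp with rfl | rfl
            · exact Or.inl (LabelEx.add_same q l)
            · exact Or.inr (LabelEx.sub_same q l)
          have e3 : q 3 = 2 := by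
            rw [← hpl 3 (by rintro rfl; exact absurd hl3 (by decide))]
            exact a3
          have hl01 : l = 0 ∨ l = 1 ∨ l = 2 := by
            fin_cases l <;> simp_all
          rcases hl01 with rfl | rfl | rfl
          · have e1 := hpl 1 (by decide)
            have e2 := hpl 2 (by decide)
            have e4 := hpl 4 (by decide)
            have := mem5 hq e3 (by omega) (by omega)
            omega
          · have e0 := hpl 0 (by decide)
            have e2 := hpl 2 (by decide)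
            have := mem5 hq e3 (by omega) (by omega)
            omega
          · omega
        rw [lam1 w _ G g (q - e j) (key j (Or.inr rfl) _ (Or.inr rfl)),
          lam1 w _ G g (q + e i) (key i (Or.inl rfl) _ (Or.inl rfl)),
          lam1 w _ G g (q - e i) (key i (Or.inl rfl) _ (Or.inr rfl)),
          lam1 w _ G g (q + e j) (key j (Or.inr rfl) _ (Or.inl rfl))]
        · rw [c2, d2]
          omega
        · rw [c3, d3]
          omega
        · rw [c4, d4]
          omega
        · rw [c1, d1]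
          omega

/-! ## The holonomy of the strand -/

private theorem take_succ (W : List ℕ) {i : ℕ} (hi : i < W.length) :
    W.take (i + 1) = W.take i ++ [W.getD i 0] := by
  rw [List.take_add_one, List.getD_eq_getElem?_getD]
  simp [hi]

private theorem step (y : ℕ → Γ) (W : List ℕ) (lo : ℤ) (i : ℕ)
    (hi : i < W.length) :
    cval y false (W.take (i + 1)) = cval y false (W.take i) * stepV (strOf lo W) y (lo + i + 1) := by
  rw [take_succ W hi, cval_append]
  congr 1
  unfold stepV
  have h1 : (strOf lo W).cr (lo + i + 1) = W.getD i 0 := by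
    show (if lo < lo + i + 1 then W.getD (lo + i + 1 - lo - 1).toNat 0 else 0) = _
    rw [if_pos (by omega)]
    congr 1
    omega
  have h2 : (strOf lo W).pos (lo + i + 1 - 1) = par (W.take i) := by
    show par (W.take (lo + i + 1 - 1 - lo).toNat) = _
    congr 2
    omega
  rw [h1, h2, Bool.false_xor]
  generalize W.getD i 0 = a
  rcases a with _ | s
  · cases par (W.take i) <;> rfl
  · cases par (W.take i)
    · show y s * 1 = y s
      rw [mul_one]
    · show (y s)⁻¹ * 1 = (y s)⁻¹
      rw [mul_one]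

private theorem holG (W : List ℕ) (lo : ℤ) (y : ℕ → Γ) :
    HolG (strOf lo W) y (fun j => cval y false (W.take (j - lo).toNat)) (cval y false W) := by
  refine ⟨?_, ?_, ?_⟩
  · show cval y false (W.take (lo - lo).toNat) = 1
    simp [cval]
  · show cval y false (W.take (lo + W.length + 1 - 1 - lo).toNat) = cval y false W
    have h2 : (lo + W.length + 1 - 1 - lo).toNat = W.length := by omega
    rw [h2, List.take_length]
  · intro j hj1 hj2
    replace hj1 : lo < j := hj1
    replace hj2 : j < lo + W.length + 1 := hj2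
    obtain ⟨i, rfl⟩ : ∃ i : ℕ, j = lo + i + 1 := ⟨(j - lo - 1).toNat, by omega⟩
    have e2 : (lo + i + 1 - 1 - lo).toNat = i := by omega
    have e3 : (lo + i + 1 - lo).toNat = i + 1 := by omega
    show cval y false (W.take (lo + i + 1 - lo).toNat) =
      cval y false (W.take (lo + i + 1 - 1 - lo).toNat) * _
    rw [e2, e3]
    exact step y W lo i (by omega)

private theorem cval_zero (y : ℕ → Γ) (β : Bool) (N : ℕ) (W : List ℕ) :
    cval y β (List.replicate N 0 ++ W) = cval y β W := by
  induction N with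
  | zero => rfl
  | succ N ih =>
    rw [List.replicate_succ, List.cons_append]
    cases β <;> exact ih

private theorem val_congr {y y' : ℕ → Γ} {w : List (ℕ × Bool)}
    (h : ∀ x ∈ w, y x.1 = y' x.1) : MKE.val y w = MKE.val y' w := by
  unfold MKE.val
  rw [FreeGroup.lift_mk, FreeGroup.lift_mk]
  congr 1
  apply List.map_congr_left
  intro x hx
  rw [h x hx]

end FamEss

theorem fam_essential (m : ℕ) (rels : List (List (ℕ × Bool))) (w : List (ℕ × Bool))
    (hr : ∀ r ∈ rels, ∀ x ∈ r, 1 ≤ x.1 ∧ x.1 ≤ m) (hw : ∀ x ∈ w, 1 ≤ x.1 ∧ x.1 ≤ m)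
    {G : Type} [Group G] (y : ℕ → G) (h1 : ∀ r ∈ rels, MKE.val y r = 1)
    (h2 : ∀ n : ℤ, MKE.val y w ^ n = 1 → n = 0) :
    Essential (fam m rels w \ {pt (-3) 0 1 2 2}) := by
  let y' : ℕ → G := fun s => if s = 0 then 1 else y s
  have hy0 : y' 0 = 1 := by simp [y']
  have hyy : ∀ s, 1 ≤ s → y' s = y s := by
    intro s hs
    have : s ≠ 0 := by omega
    simp [y', this]
  have hval : ∀ v : List (ℕ × Bool), (∀ x ∈ v, 1 ≤ x.1 ∧ x.1 ≤ m) →
      MKE.val y' v = MKE.val y v := fun v hv => FamEss.val_congr fun x hx => hyy x.1 (hv x hx).1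
  have hrs : ∀ r ∈ rsOf 1 (rels.map (conv m)), Triv r y' := by
    intro r hrm
    obtain ⟨l₁, ρ, l₂, hl, rfl⟩ := mem_rsOf.1 hrm
    have hρ : ρ ∈ rels.map (conv m) := by rw [hl]; simp
    obtain ⟨r0, hr0, rfl⟩ := List.mem_map.1 hρ
    rw [triv_strOf (wok_conv m r0), cval_conv m y' hy0 r0 (hr r0 hr0), hval r0 (hr r0 hr0)]
    exact h1 r0 hr0
  have hH := FamEss.holG (List.replicate (lenR (rels.map (conv m))) 0 ++ conv m w) 0 y'
  rw [FamEss.cval_zero, cval_conv m y' hy0 w hw, hval w hw] at hH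
  obtain ⟨F, hF⟩ := LabelEx.exG (adm_fam m rels w) y' hrs
  refine ⟨G, inferInstance, _, FamEss.flat (adm_fam m rels w) rfl y' hH hF, ?_⟩
  intro n hn
  apply h2 n
  have e1 : hol (FamEss.Lam y' (FamEss.Psi (strOf 0 (List.replicate (lenR (rels.map (conv m))) 0 ++
      conv m w)) (fun j => cval y' false ((List.replicate (lenR (rels.map (conv m))) 0 ++
      conv m w).take (j - 0).toNat)) (MKE.val y w)) F (MKE.val y w)) = (MKE.val y w)⁻¹ := by
    unfold hol
    rw [FamEss.lamg _ _ _ _ (pt (-4) 0 1 2 2) (by simp [pt]),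
      FamEss.lam1 _ _ _ _ (pt (-3) 0 2 2 2) (by simp [pt]) (by simp [pt]),
      FamEss.lam1 _ _ _ _ (pt (-2) 0 1 2 2) (by simp [pt]) (by simp [pt]),
      FamEss.lam1 _ _ _ _ (pt (-3) 0 0 2 2) (by simp [pt]) (by simp [pt])]
    simp
  rw [e1, inv_zpow, inv_eq_one] at hn
  exact hn

end Pool.Agent.CC39
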