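import Pool.Agent.CC39.WordQ
import Pool.Agent.MKD.Fam

/-! Module CC39/FamQ. Words equal in the group have equivalent exteriors, relative to the solid
torus (MKD/Fam). -/

set_option autoImplicit false

namespace Pool.Agent.CC39

open Pool.Agent.DT70 Pool.Agent.MK Pool.Agent.MKD Pool.Agent.MKD.WordEq

private theorem wok27_append {m : ℕ} {A B : List ℕ} (hA : WOK m A) (hB : WOK m B) :
    WOK m (A ++ B) := by
  refine ⟨?_, ?_⟩
  · intro a ha
    rcases List.mem_append.1 ha with h | h
    · exact hA.1 a h
    · exact hB.1 a h
  · rw [par_append, hA.2, hB.2]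
    rfl

private theorem wok27_zero (m N : ℕ) : WOK m (List.replicate N 0) := by
  refine ⟨?_, ?_⟩
  · intro a ha
    rw [(List.mem_replicate.1 ha).2]
    omega
  · unfold par
    rw [List.countP_eq_zero.2]
    · rfl
    · intro a ha
      rw [(List.mem_replicate.1 ha).2]
      simp

private theorem wok27_two {m g : ℕ} (hg : g ≤ m) : WOK m [g + 1, g + 1] := by
  refine ⟨?_, ?_⟩
  · intro a ha
    simp only [List.mem_cons, List.not_mem_nil, or_false, or_self] at ha
    omega
  · unfold par
    simp

private theorem wok27_fam (m N : ℕ) (w : List (ℕ × Bool)) :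
    WOK m (List.replicate N 0 ++ conv m w) := wok27_append (wok27_zero m N) (wok_conv m w)

private theorem wok27_rels (m : ℕ) (rels : List (List (ℕ × Bool))) :
    ∀ ρ ∈ rels.map (conv m), WOK m ρ := by
  intro ρ hρ
  obtain ⟨r, -, rfl⟩ := List.mem_map.1 hρ
  exact wok_conv m r

private theorem fits27 (m : ℕ) (rels : List (List (ℕ × Bool))) (w : List (ℕ × Bool)) :
    FitsQ (rels.map (conv m)) 0
      (List.replicate (lenR (rels.map (conv m))) 0 ++ conv m w).length := by
  refine ⟨⟨le_rfl, ?_⟩, by omega⟩
  rw [List.length_append, List.length_replicate]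
  push_cast
  omega

private theorem nz27 (N : ℕ) (c : List ℕ) : nz (List.replicate N 0 ++ c) = nz c := by
  unfold nz
  rw [List.filter_append]
  have : (List.replicate N 0).filter (fun a => decide (a ≠ 0)) = [] := by
    rw [List.filter_eq_nil_iff]
    intro a ha
    rw [(List.mem_replicate.1 ha).2]
    simp
  rw [this, List.nil_append]

theorem fam_feQ (m : ℕ) (rels : List (List (ℕ × Bool))) (w w' : List (ℕ × Bool))
    (h : ∀ (G : Type) [Group G] (y : ℕ → G), (∀ r ∈ rels, MKE.val y r = 1) →
      MKE.val y w = MKE.val y w') :
    FE Tor (K (Phi (fam m rels w))) (K (Phi (fam m rels w'))) := by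
  have hr := wok27_rels m rels
  have key := equiv_of_val (fun w w' => ∀ a b : List (ℕ × Bool),
    CEQ m (rels.map (conv m)) (conv m (a ++ (w ++ b))) (conv m (a ++ (w' ++ b))))
    ⟨fun w a b => CE_reflQ hr _, fun {w w'} h a b => CE_symmQ (h a b),
      fun {w w' w''} h h' a b => CE_transQ (wok_conv m _) (h a b) (h' a b)⟩ ?_ ?_ rels ?_ w w' h
  · have h1 := key [] []
    rw [List.append_nil, List.append_nil, List.nil_append, List.nil_append] at h1
    exact h1 0 0 _ _ (wok27_fam m _ w) (wok27_fam m _ w') (fits27 m rels w) (fits27 m rels w')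
      (nz27 _ _) (nz27 _ _)
  · intro a b w w' h a' b'
    have h1 := h (a' ++ a) (b ++ b')
    simp only [List.append_assoc] at h1 ⊢
    exact h1
  · intro g b a b'
    rw [List.nil_append]
    have hconv : conv m (a ++ ([(g, b), (g, !b)] ++ b')) =
        conv m a ++ (convL m (g, b) ++ (convL m (g, !b) ++ conv m b')) := by
      rw [conv_append]
      simp [conv]
    rw [hconv, conv_append]
    by_cases hg : 1 ≤ g ∧ g ≤ m
    · have ha := wok_conv m a
      have hb := wok_conv m b'
      cases b
      · have e1 : conv m a ++ (convL m (g, false) ++ (convL m (g, !false) ++ conv m b')) =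
            (conv m a ++ [1]) ++ (g + 1) :: (g + 1) :: (1 :: conv m b') := by
          simp [convL, hg]
        have e2 : (conv m a ++ [1]) ++ (1 :: conv m b') =
            conv m a ++ (0 + 1) :: (0 + 1) :: conv m b' := by
          simp
        rw [e1]
        have w2 : WOK m (conv m a ++ (0 + 1) :: (0 + 1) :: conv m b') := by
          have : conv m a ++ (0 + 1) :: (0 + 1) :: conv m b' =
            conv m a ++ ([0 + 1, 0 + 1] ++ conv m b') := by simp
          rw [this]
          exact wok27_append ha (wok27_append (wok27_two (by omega)) hb)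
        refine CE_transQ (c' := (conv m a ++ [1]) ++ (1 :: conv m b')) ?_ (CE_cancelQ hr ?_) ?_
        · rw [e2]; exact w2
        · rw [← e1, ← hconv]
          exact wok_conv m _
        · rw [e2]
          exact CE_cancelQ hr w2
      · have e1 : conv m a ++ (convL m (g, true) ++ (convL m (g, !true) ++ conv m b')) =
            (conv m a ++ [g + 1]) ++ (0 + 1) :: (0 + 1) :: ((g + 1) :: conv m b') := by
          simp [convL, hg]
        have e2 : (conv m a ++ [g + 1]) ++ ((g + 1) :: conv m b') =
            conv m a ++ (g + 1) :: (g + 1) :: conv m b' := by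
          simp
        rw [e1]
        have w2 : WOK m (conv m a ++ (g + 1) :: (g + 1) :: conv m b') := by
          have : conv m a ++ (g + 1) :: (g + 1) :: conv m b' =
            conv m a ++ ([g + 1, g + 1] ++ conv m b') := by simp
          rw [this]
          exact wok27_append ha (wok27_append (wok27_two hg.2) hb)
        refine CE_transQ (c' := (conv m a ++ [g + 1]) ++ ((g + 1) :: conv m b')) ?_
          (CE_cancelQ hr ?_) ?_
        · rw [e2]; exact w2
        · rw [← e1, ← hconv]
          exact wok_conv m _
        · rw [e2]
          exact CE_cancelQ hr w2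
    · have e1 : convL m (g, b) = [] := by
        unfold convL
        rw [if_neg hg]
      have e2 : convL m (g, !b) = [] := by
        unfold convL
        rw [if_neg hg]
      rw [e1, e2, List.nil_append, List.nil_append]
      exact CE_reflQ hr _
  · intro r hrm a b
    rw [List.nil_append, conv_append, conv_append, conv_append]
    exact CE_relatorQ hr (List.mem_map_of_mem hrm) (wok_conv m a).2
      (wok27_append (wok_conv m a) (wok_conv m b))

end Pool.Agent.CC39
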