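import Pool.Agent.CC39.Defs
import Pool.Agent.MKD.Final

/-! Module CC39/FamSpine. The complex of a word without the square with centre (-3, 0, 1, 2, 2) is
a spine.

fam m rels w = XX m (rsOf ..) (strOf 0 ..) with T.lo = 0, T.hi = length + 1 ≥ 1 (see `exists_cells`
in MKD/Cells for T.lo, T.hi and for the bounds of the coordinates: `main` in its proof).
Properties of X = fam m rels w (`fam_closed` in MKD/Fam): closed, finite, dimension ≤ 2, GConn X 0.
`fam_prot`: the cells (x, 0, z, 2, 2) with -4 ≤ x ≤ 0, 0 ≤ z ≤ 2 T.hi are in disc true T (third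
piece), so the ring and the square are in X. All cells have coordinate 4 at most 2. The
neighbours of the square in the directions 1, 3, 4 (even coordinates) are not in X: check all
pieces of XX (Yp: coordinate 4 = 0; disc false r: coordinate 3 = 0; disc true T: the pieces with
c 0 = 0 or c 0 = -4 or c 2 = 2 T.lo, 2 T.hi (even!) or in arc, rect (c 0 ≥ 0) are excluded as c 0 = -3,
c 2 = 1; the third piece has c 1 = 0, c 3 = 2, c 4 = 2).
`fam_spine`: X \ {dd} is closed as dd is not a face of another cell; the 1-skeleton is the same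
(dd has two odd coordinates). -/

set_option autoImplicit false

namespace Pool.Agent.CC39

open Pool.Agent.DT70 Pool.Agent.MK Pool.Agent.MKD

private theorem fs73_top {k : Bool} {T : Str} {c : P} (hc : c ∈ disc k T) : c 4 ≤ 2 := by
  have hnu : nuP k (c 4) (c 3) → c 4 ≤ 2 := by
    unfold nuP
    rintro (⟨-, h⟩ | ⟨-, h⟩) <;> omega
  have hen : en k (c 4) (c 3) → c 4 ≤ 2 := by
    rintro ⟨h, -⟩
    omega
  rcases hc with ⟨_, _, h, _⟩ | ⟨_, _, h, _⟩ | ⟨h, _⟩ | ⟨h, _⟩ | ⟨_, _, h, _⟩ | ⟨_, _, _, h, _⟩ |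
    ⟨s, _, _, h⟩ | ⟨s, _, _, h⟩
  · exact hnu h
  · exact hnu h
  · exact hen h
  · exact hen h
  · exact hnu h
  · exact hnu h
  · exact hnu h
  · exact hen h

theorem XX_top (m : ℕ) (rs : List Str) (T : Str) : ∀ q ∈ XX m rs T, q 4 ≤ 2 := by
  rintro q ((⟨_, h, _⟩ | ⟨r, _, h⟩) | h)
  · omega
  · exact fs73_top h
  · exact fs73_top h

private theorem fs73_third {T : Str} {c : P} (h0 : T.lo ≤ 0) (h1 : 1 ≤ T.hi) (c1 : c 1 = 0)
    (c3 : c 3 = 2) (c4 : c 4 = 2) (a : -4 ≤ c 0) (b : c 0 ≤ 0) (d : 0 ≤ c 2) (f : c 2 ≤ 2) :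
    c ∈ disc true T := by
  refine Or.inr (Or.inr (Or.inl ⟨⟨c4, ?_⟩, c1, ?_, b, by omega, by omega⟩))
  · simpa using c3
  · simpa [rt] using a

theorem XX_ring (m : ℕ) (rs : List Str) (T : Str) (h0 : T.lo ≤ 0) (h1 : 1 ≤ T.hi) :
    Q ⊆ XX m rs T ∧ pt (-3) 0 1 2 2 ∈ XX m rs T := by
  constructor
  · rintro c ⟨h1', h3, h4, a, b, d, f, -⟩
    exact Or.inr (fs73_third h0 h1 h1' h3 h4 a (by omega) d f)
  · refine Or.inr (fs73_third h0 h1 ?_ ?_ ?_ ?_ ?_ ?_ ?_) <;> simp [pt]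

/-- A cell with `c 0 = -3`, `c 2 = 1`, `c 3 ≠ 0` or so is in the third piece. -/
private theorem fs73_mem {m : ℕ} {rs : List Str} {T : Str} {c : P} (hc : c ∈ XX m rs T)
    (c0 : c 0 = -3) (c2 : c 2 = 1) (c3 : 1 ≤ c 3) : c 1 = 0 ∧ c 3 = 2 ∧ c 4 = 2 := by
  rcases hc with (⟨_, _, h, _⟩ | ⟨r, _, h⟩) | h
  · omega
  · exfalso
    have hnu : nuP false (c 4) (c 3) → False := by
      unfold nuP
      simp
      omega
    have hen : en false (c 4) (c 3) → False := by
      unfold en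
      simp
      omega
    rcases h with ⟨_, _, h, _⟩ | ⟨_, _, h, _⟩ | ⟨h, _⟩ | ⟨h, _⟩ | ⟨_, _, h, _⟩ | ⟨_, _, _, h, _⟩ |
      ⟨s, _, _, h⟩ | ⟨s, _, _, h⟩
    · exact hnu h
    · exact hnu h
    · exact hen h
    · exact hen h
    · exact hnu h
    · exact hnu h
    · exact hnu h
    · exact hen h
  · rcases h with ⟨h, _⟩ | ⟨h, _⟩ | ⟨h, h1, _⟩ | ⟨_, h, _⟩ | ⟨h, _⟩ | ⟨_, _, _, _, h⟩ |
      ⟨s, _, h, _⟩ | ⟨s, _, h, _⟩
    · omega
    · omega
    · unfold en at h
      simp at h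
      omega
    · omega
    · simp [rt] at h
      omega
    · omega
    · unfold arc at h
      omega
    · unfold rect at h
      omega

theorem XX_free (m : ℕ) (rs : List Str) (T : Str) (i : Fin 5) (hi : Even (pt (-3) 0 1 2 2 i)) :
    pt (-3) 0 1 2 2 + e i ∉ XX m rs T ∧ pt (-3) 0 1 2 2 - e i ∉ XX m rs T := by
  have e0 : pt (-3) 0 1 2 2 0 = -3 := rfl
  have e1 : pt (-3) 0 1 2 2 1 = 0 := rfl
  have e2 : pt (-3) 0 1 2 2 2 = 1 := rfl
  have e3 : pt (-3) 0 1 2 2 3 = 2 := rfl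
  have e4 : pt (-3) 0 1 2 2 4 = 2 := rfl
  constructor
  · intro hc
    have key := fs73_mem hc
    fin_cases i
    · exact absurd hi (by change ¬ Even (-3 : ℤ); decide)
    · simp [e, e0, e1, e2, e3, e4] at key
    · exact absurd hi (by change ¬ Even (1 : ℤ); decide)
    · simp [e, e0, e1, e2, e3, e4] at key
    · simp [e, e0, e1, e2, e3, e4] at key
  · intro hc
    have key := fs73_mem hc
    fin_cases i
    · exact absurd hi (by change ¬ Even (-3 : ℤ); decide)
    · simp [e, e0, e1, e2, e3, e4] at key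
    · exact absurd hi (by change ¬ Even (1 : ℤ); decide)
    · simp [e, e0, e1, e2, e3, e4] at key
    · simp [e, e0, e1, e2, e3, e4] at key

private theorem fs73_dirs (i : Fin 5) : dirs (pt (-3) 0 1 2 2) ≠ {i} := by
  intro h
  have h0 : (0 : Fin 5) ∈ dirs (pt (-3) 0 1 2 2) := by
    simp only [dirs, Finset.mem_filter, Finset.mem_univ, true_and]
    change Odd (-3 : ℤ)
    decide
  have h2 : (2 : Fin 5) ∈ dirs (pt (-3) 0 1 2 2) := by
    simp only [dirs, Finset.mem_filter, Finset.mem_univ, true_and]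
    change Odd (1 : ℤ)
    decide
  rw [h, Finset.mem_singleton] at h0 h2
  rw [← h0] at h2
  exact absurd h2 (by decide)

theorem fam_spine (m : ℕ) (rels : List (List (ℕ × Bool))) (w : List (ℕ × Bool)) :
    Spine (fam m rels w \ {pt (-3) 0 1 2 2}) := by
  obtain ⟨hcl, hfin, hdim, hconn, -⟩ := fam_closed m rels w
  obtain ⟨cells, -, hrep⟩ := exists_cells m rels
  have hfree := XX_free m (rsOf 1 (rels.map (conv m)))
    (strOf 0 (List.replicate (lenR (rels.map (conv m))) 0 ++ conv m w))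
  have hring := XX_ring m (rsOf 1 (rels.map (conv m)))
    (strOf 0 (List.replicate (lenR (rels.map (conv m))) 0 ++ conv m w)) (le_refl (0 : ℤ)) (by
      simp only [strOf]
      omega)
  refine ⟨hfin.subset Set.sdiff_subset, ?_, fun q hq => hdim q hq.1, ?_, ?_,
    fun q hq => XX_top m _ _ q hq.1, ?_⟩
  · rintro q ⟨hq, hne⟩ i hi
    obtain ⟨ha, hb⟩ := hcl q hq i hi
    refine ⟨⟨ha, fun h => ?_⟩, ⟨hb, fun h => ?_⟩⟩
    · rw [Set.mem_singleton_iff] at h
      have hq' : q = pt (-3) 0 1 2 2 - e i := by rw [← h]; abel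
      refine (hfree i ?_).2 (hq' ▸ hq)
      rw [← h]
      simpa [e] using hi.add_one
    · rw [Set.mem_singleton_iff] at h
      have hq' : q = pt (-3) 0 1 2 2 + e i := by rw [← h]; abel
      refine (hfree i ?_).1 (hq' ▸ hq)
      rw [← h]
      simpa [e] using hi.sub_odd odd_one
  · obtain ⟨h1, h2, h3⟩ := hconn
    refine ⟨⟨h1, fun h => ?_⟩, h2, fun v hv hdv => ?_⟩
    · rw [Set.mem_singleton_iff] at h
      exact absurd (congrFun h 0) (by change ¬ ((0 : ℤ) = -3); decide)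
    · refine Relation.ReflTransGen.mono ?_ _ _ (h3 v hv.1 hdv)
      rintro x y ⟨q, hq, i, hqi, hxy⟩
      refine ⟨q, ⟨hq, fun h => ?_⟩, i, hqi, hxy⟩
      rw [Set.mem_singleton_iff] at h
      exact fs73_dirs i (h ▸ hqi)
  · intro c hc
    refine ⟨hring.1 hc, fun h => ?_⟩
    rw [Set.mem_singleton_iff] at h
    refine hc.2.2.2.2.2.2.2 ⟨?_, ?_⟩
    · rw [h]; rfl
    · rw [h]; rfl
  · intro q hq i
    have := (hrep w).2 q hq.1 i
    fin_cases i <;> simp [shf, c₀] at this ⊢ <;> omega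

end Pool.Agent.CC39
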