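import Pool.Agent.CC39.Defs
import Pool.Agent.MKD.Final

/-! Module CC39/FamTriv. For the empty word the ring is contractible.

T = strOf 0 (replicate N 0 ++ []) has T.lo = 0, h := T.hi = N + 1 ≥ 1, no crossings, T.pos = false
everywhere (T.at_ false z for all 0 ≤ z ≤ 2 h). The complex contains the surface of a box
 S = {c | c 1 = 0, -4 ≤ c 0 ≤ 0, 0 ≤ c 2 ≤ 2 h, (c 3, c 4) on the path (0,0), (1,0), (2,0), (2,1), (2,2), and
 [c 0 = -4 or c 0 = 0 or c 2 = 0 or c 2 = 2 h or c 4 = 2 or (c 3 = 0)]}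
(base of Yp for c 3 = 0 = c 4; disc true T for the other cells). S without the square
dd = (-3, 0, 1, 2, 2) collapses (Col, MKD/Geo; each step is a SlabStep: a set of cells closed under the
exchange of an even coordinate c l and the odd coordinate c l + ε) to the vertex (-4, 0, 0, 0, 0):
 1. remove c 4 = 2, c 2 = 1, c 0 ∈ {-2, -1}   (l = 0, ε = 1)
 2. remove c 4 = 2, 2 ≤ c 2 ≤ 2 h - 1, -3 ≤ c 0 ≤ -1   (l = 2, ε = 1)
 3. remove c 4 ∈ {1, 2}   (l = 4, ε = -1)
 4. remove c 3 ∈ {1, 2}   (l = 3, ε = -1)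
 5. remove c 0 ≥ -3   (l = 0, ε = -1)
 6. remove c 2 ≥ 1   (l = 2, ε = -1).
`cob_of_col` (MKD/CobCol) gives Cob (S \ {dd}) Λ for every flat labelling of the complex without
dd, and hol Λ = 1 follows: the four edges of the ring are in S \ {dd}. -/

set_option autoImplicit false
set_option linter.unusedSimpArgs false

namespace Pool.Agent.CC39

open Pool.Agent.DT70 Pool.Agent.MK Pool.Agent.MKD

/-- The surface of the box, in coordinates. -/
private def Sf (h : ℤ) (a b z v u : ℤ) : Prop :=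
  b = 0 ∧ -4 ≤ a ∧ a ≤ 0 ∧ 0 ≤ z ∧ z ≤ 2 * h ∧
    ((u = 0 ∧ 0 ≤ v ∧ v ≤ 2) ∨ (v = 2 ∧ 0 ≤ u ∧ u ≤ 2)) ∧
    (a = -4 ∨ a = 0 ∨ z = 0 ∨ z = 2 * h ∨ u = 2 ∨ v = 0)

private def R0 (h : ℤ) : Set P :=
  {c | Sf h (c 0) (c 1) (c 2) (c 3) (c 4) ∧ ¬ (c 4 = 2 ∧ c 2 = 1 ∧ c 0 = -3)}

private def R1 (h : ℤ) : Set P :=
  {c | Sf h (c 0) (c 1) (c 2) (c 3) (c 4) ∧ ¬ (c 4 = 2 ∧ c 2 = 1 ∧ -3 ≤ c 0 ∧ c 0 ≤ -1)}

private def R2 (h : ℤ) : Set P :=
  {c | Sf h (c 0) (c 1) (c 2) (c 3) (c 4) ∧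
    ¬ (c 4 = 2 ∧ 1 ≤ c 2 ∧ c 2 ≤ 2 * h - 1 ∧ -3 ≤ c 0 ∧ c 0 ≤ -1)}

private def R3 (h : ℤ) : Set P :=
  {c | Sf h (c 0) (c 1) (c 2) (c 3) (c 4) ∧ c 4 = 0}

private def R4 (h : ℤ) : Set P :=
  {c | c 1 = 0 ∧ c 3 = 0 ∧ c 4 = 0 ∧ -4 ≤ c 0 ∧ c 0 ≤ 0 ∧ 0 ≤ c 2 ∧ c 2 ≤ 2 * h}

private def R5 (h : ℤ) : Set P :=
  {c | c 1 = 0 ∧ c 3 = 0 ∧ c 4 = 0 ∧ c 0 = -4 ∧ 0 ≤ c 2 ∧ c 2 ≤ 2 * h}

private def R6 : Set P :=
  {c | c 1 = 0 ∧ c 3 = 0 ∧ c 4 = 0 ∧ c 0 = -4 ∧ c 2 = 0}

private theorem sub_e (c : P) (i : Fin 5) (j : Fin 5) : (c - e i) j = c j - if j = i then 1 else 0 := by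
  simp [e]

private theorem add_e (c : P) (i : Fin 5) (j : Fin 5) : (c + e i) j = c j + if j = i then 1 else 0 := by
  simp [e]

private theorem closed_of {X : Set P}
    (h : ∀ c ∈ X, ∀ i : Fin 5, c i % 2 = 1 → c + e i ∈ X ∧ c - e i ∈ X) : Closed X :=
  fun c hc i hi => h c hc i (Int.odd_iff.1 hi)

private theorem fin_box (h : ℤ) (X : Set P) (hX : ∀ c ∈ X, ∀ i, -4 ≤ c i ∧ c i ≤ 2 * |h| + 4) :
    X.Finite := by
  refine Set.Finite.subset (Set.finite_Icc (fun _ => -4 : P) (fun _ => 2 * |h| + 4)) ?_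
  intro c hc
  exact ⟨fun i => (hX c hc i).1, fun i => (hX c hc i).2⟩


private theorem c0 (h : ℤ) : Closed (R0 h) := by
  refine closed_of fun c hc i hi => ?_
  obtain ⟨⟨h1, h2, h3, h4, h5, h6, h7⟩, h8⟩ := hc
  fin_cases i <;> simp only [Fin.zero_eta, Fin.mk_one, Fin.reduceFinMk] at hi <;>
    simp only [R0, R1, R2, R3, R4, R5, R6, Sf, Set.mem_ofPred_eq, add_e, sub_e, Fin.zero_eta,
      Fin.mk_one, Fin.reduceFinMk, Fin.isValue, Fin.reduceEq, if_true, if_false, add_zero,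
      sub_zero] <;>
    constructor <;> omega

private theorem c1 (h : ℤ) : Closed (R1 h) := by
  refine closed_of fun c hc i hi => ?_
  obtain ⟨⟨h1, h2, h3, h4, h5, h6, h7⟩, h8⟩ := hc
  fin_cases i <;> simp only [Fin.zero_eta, Fin.mk_one, Fin.reduceFinMk] at hi <;>
    simp only [R0, R1, R2, R3, R4, R5, R6, Sf, Set.mem_ofPred_eq, add_e, sub_e, Fin.zero_eta,
      Fin.mk_one, Fin.reduceFinMk, Fin.isValue, Fin.reduceEq, if_true, if_false, add_zero,
      sub_zero] <;>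
    constructor <;> omega

private theorem c2 (h : ℤ) : Closed (R2 h) := by
  refine closed_of fun c hc i hi => ?_
  obtain ⟨⟨h1, h2, h3, h4, h5, h6, h7⟩, h8⟩ := hc
  fin_cases i <;> simp only [Fin.zero_eta, Fin.mk_one, Fin.reduceFinMk] at hi <;>
    simp only [R0, R1, R2, R3, R4, R5, R6, Sf, Set.mem_ofPred_eq, add_e, sub_e, Fin.zero_eta,
      Fin.mk_one, Fin.reduceFinMk, Fin.isValue, Fin.reduceEq, if_true, if_false, add_zero,
      sub_zero] <;>
    constructor <;> omega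

private theorem c3 (h : ℤ) : Closed (R3 h) := by
  refine closed_of fun c hc i hi => ?_
  obtain ⟨⟨h1, h2, h3, h4, h5, h6, h7⟩, h8⟩ := hc
  fin_cases i <;> simp only [Fin.zero_eta, Fin.mk_one, Fin.reduceFinMk] at hi <;>
    simp only [R0, R1, R2, R3, R4, R5, R6, Sf, Set.mem_ofPred_eq, add_e, sub_e, Fin.zero_eta,
      Fin.mk_one, Fin.reduceFinMk, Fin.isValue, Fin.reduceEq, if_true, if_false, add_zero,
      sub_zero] <;>
    constructor <;> omega

private theorem c4 (h : ℤ) : Closed (R4 h) := by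
  refine closed_of fun c hc i hi => ?_
  obtain ⟨h1, h2, h3, h4, h5, h6, h7⟩ := hc
  fin_cases i <;> simp only [Fin.zero_eta, Fin.mk_one, Fin.reduceFinMk] at hi <;>
    simp only [R0, R1, R2, R3, R4, R5, R6, Sf, Set.mem_ofPred_eq, add_e, sub_e, Fin.zero_eta,
      Fin.mk_one, Fin.reduceFinMk, Fin.isValue, Fin.reduceEq, if_true, if_false, add_zero,
      sub_zero] <;>
    constructor <;> omega

private theorem c5 (h : ℤ) : Closed (R5 h) := by
  refine closed_of fun c hc i hi => ?_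
  obtain ⟨h1, h2, h3, h4, h5, h6⟩ := hc
  fin_cases i <;> simp only [Fin.zero_eta, Fin.mk_one, Fin.reduceFinMk] at hi <;>
    simp only [R0, R1, R2, R3, R4, R5, R6, Sf, Set.mem_ofPred_eq, add_e, sub_e, Fin.zero_eta,
      Fin.mk_one, Fin.reduceFinMk, Fin.isValue, Fin.reduceEq, if_true, if_false, add_zero,
      sub_zero] <;>
    constructor <;> omega

private theorem c6 : Closed (R6) := by
  refine closed_of fun c hc i hi => ?_
  obtain ⟨h1, h2, h3, h4, h5⟩ := hc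
  fin_cases i <;> simp only [Fin.zero_eta, Fin.mk_one, Fin.reduceFinMk] at hi <;>
    simp only [R0, R1, R2, R3, R4, R5, R6, Sf, Set.mem_ofPred_eq, add_e, sub_e, Fin.zero_eta,
      Fin.mk_one, Fin.reduceFinMk, Fin.isValue, Fin.reduceEq, if_true, if_false, add_zero,
      sub_zero] <;>
    constructor <;> omega

private theorem smul_e (c : P) (ε : ℤ) (i j : Fin 5) :
    (c + ε • e i) j = c j + if j = i then ε else 0 := by
  simp [e]

private theorem smul_e' (c : P) (ε : ℤ) (i j : Fin 5) :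
    (c - ε • e i) j = c j - if j = i then ε else 0 := by
  simp [e]

/-- A slab step from conditions on the coordinates. -/
private theorem step_of {h : ℤ} {R R' : Set P} (hR : Closed R) (hR' : Closed R') (hs : R' ⊆ R)
    (hb : R ⊆ R0 h) (l : Fin 5) (ε : ℤ) (hε : ε = 1 ∨ ε = -1)
    (ht : ∀ c ∈ R \ R', (c l % 2 = 0 → c + ε • e l ∈ R \ R') ∧
      (c l % 2 = 1 → c - ε • e l ∈ R \ R')) : SlabStep R R' := by
  refine ⟨hR, hR', hs, Set.Finite.subset (fin_box h R fun c hc i => ?_) Set.sdiff_subset, l, ε, hε,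
    fun c hc => ⟨fun he => (ht c hc).1 (Int.even_iff.1 he), fun ho => (ht c hc).2 (Int.odd_iff.1 ho)⟩⟩
  obtain ⟨⟨h1, h2, h3, h4, h5, h6, h7⟩, h8⟩ := hb hc
  have := abs_nonneg h
  have := le_abs_self h
  fin_cases i <;> simp only [Fin.zero_eta, Fin.mk_one, Fin.reduceFinMk] <;> omega

private theorem s0 {h : ℤ} (hh : 1 ≤ h) : SlabStep (R0 h) (R1 h) := by
  refine step_of (h := h) (c0 h) (c1 h) ?_ ?_ 0 (1) (by norm_num) ?_
  · intro c hc
    simp only [R0, R1, R2, R3, R4, R5, R6, Sf, Set.mem_ofPred_eq] at hc ⊢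
    omega
  · intro c hc
    simp only [R0, R1, R2, R3, R4, R5, R6, Sf, Set.mem_ofPred_eq] at hc ⊢
    omega
  · intro c hc
    simp only [R0, R1, R2, R3, R4, R5, R6, Sf, Set.mem_sdiff, Set.mem_ofPred_eq, smul_e, smul_e',
      Fin.isValue, Fin.reduceEq, if_true, if_false, add_zero, sub_zero] at hc ⊢
    constructor <;> intro hp <;> omega

private theorem s1 {h : ℤ} (hh : 1 ≤ h) : SlabStep (R1 h) (R2 h) := by
  refine step_of (h := h) (c1 h) (c2 h) ?_ ?_ 2 (1) (by norm_num) ?_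
  · intro c hc
    simp only [R0, R1, R2, R3, R4, R5, R6, Sf, Set.mem_ofPred_eq] at hc ⊢
    omega
  · intro c hc
    simp only [R0, R1, R2, R3, R4, R5, R6, Sf, Set.mem_ofPred_eq] at hc ⊢
    omega
  · intro c hc
    simp only [R0, R1, R2, R3, R4, R5, R6, Sf, Set.mem_sdiff, Set.mem_ofPred_eq, smul_e, smul_e',
      Fin.isValue, Fin.reduceEq, if_true, if_false, add_zero, sub_zero] at hc ⊢
    constructor <;> intro hp <;> omega

private theorem s2 {h : ℤ} (hh : 1 ≤ h) : SlabStep (R2 h) (R3 h) := by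
  refine step_of (h := h) (c2 h) (c3 h) ?_ ?_ 4 (-1) (by norm_num) ?_
  · intro c hc
    simp only [R0, R1, R2, R3, R4, R5, R6, Sf, Set.mem_ofPred_eq] at hc ⊢
    omega
  · intro c hc
    simp only [R0, R1, R2, R3, R4, R5, R6, Sf, Set.mem_ofPred_eq] at hc ⊢
    omega
  · intro c hc
    simp only [R0, R1, R2, R3, R4, R5, R6, Sf, Set.mem_sdiff, Set.mem_ofPred_eq, smul_e, smul_e',
      Fin.isValue, Fin.reduceEq, if_true, if_false, add_zero, sub_zero] at hc ⊢
    constructor <;> intro hp <;> omega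

private theorem s3 {h : ℤ} (hh : 1 ≤ h) : SlabStep (R3 h) (R4 h) := by
  refine step_of (h := h) (c3 h) (c4 h) ?_ ?_ 3 (-1) (by norm_num) ?_
  · intro c hc
    simp only [R0, R1, R2, R3, R4, R5, R6, Sf, Set.mem_ofPred_eq] at hc ⊢
    omega
  · intro c hc
    simp only [R0, R1, R2, R3, R4, R5, R6, Sf, Set.mem_ofPred_eq] at hc ⊢
    omega
  · intro c hc
    simp only [R0, R1, R2, R3, R4, R5, R6, Sf, Set.mem_sdiff, Set.mem_ofPred_eq, smul_e, smul_e',
      Fin.isValue, Fin.reduceEq, if_true, if_false, add_zero, sub_zero] at hc ⊢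
    constructor <;> intro hp <;> omega

private theorem s4 {h : ℤ} (_hh : 1 ≤ h) : SlabStep (R4 h) (R5 h) := by
  refine step_of (h := h) (c4 h) (c5 h) ?_ ?_ 0 (-1) (by norm_num) ?_
  · intro c hc
    simp only [R0, R1, R2, R3, R4, R5, R6, Sf, Set.mem_ofPred_eq] at hc ⊢
    omega
  · intro c hc
    simp only [R0, R1, R2, R3, R4, R5, R6, Sf, Set.mem_ofPred_eq] at hc ⊢
    omega
  · intro c hc
    simp only [R0, R1, R2, R3, R4, R5, R6, Sf, Set.mem_sdiff, Set.mem_ofPred_eq, smul_e, smul_e',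
      Fin.isValue, Fin.reduceEq, if_true, if_false, add_zero, sub_zero] at hc ⊢
    constructor <;> intro hp <;> omega

private theorem s5 {h : ℤ} (_hh : 1 ≤ h) : SlabStep (R5 h) (R6) := by
  refine step_of (h := h) (c5 h) (c6) ?_ ?_ 2 (-1) (by norm_num) ?_
  · intro c hc
    simp only [R0, R1, R2, R3, R4, R5, R6, Sf, Set.mem_ofPred_eq] at hc ⊢
    omega
  · intro c hc
    simp only [R0, R1, R2, R3, R4, R5, R6, Sf, Set.mem_ofPred_eq] at hc ⊢
    omega
  · intro c hc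
    simp only [R0, R1, R2, R3, R4, R5, R6, Sf, Set.mem_sdiff, Set.mem_ofPred_eq, smul_e, smul_e',
      Fin.isValue, Fin.reduceEq, if_true, if_false, add_zero, sub_zero] at hc ⊢
    constructor <;> intro hp <;> omega

private theorem cob_R0 {h : ℤ} (hh : 1 ≤ h) {Γ : Type} [Group Γ] (Λ : P → Γ)
    (hF : Flat (R0 h) Λ) : Cob (R0 h) Λ := by
  refine cob_of_col (C := R6) ?_ Λ hF ?_
  · exact Col.step (s0 hh) (Col.step (s1 hh) (Col.step (s2 hh) (Col.step (s3 hh)
      (Col.step (s4 hh) (Col.one (s5 hh))))))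
  · refine ⟨fun _ => 1, fun q hq i hi => ?_⟩
    exfalso
    have h1 : i ∈ dirs q := by rw [hi]; simp
    simp only [dirs, Finset.mem_filter, Finset.mem_univ, true_and, Int.odd_iff] at h1
    obtain ⟨a1, a2, a3, a4, a5⟩ := hq
    fin_cases i <;> simp only [Fin.zero_eta, Fin.mk_one, Fin.reduceFinMk] at h1 <;> omega

private theorem at_all {T : Str} {n : ℤ} (hlo : T.lo = 0) (hhi : T.hi = n) (hn : 1 ≤ n)
    (hp : ∀ j, T.pos j = false) {z : ℤ} (h0 : 0 ≤ z) (h1 : z ≤ 2 * n) : T.at_ false z := by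
  by_cases hz : z = 2 * n
  · right
    refine ⟨by omega, by omega, by omega, hp _⟩
  · left
    refine ⟨by omega, by omega, hp _⟩

private theorem R0_subset (m : ℕ) (rels : List (List (ℕ × Bool))) :
    R0 ((lenR (rels.map (conv m)) : ℤ) + 1) ⊆ fam m rels [] \ {pt (-3) 0 1 2 2} := by
  set N := lenR (rels.map (conv m)) with hN
  set T := strOf 0 (List.replicate N 0 ++ conv m []) with hT
  have hW : List.replicate N 0 ++ conv m [] = List.replicate N 0 := by simp [conv]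
  have hlo : T.lo = 0 := rfl
  have hhi : T.hi = (N : ℤ) + 1 := by
    rw [hT, hW]
    simp [strOf]
  have hp : ∀ j, T.pos j = false := by
    intro j
    rw [hT, hW]
    simp only [strOf, par, List.take_replicate]
    rw [decide_eq_false_iff_not, List.countP_eq_zero.2]
    · omega
    · intro a ha
      rw [(List.mem_replicate.1 ha).2]
      simp
  intro c hc
  obtain ⟨⟨h1, h2, h3, h4, h5, h6, h7⟩, h8⟩ := hc
  refine ⟨?_, ?_⟩
  · change c ∈ XX m (rsOf 1 (rels.map (conv m))) T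
    have hat : T.at_ false (c 2) := at_all hlo hhi (by omega) hp h4 h5
    have hr : rt true = -4 := rfl
    have hnu : nuP true (c 4) (c 3) := by
      left
      refine ⟨rfl, ?_⟩
      omega
    by_cases hb : c 3 = 0 ∧ c 4 = 0
    · left
      left
      refine ⟨Or.inl ⟨h1, h2, by omega⟩, hb.2, hb.1, ?_, ?_⟩
      · change 2 * T.lo ≤ c 2
        omega
      · change c 2 ≤ 2 * T.hi
        omega
    · right
      rcases h7 with h | h | h | h | h | h
      · right; right; right; right; left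
        exact ⟨h, h1, hnu, by omega, by omega⟩
      · left
        exact ⟨h, h1, hnu, hat⟩
      · right; right; right; right; right; left
        exact ⟨h1, by omega, h3, hnu, Or.inl (by omega)⟩
      · right; right; right; right; right; left
        exact ⟨h1, by omega, h3, hnu, Or.inr (by omega)⟩
      · right; right; left
        refine ⟨⟨h, ?_⟩, h1, by omega, h3, by omega, by omega⟩
        change c 3 = 2
        omega
      · exfalso
        omega
  · intro h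
    rw [Set.mem_singleton_iff] at h
    rw [h] at h8
    simp [pt] at h8

theorem fam_trivial (m : ℕ) (rels : List (List (ℕ × Bool))) :
    Trivial (fam m rels [] \ {pt (-3) 0 1 2 2}) := by
  intro Γ _ Λ hF
  have hsub := R0_subset m rels
  have hF' : Flat (R0 ((lenR (rels.map (conv m)) : ℤ) + 1)) Λ := fun q hq => hF q (hsub hq)
  obtain ⟨φ, hφ⟩ := cob_R0 (by omega) Λ hF'
  set h : ℤ := (lenR (rels.map (conv m)) : ℤ) + 1 with hh
  have hh1 : 1 ≤ h := by omega
  have key : ∀ (a z : ℤ) (i : Fin 5), pt a 0 z 2 2 ∈ R0 h → dirs (pt a 0 z 2 2) = {i} →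
      Λ (pt a 0 z 2 2) = (φ (pt a 0 z 2 2 - e i))⁻¹ * φ (pt a 0 z 2 2 + e i) := fun a z i h1 h2 =>
    hφ _ h1 i h2
  have mem : ∀ a z : ℤ, -4 ≤ a → a ≤ 0 → 0 ≤ z → z ≤ 2 → ¬ (z = 1 ∧ a = -3) →
      pt a 0 z 2 2 ∈ R0 h := by
    intro a z h1 h2 h3 h4 h5
    simp only [R0, Sf, Set.mem_ofPred_eq, pt]
    simp
    omega
  have d1 : dirs (pt (-4) 0 1 2 2) = {2} := by decide
  have d2 : dirs (pt (-3) 0 2 2 2) = {0} := by decide
  have d3 : dirs (pt (-2) 0 1 2 2) = {2} := by decide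
  have d4 : dirs (pt (-3) 0 0 2 2) = {0} := by decide
  rw [hol, key _ _ _ (mem _ _ (by norm_num) (by norm_num) (by norm_num) (by norm_num)
      (by norm_num)) d1,
    key _ _ _ (mem _ _ (by norm_num) (by norm_num) (by norm_num) (by norm_num)
      (by norm_num)) d2,
    key _ _ _ (mem _ _ (by norm_num) (by norm_num) (by norm_num) (by norm_num)
      (by norm_num)) d3,
    key _ _ _ (mem _ _ (by norm_num) (by norm_num) (by norm_num) (by norm_num)
      (by norm_num)) d4]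
  have e1 : pt (-4) 0 1 2 2 - e 2 = pt (-4) 0 0 2 2 := by decide
  have e2 : pt (-4) 0 1 2 2 + e 2 = pt (-4) 0 2 2 2 := by decide
  have e3 : pt (-3) 0 2 2 2 - e 0 = pt (-4) 0 2 2 2 := by decide
  have e4 : pt (-3) 0 2 2 2 + e 0 = pt (-2) 0 2 2 2 := by decide
  have e5 : pt (-2) 0 1 2 2 - e 2 = pt (-2) 0 0 2 2 := by decide
  have e6 : pt (-2) 0 1 2 2 + e 2 = pt (-2) 0 2 2 2 := by decide
  have e7 : pt (-3) 0 0 2 2 - e 0 = pt (-4) 0 0 2 2 := by decide
  have e8 : pt (-3) 0 0 2 2 + e 0 = pt (-2) 0 0 2 2 := by decide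
  rw [e1, e2, e3, e4, e5, e6, e7, e8]
  group

end Pool.Agent.CC39
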