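import Pool.Agent.DT70.Conn

/-! Module CC39/GlueB. Replace the core `Co` of a solid torus `T ⊆ N` by `B`: connectedness.

Put S = Rz (N \ Co), D = Rz Co, W = Rz ((T \ Co) ∪ B); all closed (`isClosed_Rz`), Rz N = S ∪ D
connected, W connected, S ∩ D ⊆ W. -/

set_option autoImplicit false

namespace Pool.Agent.CC39

open Pool.Agent.DT70

private theorem conn_core {S D W : Set E} (hS : IsClosed S) (hD : IsClosed D) (_hW : IsClosed W)
    (hDne : D.Nonempty) (hSD : IsConnected (S ∪ D)) (hWc : IsConnected W)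
    (hsub : S ∩ D ⊆ W) : IsPreconnected (S ∪ W) := by
  have key : ∀ U V : Set E, IsClosed U → IsClosed V → S ∪ W ⊆ U ∪ V →
      ((S ∪ W) ∩ V).Nonempty → ¬ ((S ∪ W) ∩ (U ∩ V)).Nonempty → ¬ (W ∩ V).Nonempty →
      False := by
    intro U V hU hV hcov hV' hne hWV
    have hSV : (S ∩ V).Nonempty := by
      obtain ⟨x, hx | hx, hxV⟩ := hV'
      · exact ⟨x, hx, hxV⟩
      · exact absurd ⟨x, hx, hxV⟩ hWV
    have h1 := isPreconnected_closed_iff.1 hSD.isPreconnected ((S ∩ U) ∪ D) (S ∩ V)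
      ((hS.inter hU).union hD) (hS.inter hV) ?_ ?_ ?_
    · obtain ⟨x, -, hx1, hx2⟩ := h1
      rcases hx1 with hx1 | hx1
      · exact hne ⟨x, Or.inl hx1.1, hx1.2, hx2.2⟩
      · exact hWV ⟨x, hsub ⟨hx2.1, hx1⟩, hx2.2⟩
    · rintro x (hx | hx)
      · rcases hcov (Or.inl hx) with hu | hv
        · exact Or.inl (Or.inl ⟨hx, hu⟩)
        · exact Or.inr ⟨hx, hv⟩
      · exact Or.inl (Or.inr hx)
    · obtain ⟨x, hx⟩ := hDne
      exact ⟨x, Or.inr hx, Or.inr hx⟩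
    · obtain ⟨x, hx, hxV⟩ := hSV
      exact ⟨x, Or.inl hx, ⟨hx, hxV⟩⟩
  rw [isPreconnected_closed_iff]
  intro U V hU hV hcov hU' hV'
  by_contra hne
  by_cases hWV : (W ∩ V).Nonempty
  · by_cases hWU : (W ∩ U).Nonempty
    · obtain ⟨x, hx, hx'⟩ := isPreconnected_closed_iff.1 hWc.isPreconnected U V hU hV
        (fun x hx => hcov (Or.inr hx)) hWU hWV
      exact hne ⟨x, Or.inr hx, hx'⟩
    · refine key V U hV hU (fun x hx => (hcov hx).symm) hU' ?_ hWU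
      rintro ⟨x, hx, hx1, hx2⟩
      exact hne ⟨x, hx, hx2, hx1⟩
  · exact key U V hU hV hcov hV' hne hWV

theorem glueB {N T Co B : Set (Finset ℕ)} (hTN : T ⊆ N) (hCT : Co ⊆ T) (hNf : N.Finite)
    (hBf : B.Finite) (hne : ∃ s ∈ Co, s.Nonempty)
    (h1 : ∀ s ∈ Co, ∀ v ∈ s, ∀ G ∈ N, v ∈ G → G ∈ T)
    (hN : IsConnected (Rz N)) (hW : IsConnected (Rz ((T \ Co) ∪ B))) :
    IsConnected (Rz ((N \ Co) ∪ B)) := by
  have hCN : Co ⊆ N := hCT.trans hTN
  have hTf : T.Finite := hNf.subset hTN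
  have e1 : (N \ Co) ∪ Co = N := Set.sdiff_union_of_subset hCN
  have e2 : (N \ Co) ∪ B = (N \ Co) ∪ ((T \ Co) ∪ B) := by
    rw [← Set.union_assoc, Set.union_eq_self_of_subset_right (Set.sdiff_subset_sdiff_left hTN)]
  have hcl1 : IsClosed (Rz (N \ Co)) := isClosed_Rz (hNf.subset Set.sdiff_subset)
  have hcl2 : IsClosed (Rz Co) := isClosed_Rz (hNf.subset hCN)
  have hcl3 : IsClosed (Rz ((T \ Co) ∪ B)) :=
    isClosed_Rz ((hTf.subset Set.sdiff_subset).union hBf)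
  have hDne : (Rz Co).Nonempty := by
    obtain ⟨s, hs, hsn⟩ := hne
    obtain ⟨x, hx⟩ := sx_nonempty hsn
    exact ⟨x, s, hs, hx⟩
  have hSD : IsConnected (Rz (N \ Co) ∪ Rz Co) := by
    rw [← Rz_union, e1]
    exact hN
  have hsub : Rz (N \ Co) ∩ Rz Co ⊆ Rz ((T \ Co) ∪ B) := by
    rintro x ⟨⟨s, hs, hxs⟩, ⟨c, hc, hxc⟩⟩
    have hx : x ∈ sx (s ∩ c) := sx_inter hxs hxc
    have hv : ∃ v ∈ s ∩ c, x v ≠ 0 := by
      by_contra hcon
      push Not at hcon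
      have h0 := hx.2.2
      rw [Finset.sum_eq_zero hcon] at h0
      exact zero_ne_one h0
    obtain ⟨v, hv, -⟩ := hv
    rw [Finset.mem_inter] at hv
    exact ⟨s, Or.inl ⟨h1 c hc v hv.2 s hs.1 hv.1, hs.2⟩, hxs⟩
  have h := conn_core hcl1 hcl2 hcl3 hDne hSD hW hsub
  rw [e2, Rz_union]
  exact ⟨hW.nonempty.mono Set.subset_union_right, h⟩

end Pool.Agent.CC39
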