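import Pool.Agent.DT70.Sum

/-! Module CC39/GlueC. Replace the core `Co` of a solid torus `T ⊆ N` by `B`: gluing of maps. -/

set_option autoImplicit false

namespace Pool.Agent.CC39

open Pool.Agent.DT70

private theorem pos_vertex {s t : Finset ℕ} {x : E} (hs : x ∈ sx s) (ht : x ∈ sx t) :
    ∃ v ∈ s, v ∈ t := by
  by_contra h
  push Not at h
  have h1 := hs.2.2
  rw [Finset.sum_eq_zero (fun v hv => ht.2.1 v (h v hv))] at h1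
  exact zero_ne_one h1

theorem meetB {N T Co B : Set (Finset ℕ)}
    (h1 : ∀ s ∈ Co, ∀ v ∈ s, ∀ G ∈ N, v ∈ G → G ∈ T)
    (h2 : ∀ s ∈ N, ∀ v ∈ s, Even v)
    (h3 : ∀ t ∈ B, ∀ v ∈ t, Even v → ∃ s ∈ Co, v ∈ s) {x : E}
    (hx : x ∈ Rz (N \ Co)) (hx' : x ∈ Rz B) : x ∈ Rz (T \ Co) := by
  obtain ⟨s, ⟨hs, hsC⟩, hxs⟩ := hx
  obtain ⟨t, ht, hxt⟩ := hx'
  obtain ⟨v, hv, hvt⟩ := pos_vertex hxs hxt
  obtain ⟨s', hs', hv'⟩ := h3 t ht v hvt (h2 s hs v hv)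
  exact ⟨s, ⟨h1 s' hs' v hv' s hs hv, hsC⟩, hxs⟩

open Classical in
theorem glueC {C : Set E → (E → E) → Prop} (hC : Cls C) {N N' T Co B B' : Set (Finset ℕ)}
    (hTN : T ⊆ N) (hTN' : T ⊆ N') (hNf : N.Finite) (hNf' : N'.Finite) (hBf : B.Finite)
    (hBf' : B'.Finite)
    (h1 : ∀ s ∈ Co, ∀ v ∈ s, ∀ G ∈ N, v ∈ G → G ∈ T)
    (h1' : ∀ s ∈ Co, ∀ v ∈ s, ∀ G ∈ N', v ∈ G → G ∈ T)
    (h2 : ∀ s ∈ N, ∀ v ∈ s, Even v) (h2' : ∀ s ∈ N', ∀ v ∈ s, Even v)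
    (h3 : ∀ t ∈ B, ∀ v ∈ t, Even v → ∃ s ∈ Co, v ∈ s)
    (h3' : ∀ t ∈ B', ∀ v ∈ t, Even v → ∃ s ∈ Co, v ∈ s)
    {f g u w : E → E} (hf : Iso C (Rz (N \ Co)) (Rz (N' \ Co)) f g) (hu : Iso C (Rz B) (Rz B') u w)
    (hf1 : ∀ x ∈ Rz (T \ Co), f x = x) (hg1 : ∀ x ∈ Rz (T \ Co), g x = x)
    (hu1 : ∀ x ∈ Rz B, x ∈ Rz (T \ Co) → u x = x)
    (hw1 : ∀ x ∈ Rz B', x ∈ Rz (T \ Co) → w x = x) :
    ∃ p q : E → E, Iso C (Rz ((N \ Co) ∪ B)) (Rz ((N' \ Co) ∪ B')) p q := by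
  have hTs : Rz (T \ Co) ⊆ Rz (N \ Co) := Rz_mono (Set.sdiff_subset_sdiff_left hTN)
  have hTs' : Rz (T \ Co) ⊆ Rz (N' \ Co) := Rz_mono (Set.sdiff_subset_sdiff_left hTN')
  have e1 : ∀ x ∈ Rz B, x ∈ Rz (N \ Co) → f x = u x := by
    intro x hx hx'
    have h := meetB h1 h2 h3 hx' hx
    rw [hf1 x h, hu1 x hx h]
  have e2 : ∀ x ∈ Rz B', x ∈ Rz (N' \ Co) → g x = w x := by
    intro x hx hx'
    have h := meetB h1' h2' h3' hx' hx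
    rw [hg1 x h, hw1 x hx h]
  have n1 : ∀ x ∈ Rz B, x ∉ Rz (N \ Co) → u x ∉ Rz (N' \ Co) := by
    intro x hx hn h
    have h4 := hu.1 x hx
    have h5 := meetB h1' h2' h3' h h4.1
    have h6 := hw1 _ h4.1 h5
    rw [h4.2] at h6
    rw [← h6] at h5
    exact hn (hTs h5)
  have n2 : ∀ x ∈ Rz B', x ∉ Rz (N' \ Co) → w x ∉ Rz (N \ Co) := by
    intro x hx hn h
    have h4 := hu.2.1 x hx
    have h5 := meetB h1 h2 h3 h h4.1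
    have h6 := hu1 _ h4.1 h5
    rw [h4.2] at h6
    rw [← h6] at h5
    exact hn (hTs' h5)
  refine ⟨fun x => if x ∈ Rz (N \ Co) then f x else u x,
    fun y => if y ∈ Rz (N' \ Co) then g y else w y, ?_, ?_, ?_, ?_⟩
  · intro x hx
    rw [Rz_union] at hx
    rw [Rz_union]
    by_cases hx1 : x ∈ Rz (N \ Co)
    · have e := hf.1 x hx1
      simp only [if_pos hx1]
      exact ⟨Or.inl e.1, by rw [if_pos e.1]; exact e.2⟩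
    · have hx2 := hx.resolve_left hx1
      have e := hu.1 x hx2
      simp only [if_neg hx1]
      exact ⟨Or.inr e.1, by rw [if_neg (n1 x hx2 hx1)]; exact e.2⟩
  · intro x hx
    rw [Rz_union] at hx
    rw [Rz_union]
    by_cases hx1 : x ∈ Rz (N' \ Co)
    · have e := hf.2.1 x hx1
      simp only [if_pos hx1]
      exact ⟨Or.inl e.1, by rw [if_pos e.1]; exact e.2⟩
    · have hx2 := hx.resolve_left hx1
      have e := hu.2.1 x hx2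
      simp only [if_neg hx1]
      exact ⟨Or.inr e.1, by rw [if_neg (n2 x hx2 hx1)]; exact e.2⟩
  · refine hC.union (hNf.subset Set.sdiff_subset) hBf ?_ ?_
    · exact hC.congr hf.2.2.1 (fun x hx => if_pos hx)
    · refine hC.congr hu.2.2.1 (fun x hx => ?_)
      by_cases hx1 : x ∈ Rz (N \ Co)
      · simp only [if_pos hx1]
        exact e1 x hx hx1
      · simp only [if_neg hx1]
  · refine hC.union (hNf'.subset Set.sdiff_subset) hBf' ?_ ?_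
    · exact hC.congr hf.2.2.2 (fun x hx => if_pos hx)
    · refine hC.congr hu.2.2.2 (fun x hx => ?_)
      by_cases hx1 : x ∈ Rz (N' \ Co)
      · simp only [if_pos hx1]
        exact e2 x hx hx1
      · simp only [if_neg hx1]

private theorem half {N T Co : Set (Finset ℕ)} {N' : Set (Finset ℕ)}
    (hTN' : T ⊆ N')
    (h1 : ∀ s ∈ Co, ∀ v ∈ s, ∀ G ∈ N, v ∈ G → G ∈ T) (hCT : Co ⊆ T)
    {f g : E → E} (h : ∀ x ∈ Rz N, f x ∈ Rz N' ∧ g (f x) = x) (hf1 : ∀ x ∈ Rz T, f x = x)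
    (hg1 : ∀ x ∈ Rz T, g x = x) {x : E} (hx : x ∈ Rz (N \ Co)) : f x ∈ Rz (N' \ Co) := by
  obtain ⟨s, ⟨hs, hsC⟩, hxs⟩ := hx
  obtain ⟨⟨s', hs', hy⟩, hgf⟩ := h x ⟨s, hs, hxs⟩
  by_cases hc : s' ∈ Co
  · have h4 : g (f x) = f x := hg1 _ ⟨s', hCT hc, hy⟩
    rw [hgf] at h4
    rw [← h4] at hy ⊢
    obtain ⟨v, hv, hv'⟩ := pos_vertex hxs hy
    exact ⟨s, ⟨hTN' (h1 s' hc v hv' s hs hv), hsC⟩, hxs⟩
  · exact ⟨s', ⟨hs', hc⟩, hy⟩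

theorem glueD {C : Set E → (E → E) → Prop} (hC : Cls C) {N N' T Co : Set (Finset ℕ)}
    (hTN : T ⊆ N) (hTN' : T ⊆ N') (hCT : Co ⊆ T)
    (h1 : ∀ s ∈ Co, ∀ v ∈ s, ∀ G ∈ N, v ∈ G → G ∈ T)
    (h1' : ∀ s ∈ Co, ∀ v ∈ s, ∀ G ∈ N', v ∈ G → G ∈ T)
    {f g : E → E} (hf : Iso C (Rz N) (Rz N') f g) (hf1 : ∀ x ∈ Rz T, f x = x) :
    Iso C (Rz (N \ Co)) (Rz (N' \ Co)) f g ∧ (∀ x ∈ Rz T, g x = x) := by
  have hg1 : ∀ x ∈ Rz T, g x = x := by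
    intro x hx
    have h := (hf.1 x (Rz_mono hTN hx)).2
    rw [hf1 x hx] at h
    exact h
  have hs : Rz (N \ Co) ⊆ Rz N := Rz_mono Set.sdiff_subset
  have hs' : Rz (N' \ Co) ⊆ Rz N' := Rz_mono Set.sdiff_subset
  refine ⟨⟨?_, ?_, hC.mono hf.2.2.1 hs, hC.mono hf.2.2.2 hs'⟩, hg1⟩
  · intro x hx
    exact ⟨half hTN' h1 hCT hf.1 hf1 hg1 hx, (hf.1 x (hs hx)).2⟩
  · intro x hx
    exact ⟨half hTN h1' hCT hf.2.1 hg1 hf1 hx, (hf.2.1 x (hs' hx)).2⟩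

end Pool.Agent.CC39
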