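import Pool.Agent.CC39.SlabS

/-! Module CC39/Handle. The handle `TT` is closed, collapses to the ring by slabs; attaching it
along the ring does not change the boundary of the thickening up to flips. -/

set_option autoImplicit false

namespace Pool.Agent.CC39

open Pool.Agent.DT70 Pool.Agent.MK Pool.Agent.MKD

/-- Stages of the collapse. -/
private def TS (k1 k3 k4 a0 b0 a2 b2 : ℤ) : Set P :=
  {c | c ∈ TT ∧ c 1 ≤ k1 ∧ c 3 ≤ k3 ∧ c 4 ≤ k4 ∧ a0 ≤ c 0 ∧ c 0 ≤ b0 ∧ a2 ≤ c 2 ∧ c 2 ≤ b2}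

private theorem mTT (c : P) : c ∈ TT ↔ ¬ (c 0 = -3 ∧ c 2 = 1) ∧
    ((c 1 = 0 ∧ c 3 = 2 ∧ 2 ≤ c 4 ∧ c 4 ≤ 4 ∧ -4 ≤ c 0 ∧ c 0 ≤ -2 ∧ 0 ≤ c 2 ∧ c 2 ≤ 2) ∨
     (0 ≤ c 1 ∧ c 1 ≤ 2 ∧ 2 ≤ c 3 ∧ c 3 ≤ 4 ∧ 4 ≤ c 4 ∧ c 4 ≤ 6 ∧ -6 ≤ c 0 ∧ c 0 ≤ 0 ∧
      -2 ≤ c 2 ∧ c 2 ≤ 4)) := Iff.rfl

private theorem mTS (k1 k3 k4 a0 b0 a2 b2 : ℤ) (c : P) : c ∈ TS k1 k3 k4 a0 b0 a2 b2 ↔
    c ∈ TT ∧ c 1 ≤ k1 ∧ c 3 ≤ k3 ∧ c 4 ≤ k4 ∧ a0 ≤ c 0 ∧ c 0 ≤ b0 ∧ a2 ≤ c 2 ∧ c 2 ≤ b2 := Iff.rfl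

private theorem closed_TS {k1 k3 k4 a0 b0 a2 b2 : ℤ} (h1 : k1 % 2 = 0) (h3 : k3 % 2 = 0)
    (h4 : k4 % 2 = 0) (h5 : a0 % 2 = 0) (h6 : b0 % 2 = 0) (h7 : a2 % 2 = 0) (h8 : b2 % 2 = 0) :
    Closed (TS k1 k3 k4 a0 b0 a2 b2) := by
  rintro c hc i hi
  have ho : c i % 2 = 1 := Int.odd_iff.1 hi
  rw [mTS, mTT] at hc
  rw [mTS, mTS, mTT, mTT]
  fin_cases i
  · simp [e] at ho ⊢
    constructor
    · omega
    · omega
  · simp [e] at ho ⊢
    constructor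
    · omega
    · omega
  · simp [e] at ho ⊢
    constructor
    · omega
    · omega
  · simp [e] at ho ⊢
    constructor
    · omega
    · omega
  · simp [e] at ho ⊢
    constructor
    · omega
    · omega

private theorem TS_sub {k1 k3 k4 a0 b0 a2 b2 : ℤ} : TS k1 k3 k4 a0 b0 a2 b2 ⊆ TT :=
  fun _ h => h.1

/-- The handle is finite. -/
theorem fin_TT : TT.Finite := by
  refine (Set.finite_Icc (fun _ => -10 : P) (fun _ => 10)).subset ?_
  intro c hc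
  rw [mTT] at hc
  refine ⟨fun i => ?_, fun i => ?_⟩
  · fin_cases i <;> simp <;> omega
  · fin_cases i <;> simp <;> omega

private theorem slab_TS {k1 k3 k4 a0 b0 a2 b2 k1' k3' k4' a0' b0' a2' b2' : ℤ}
    (h1 : k1 % 2 = 0) (h3 : k3 % 2 = 0)
    (h4 : k4 % 2 = 0) (h5 : a0 % 2 = 0) (h6 : b0 % 2 = 0) (h7 : a2 % 2 = 0) (h8 : b2 % 2 = 0)
    (h1' : k1' % 2 = 0) (h3' : k3' % 2 = 0)
    (h4' : k4' % 2 = 0) (h5' : a0' % 2 = 0) (h6' : b0' % 2 = 0) (h7' : a2' % 2 = 0)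
    (h8' : b2' % 2 = 0)
    (hsub : TS k1' k3' k4' a0' b0' a2' b2' ⊆ TS k1 k3 k4 a0 b0 a2 b2)
    (l : Fin 5) (ε : ℤ) (hε : ε = 1 ∨ ε = -1)
    (h : ∀ c ∈ TS k1 k3 k4 a0 b0 a2 b2, c ∉ TS k1' k3' k4' a0' b0' a2' b2' →
      (c l % 2 = 0 → c + ε • e l ∈ TS k1 k3 k4 a0 b0 a2 b2 ∧
        c + ε • e l ∉ TS k1' k3' k4' a0' b0' a2' b2') ∧
      (c l % 2 = 1 → c - ε • e l ∈ TS k1 k3 k4 a0 b0 a2 b2 ∧
        c - ε • e l ∉ TS k1' k3' k4' a0' b0' a2' b2')) :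
    SlabStep (TS k1 k3 k4 a0 b0 a2 b2) (TS k1' k3' k4' a0' b0' a2' b2') := by
  refine ⟨closed_TS h1 h3 h4 h5 h6 h7 h8, closed_TS h1' h3' h4' h5' h6' h7' h8', hsub,
    (fin_TT.subset TS_sub).subset Set.sdiff_subset, l, ε, hε, ?_⟩
  rintro c ⟨hc, hc'⟩
  exact ⟨fun hh => (h c hc hc').1 (Int.even_iff.1 hh), fun hh => (h c hc hc').2 (Int.odd_iff.1 hh)⟩

private theorem TS_top : TS 2 4 6 (-6) 0 (-2) 4 = TT := by
  ext c
  rw [mTS, mTT]
  omega

private theorem TS_bot : TS 0 2 2 (-4) (-2) 0 2 = Q := by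
  ext c
  rw [mTS, mTT]
  simp only [Q, Set.mem_ofPred_eq]
  omega

/-- The handle is a complex. -/
theorem closed_TT : Closed TT := by
  rw [← TS_top]
  exact closed_TS (by norm_num) (by norm_num) (by norm_num) (by norm_num) (by norm_num)
    (by norm_num) (by norm_num)

theorem closed_Q : Closed Q := by
  rw [← TS_bot]
  exact closed_TS (by norm_num) (by norm_num) (by norm_num) (by norm_num) (by norm_num)
    (by norm_num) (by norm_num)

theorem TT_le {q : P} (h : q ∈ TT) (h2 : q 4 ≤ 2) : q ∈ Q := by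
  rw [mTT] at h
  simp only [Q, Set.mem_ofPred_eq]
  omega

theorem Q_sub : Q ⊆ TT := by
  intro q h
  rw [mTT]
  simp only [Q, Set.mem_ofPred_eq] at h
  omega

private theorem s1 : SlabStep (TS 2 4 6 (-6) 0 (-2) 4) (TS 0 4 6 (-6) 0 (-2) 4) := by
  refine slab_TS (by norm_num) (by norm_num) (by norm_num) (by norm_num) (by norm_num)
    (by norm_num) (by norm_num) (by norm_num) (by norm_num) (by norm_num) (by norm_num)
    (by norm_num) (by norm_num) (by norm_num) ?_ 1 (-1) (Or.inr rfl) ?_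
  · rintro c ⟨hc, hc'⟩
    exact ⟨hc, by omega⟩
  · intro c h1 h2
    rw [mTS, mTT] at h1 h2
    rw [mTS, mTS, mTT, mTS, mTS, mTT]
    simp [e]
    omega

private theorem s2 : SlabStep (TS 0 4 6 (-6) 0 (-2) 4) (TS 0 2 6 (-6) 0 (-2) 4) := by
  refine slab_TS (by norm_num) (by norm_num) (by norm_num) (by norm_num) (by norm_num)
    (by norm_num) (by norm_num) (by norm_num) (by norm_num) (by norm_num) (by norm_num)
    (by norm_num) (by norm_num) (by norm_num) ?_ 3 (-1) (Or.inr rfl) ?_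
  · rintro c ⟨hc, hc'⟩
    exact ⟨hc, by omega⟩
  · intro c h1 h2
    rw [mTS, mTT] at h1 h2
    rw [mTS, mTS, mTT, mTS, mTS, mTT]
    simp [e]
    omega

private theorem s3 : SlabStep (TS 0 2 6 (-6) 0 (-2) 4) (TS 0 2 4 (-6) 0 (-2) 4) := by
  refine slab_TS (by norm_num) (by norm_num) (by norm_num) (by norm_num) (by norm_num)
    (by norm_num) (by norm_num) (by norm_num) (by norm_num) (by norm_num) (by norm_num)
    (by norm_num) (by norm_num) (by norm_num) ?_ 4 (-1) (Or.inr rfl) ?_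
  · rintro c ⟨hc, hc'⟩
    exact ⟨hc, by omega⟩
  · intro c h1 h2
    rw [mTS, mTT] at h1 h2
    rw [mTS, mTS, mTT, mTS, mTS, mTT]
    simp [e]
    omega

private theorem s4 : SlabStep (TS 0 2 4 (-6) 0 (-2) 4) (TS 0 2 4 (-4) 0 (-2) 4) := by
  refine slab_TS (by norm_num) (by norm_num) (by norm_num) (by norm_num) (by norm_num)
    (by norm_num) (by norm_num) (by norm_num) (by norm_num) (by norm_num) (by norm_num)
    (by norm_num) (by norm_num) (by norm_num) ?_ 0 1 (Or.inl rfl) ?_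
  · rintro c ⟨hc, hc'⟩
    exact ⟨hc, by omega⟩
  · intro c h1 h2
    rw [mTS, mTT] at h1 h2
    rw [mTS, mTS, mTT, mTS, mTS, mTT]
    simp [e]
    omega

private theorem s5 : SlabStep (TS 0 2 4 (-4) 0 (-2) 4) (TS 0 2 4 (-4) (-2) (-2) 4) := by
  refine slab_TS (by norm_num) (by norm_num) (by norm_num) (by norm_num) (by norm_num)
    (by norm_num) (by norm_num) (by norm_num) (by norm_num) (by norm_num) (by norm_num)
    (by norm_num) (by norm_num) (by norm_num) ?_ 0 (-1) (Or.inr rfl) ?_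
  · rintro c ⟨hc, hc'⟩
    exact ⟨hc, by omega⟩
  · intro c h1 h2
    rw [mTS, mTT] at h1 h2
    rw [mTS, mTS, mTT, mTS, mTS, mTT]
    simp [e]
    omega

private theorem s6 : SlabStep (TS 0 2 4 (-4) (-2) (-2) 4) (TS 0 2 4 (-4) (-2) 0 4) := by
  refine slab_TS (by norm_num) (by norm_num) (by norm_num) (by norm_num) (by norm_num)
    (by norm_num) (by norm_num) (by norm_num) (by norm_num) (by norm_num) (by norm_num)
    (by norm_num) (by norm_num) (by norm_num) ?_ 2 1 (Or.inl rfl) ?_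
  · rintro c ⟨hc, hc'⟩
    exact ⟨hc, by omega⟩
  · intro c h1 h2
    rw [mTS, mTT] at h1 h2
    rw [mTS, mTS, mTT, mTS, mTS, mTT]
    simp [e]
    omega

private theorem s7 : SlabStep (TS 0 2 4 (-4) (-2) 0 4) (TS 0 2 4 (-4) (-2) 0 2) := by
  refine slab_TS (by norm_num) (by norm_num) (by norm_num) (by norm_num) (by norm_num)
    (by norm_num) (by norm_num) (by norm_num) (by norm_num) (by norm_num) (by norm_num)
    (by norm_num) (by norm_num) (by norm_num) ?_ 2 (-1) (Or.inr rfl) ?_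
  · rintro c ⟨hc, hc'⟩
    exact ⟨hc, by omega⟩
  · intro c h1 h2
    rw [mTS, mTT] at h1 h2
    rw [mTS, mTS, mTT, mTS, mTS, mTT]
    simp [e]
    omega

private theorem s8 : SlabStep (TS 0 2 4 (-4) (-2) 0 2) (TS 0 2 2 (-4) (-2) 0 2) := by
  refine slab_TS (by norm_num) (by norm_num) (by norm_num) (by norm_num) (by norm_num)
    (by norm_num) (by norm_num) (by norm_num) (by norm_num) (by norm_num) (by norm_num)
    (by norm_num) (by norm_num) (by norm_num) ?_ 4 (-1) (Or.inr rfl) ?_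
  · rintro c ⟨hc, hc'⟩
    exact ⟨hc, by omega⟩
  · intro c h1 h2
    rw [mTS, mTT] at h1 h2
    rw [mTS, mTS, mTT, mTS, mTS, mTT]
    simp [e]
    omega

/-- The handle collapses to the ring. -/
theorem col_TT : Col TT Q := by
  rw [← TS_top, ← TS_bot]
  exact Col.step s1 (Col.step s2 (Col.step s3 (Col.step s4 (Col.step s5 (Col.step s6
    (Col.step s7 (Col.one s8)))))))

/-- Attaching the handle: only flips. -/
theorem fe_handle {Y : Set P} (hc : Closed Y) (hr : Q ⊆ Y) (ht : ∀ q ∈ Y, q 4 ≤ 2) :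
    FE ∅ (K Y) (K (Y ∪ TT)) := by
  refine exciseS hc ?_ col_TT (fun _ _ _ => Set.empty_subset _)
  apply Set.Subset.antisymm
  · rintro q ⟨h1, h2⟩
    exact TT_le h2 (ht q h1)
  · intro q h
    exact ⟨hr h, Q_sub h⟩

end Pool.Agent.CC39
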