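import Pool.Agent.CC39.Defs
import Pool.Agent.MK.Eqv

/-! Module CC39/Names. Names of lattice points.

`nam_inj`: `Encodable.encode_injective`, `List.ofFn_injective`, `Int.toNat` is injective on
nonnegative integers. `exists_ren`: σ n = nam (Function.invFun nu n) (nu is injective:
`nu_injective` in MK/Eqv); τ m = nu x if m = nam x for some x with 0 ≤ x + c₀ (choice, unique by
`nam_inj`), 0 otherwise. `ren_lks`, `ren_conn`: by `relabel` and `lks_image` (DT70/Relabel) for X = im S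
(see `transfer` and `code_marked` in MK/CodeM). `ren_iso`: compose with the two relabelings; on Rz of
the image of T: a point x of sx (s.image nam), s ∈ T, corresponds to a point of sx (s.image nu),
which is fixed, and the relabelings for S and S' agree there (push and pull in DT70/Relabel: see
`code_rel` in MK/CodeM for the same computation). -/

set_option autoImplicit false

namespace Pool.Agent.CC39

open Pool.Agent.DT70 Pool.Agent.MK

/-- The complex with the names `nam`. -/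
def imn (S : Set (Finset P)) : Set (Finset ℕ) := {t | ∃ s ∈ S, t = s.image nam}

theorem nam_inj {x y : P} (hx : ∀ i, 0 ≤ x i + c₀ i) (hy : ∀ i, 0 ≤ y i + c₀ i)
    (h : nam x = nam y) : x = y := by
  unfold nam at h
  have h1 : (List.ofFn (fun i => (x i + c₀ i).toNat)) = List.ofFn (fun i => (y i + c₀ i).toNat) := by
    apply Encodable.encode_injective
    omega
  have h2 := List.ofFn_injective h1
  funext i
  have h3 := congrFun h2 i
  have h4 := hx i
  have h5 := hy i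
  omega

theorem exists_ren : ∃ σ τ : ℕ → ℕ, (∀ x : P, σ (nu x) = nam x) ∧
    ∀ x : P, (∀ i, 0 ≤ x i + c₀ i) → τ (nam x) = nu x := by
  classical
  have hinv : ∀ x : P, Function.invFun nu (nu x) = x :=
    Function.leftInverse_invFun nu_injective
  refine ⟨fun n => nam (Function.invFun nu n),
    fun m => if hm : ∃ x : P, (∀ i, 0 ≤ x i + c₀ i) ∧ nam x = m then nu hm.choose else 0,
    ?_, ?_⟩
  · intro x
    show nam (Function.invFun nu (nu x)) = nam x
    rw [hinv x]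
  · intro x hx
    have hm : ∃ y : P, (∀ i, 0 ≤ y i + c₀ i) ∧ nam y = nam x := ⟨x, hx, rfl⟩
    show (if hm : ∃ y : P, (∀ i, 0 ≤ y i + c₀ i) ∧ nam y = nam x then nu hm.choose else 0) = nu x
    rw [dif_pos hm]
    congr 1
    exact nam_inj hm.choose_spec.1 hx hm.choose_spec.2

private theorem ren_left {σ τ : ℕ → ℕ} (h1 : ∀ x : P, σ (nu x) = nam x)
    (h2 : ∀ x : P, (∀ i, 0 ≤ x i + c₀ i) → τ (nam x) = nu x) {S : Set (Finset P)}
    (h : ∀ s ∈ S, ∀ x ∈ s, ∀ i, 0 ≤ x i + c₀ i) : ∀ s ∈ im S, ∀ v ∈ s, τ (σ v) = v := by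
  rintro s ⟨s₀, hs₀, rfl⟩ v hv
  obtain ⟨x, hx, rfl⟩ := Finset.mem_image.1 hv
  rw [h1 x, h2 x (h s₀ hs₀ x hx)]

private theorem ren_img {σ : ℕ → ℕ} (h1 : ∀ x : P, σ (nu x) = nam x) (s : Finset P) :
    (s.image nu).image σ = s.image nam := by
  rw [Finset.image_image]
  apply Finset.image_congr
  intro x _
  exact h1 x

private theorem imn_eq {σ : ℕ → ℕ} (h1 : ∀ x : P, σ (nu x) = nam x) (S : Set (Finset P)) :
    imn S = {t | ∃ s ∈ im S, t = s.image σ} := by
  ext t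
  constructor
  · rintro ⟨s, hs, rfl⟩
    exact ⟨s.image nu, ⟨s, hs, rfl⟩, (ren_img h1 s).symm⟩
  · rintro ⟨s, ⟨s₀, hs₀, rfl⟩, rfl⟩
    exact ⟨s₀, hs₀, ren_img h1 s₀⟩

theorem ren_lks {S : Set (Finset P)} (h : ∀ s ∈ S, ∀ x ∈ s, ∀ i, 0 ≤ x i + c₀ i)
    (hS : Lks false (im S)) : Lks false (imn S) := by
  obtain ⟨σ, τ, h1, h2⟩ := exists_ren
  rw [imn_eq h1]
  exact lks_image (im S) σ τ (ren_left h1 h2 h) hS

theorem ren_conn {S : Set (Finset P)} (h : ∀ s ∈ S, ∀ x ∈ s, ∀ i, 0 ≤ x i + c₀ i)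
    (hS : IsConnected (Rz (im S))) : IsConnected (Rz (imn S)) := by
  obtain ⟨σ, τ, h1, h2⟩ := exists_ren
  rw [imn_eq h1]
  have h4 := relabel (im S) σ τ (ren_left h1 h2 h)
  have h5 := hS.image (push (verts (im S)) σ τ) (plOn_cont h4.2.2.1)
  have h6 : push (verts (im S)) σ τ '' Rz (im S) = Rz {t | ∃ s ∈ im S, t = s.image σ} := by
    apply Set.Subset.antisymm
    · rintro _ ⟨x, hx, rfl⟩
      exact (h4.1 x hx).1
    · intro y hy
      exact ⟨_, (h4.2.1 y hy).1, (h4.2.1 y hy).2⟩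
  rw [h6] at h5
  exact h5

private theorem relab_fix {X X' : Set (Finset ℕ)} {σ τ : ℕ → ℕ}
    (h : ∀ s ∈ X, ∀ v ∈ s, τ (σ v) = v) {s : Finset ℕ}
    (hs : s ∈ X) (hs' : s ∈ X') {f : E → E} (hf : ∀ y ∈ sx s, f y = y) :
    ∀ x ∈ sx (s.image σ), push (verts X') σ τ (f (pull (verts X) σ x)) = x := by
  intro x hx
  have hV : ∀ v ∈ verts X, τ (σ v) = v := by
    rintro v ⟨s, hs, hv⟩
    exact h s hs v hv
  have hsV : ∀ v ∈ s, v ∈ verts X := fun v hv => ⟨s, hs, hv⟩
  set y := pull (verts X) σ x with hy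
  have hyx : ∀ v ∈ verts X, y v = x (σ v) := by
    intro v hv
    rw [hy]
    unfold pull
    rw [if_pos hv]
  have hyn : ∀ v, v ∉ verts X → y v = 0 := by
    intro v hv
    rw [hy]
    unfold pull
    rw [if_neg hv]
  obtain ⟨hx1, hx2, hx3⟩ := hx
  have hy1 : y ∈ sx s := by
    refine ⟨?_, ?_, ?_⟩
    · intro v
      by_cases hv : v ∈ verts X
      · rw [hyx v hv]
        exact hx1 _
      · rw [hyn v hv]
    · intro v hv
      by_cases hc : v ∈ verts X
      · rw [hyx v hc]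
        apply hx2
        intro h4
        obtain ⟨u, hu, hu2⟩ := Finset.mem_image.1 h4
        apply hv
        have h5 := hV v hc
        rw [← hu2, hV u (hsV u hu)] at h5
        rw [← h5]
        exact hu
      · exact hyn v hc
    · rw [Finset.sum_image (injOn_of_left h hs)] at hx3
      rw [← hx3]
      exact Finset.sum_congr rfl (fun v hv => hyx v (hsV v hv))
  rw [hf y hy1]
  funext w
  unfold push
  split_ifs with hc
  · by_cases hw : τ w ∈ verts X
    · rw [hyx _ hw, hc.2]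
    · rw [hyn _ hw]
      symm
      apply hx2
      intro h4
      obtain ⟨u, hu, hu2⟩ := Finset.mem_image.1 h4
      apply hw
      rw [← hu2, hV u (hsV u hu)]
      exact hsV u hu
  · symm
    apply hx2
    intro h4
    obtain ⟨u, hu, hu2⟩ := Finset.mem_image.1 h4
    apply hc
    rw [← hu2, hV u (hsV u hu)]
    exact ⟨⟨s, hs', hu⟩, rfl⟩

theorem ren_iso {S S' T : Set (Finset P)} (h : ∀ s ∈ S, ∀ x ∈ s, ∀ i, 0 ≤ x i + c₀ i)
    (h' : ∀ s ∈ S', ∀ x ∈ s, ∀ i, 0 ≤ x i + c₀ i) (hT : T ⊆ S) (hT' : T ⊆ S')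
    (hfe : FE T S S') :
    ∃ f g : E → E, Iso PLOn (Rz (imn S)) (Rz (imn S')) f g ∧ ∀ x ∈ Rz (imn T), f x = x := by
  obtain ⟨σ, τ, h1, h2⟩ := exists_ren
  obtain ⟨f, g, hfg, hfx⟩ := fe_iso hfe
  have l1 := ren_left h1 h2 h
  have l2 := ren_left h1 h2 h'
  have i1 := (relabel (im S) σ τ l1).symm
  have i2 := relabel (im S') σ τ l2
  have i3 := (i1.trans cls_pl hfg).trans cls_pl i2
  rw [← imn_eq h1, ← imn_eq h1] at i3
  refine ⟨_, _, i3, ?_⟩
  rintro x ⟨_, ⟨s, hs, rfl⟩, hx⟩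
  rw [← ren_img h1 s] at hx
  exact relab_fix l1 (⟨s, hT hs, rfl⟩ : s.image nu ∈ im S) (⟨s, hT' hs, rfl⟩ : s.image nu ∈ im S')
    (hfx s hs) x hx

end Pool.Agent.CC39
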