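import Pool.Agent.CC39.Defs
import Pool.Agent.MK.CodeFs

/-! Module CC39/TorSub. The solid torus `Tor` in the boundary `K Z` of the thickening of any
complex `Z` which contains the handle, and is below it outside of the handle.

Use `K_iff` (MK/KIff), `K_subset`, `K_finite` (MK/Skel); sig q π = {v_0, .., v_5}, v_k = vtx q π k,
v_0 = q, v_5 = q + 1, vtx q π k i = q i + (1 if π.symm i < k).
`tor_sub`: G ∈ K TT: (a) q + e (π 0) ∉ TT, G = sig q π without q; the vertex v_1 = q + e (π 0) is in G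
and its coordinate 4 is 7, while q 4 ≤ 6 (q ∈ TT): so π 0 = 4 and q 4 = 6; q + e 4 ∉ Z as its
coordinate 4 is 7: G ∈ K Z. (b) G = sig q π without q + 1 contains q: q 4 = 7, impossible.
`core_vert`: let s ∈ Core, x ∈ s: x 4 = 7 and for some q₁ ∈ Mid: q₁ ≤ x ≤ q₁ + 1, so x 1 ∈ {1, 2},
x 3 ∈ {3, 4}, -5 ≤ x 0 ≤ 0, -1 ≤ x 2 ≤ 4, and (x 0 ∉ {-3, -2} or x 2 ∉ {1, 2}). Hence (*) every q with
q 4 = 6 and q i ∈ {x i - 1, x i} for i ≠ 4 is in TT. Let G ∈ K Z, x ∈ G. (a) q ∈ Z,
q + e (π 0) ∉ Z, G = sig q π without q; q ≤ x ≤ q + 1 so q 4 ≥ 6, q ∈ TT, q 4 = 6. If π 0 = i ≠ 4 then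
x i = q i + 1 (x = v_k, k ≥ 1), so q + e i ∈ TT ⊆ Z by (*): contradiction. So π 0 = 4, all v_k, k ≥ 1, have
coordinate 4 equal to 7, q + e 4 ∉ TT, G ∈ K TT: G ∈ Tor. (b) q - e (π 4) ∉ Z, G = sig q π without
q + 1; x = v_k, k ≤ 4; as before q 4 = 6, q ∈ TT; x (π 4) = q (π 4), so π 4 = i ≠ 4 (x 4 = 7), and
q - e i ∈ TT by (*): contradiction.
`core_nonempty`: e.g. q = (-5, 1, 1, 3, 6), π = a permutation with π 0 = 4 (`Equiv.swap 0 4`), G = (sig q π).erase q. -/

set_option autoImplicit false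

namespace Pool.Agent.CC39

open Pool.Agent.DT70 Pool.Agent.MK

private theorem tv {q : P} {π : Equiv.Perm (Fin 5)} {k : ℕ} {i : Fin 5} :
    vtx q π k i = q i + if (π.symm i : ℕ) < k then 1 else 0 := rfl

private theorem te {k j : Fin 5} : e k j = if j = k then 1 else 0 := rfl

private theorem symm_zero {π : Equiv.Perm (Fin 5)} {i : Fin 5} :
    ((π.symm i : Fin 5) : ℕ) = 0 ↔ π 0 = i := by
  constructor
  · intro h
    have h0 : π.symm i = 0 := Fin.ext (by simpa using h)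
    rw [← h0]
    simp
  · rintro rfl
    simp

private theorem symm_four {π : Equiv.Perm (Fin 5)} {i : Fin 5} :
    ((π.symm i : Fin 5) : ℕ) = 4 ↔ π 4 = i := by
  constructor
  · intro h
    have h0 : π.symm i = 4 := Fin.ext (by simpa using h)
    rw [← h0]
    simp
  · rintro rfl
    simp

/-- members of a facet of the first kind -/
private theorem memA {q : P} {π : Equiv.Perm (Fin 5)} {x : P} :
    x ∈ (sig q π).erase q ↔ ∃ k : ℕ, 1 ≤ k ∧ k < 6 ∧ x = vtx q π k := by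
  rw [Finset.mem_erase, mem_sig]
  constructor
  · rintro ⟨hne, k, hk, rfl⟩
    refine ⟨k, ?_, hk, rfl⟩
    by_contra h0
    apply hne
    have : k = 0 := by omega
    subst this
    funext i
    simp [vtx]
  · rintro ⟨k, h1, h6, rfl⟩
    refine ⟨?_, k, h6, rfl⟩
    intro h
    have h2 := congrFun h (π 0)
    rw [tv] at h2
    have h3 : ((π.symm (π 0) : Fin 5) : ℕ) < k := by
      rw [symm_zero.2 rfl]
      omega
    rw [if_pos h3] at h2
    omega

/-- members of a facet of the second kind -/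
private theorem memB {q : P} {π : Equiv.Perm (Fin 5)} {x : P} :
    x ∈ (sig q π).erase (q + 1) ↔ ∃ k : ℕ, k < 5 ∧ x = vtx q π k := by
  rw [Finset.mem_erase, mem_sig]
  constructor
  · rintro ⟨hne, k, hk, rfl⟩
    refine ⟨k, ?_, rfl⟩
    by_contra h0
    apply hne
    have : k = 5 := by omega
    subst this
    funext i
    have := (π.symm i).isLt
    simp [vtx]
  · rintro ⟨k, h5, rfl⟩
    refine ⟨?_, k, by omega, rfl⟩
    intro h
    have h2 := congrFun h (π 4)
    rw [tv] at h2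
    have h3 : ¬ ((π.symm (π 4) : Fin 5) : ℕ) < k := by
      rw [symm_four.2 rfl]
      omega
    rw [if_neg h3] at h2
    simp at h2

theorem finite_TT : TT.Finite := by
  refine (Set.finite_Icc (pt (-6) 0 (-2) 2 2) (pt 0 2 4 4 6)).subset ?_
  intro c hc
  obtain ⟨-, h⟩ := hc
  rw [Set.mem_Icc]
  constructor
  · intro i
    fin_cases i <;> simp only [pt] <;> rcases h with h | h <;> simp <;> omega
  · intro i
    fin_cases i <;> simp only [pt] <;> rcases h with h | h <;> simp <;> omega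

private theorem TT_top {q : P} (h : q ∈ TT) : q 4 ≤ 6 := by
  obtain ⟨-, h | h⟩ := h <;> omega

theorem tor_sub {Z : Set P} (h1 : TT ⊆ Z) (h2 : ∀ q ∈ Z, q 4 ≤ 6) : Tor ⊆ K Z := by
  rintro G ⟨hG, h7⟩
  obtain ⟨q, hq, π, ⟨hn, rfl⟩ | ⟨hn, rfl⟩⟩ := K_iff.1 hG
  · have hv := h7 _ (memA.2 ⟨1, le_refl _, by norm_num, rfl⟩)
    have hq6 := TT_top hq
    rw [tv] at hv
    have h0 : ((π.symm 4 : Fin 5) : ℕ) < 1 := by
      by_contra hc
      rw [if_neg hc] at hv
      omega
    have hπ : π 0 = 4 := symm_zero.1 (by omega)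
    refine K_iff.2 ⟨q, h1 hq, π, Or.inl ⟨?_, rfl⟩⟩
    intro hZ
    have h3 := h2 _ hZ
    rw [if_pos h0] at hv
    rw [hπ, Pi.add_apply, te, if_pos rfl] at h3
    omega
  · have hv := h7 _ (memB.2 ⟨0, by norm_num, rfl⟩)
    rw [tv, if_neg (by omega)] at hv
    have := TT_top hq
    omega

private theorem star {q x q₁ : P} (h1 : q₁ ∈ Mid) (h2 : q₁ ≤ x) (h3 : x ≤ q₁ + 1) (h4 : q 4 = 6)
    (h5 : ∀ i, i ≠ 4 → x i - 1 ≤ q i ∧ q i ≤ x i) : q ∈ TT := by
  obtain ⟨m4, m1, m3, m0, m0', m2, m2', m⟩ := h1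
  have a0 : q₁ 0 ≤ x 0 := h2 0
  have a1 : q₁ 1 ≤ x 1 := h2 1
  have a2 : q₁ 2 ≤ x 2 := h2 2
  have a3 : q₁ 3 ≤ x 3 := h2 3
  have b0 : x 0 ≤ q₁ 0 + 1 := h3 0
  have b1 : x 1 ≤ q₁ 1 + 1 := h3 1
  have b2 : x 2 ≤ q₁ 2 + 1 := h3 2
  have b3 : x 3 ≤ q₁ 3 + 1 := h3 3
  have c0' := h5 0 (by decide)
  have c1 := h5 1 (by decide)
  have c2 := h5 2 (by decide)
  have c3 := h5 3 (by decide)
  refine ⟨?_, Or.inr ?_⟩
  · rintro ⟨d0, d2⟩
    omega
  · refine ⟨by omega, by omega, by omega, by omega, by omega, by omega, by omega, by omega, by omega,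
      by omega⟩

theorem core_vert {Z : Set P} (h1 : TT ⊆ Z) (h2 : ∀ q ∈ Z, q ∈ TT ∨ q 4 ≤ 2)
    {s : Finset P} (hs : s ∈ Core) {x : P} (hx : x ∈ s) {G : Finset P} (hG : G ∈ K Z)
    (hxG : x ∈ G) : G ∈ Tor := by
  obtain ⟨⟨-, hs7⟩, q₁, hq₁, hb⟩ := hs
  obtain ⟨hb1, hb2⟩ := hb x hx
  have hx7 := hs7 x hx
  obtain ⟨q, hq, π, ⟨hn, rfl⟩ | ⟨hn, rfl⟩⟩ := K_iff.1 hG
  · obtain ⟨k, hk1, hk6, rfl⟩ := memA.1 hxG
    have hq4 : q 4 = 6 := by
      have h7 := hx7
      rw [tv] at h7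
      have h8 : 6 ≤ q 4 := by
        split_ifs at h7 <;> omega
      rcases h2 q hq with h | h
      · exact le_antisymm (TT_top h) h8
      · omega
    have hqT : q ∈ TT := by
      rcases h2 q hq with h | h
      · exact h
      · omega
    have hπ : π 0 = 4 := by
      by_contra hne
      apply hn
      apply h1
      refine star hq₁ hb1 hb2 ?_ ?_
      · rw [Pi.add_apply, te, if_neg (fun h => hne h.symm)]
        omega
      · intro i _
        rw [Pi.add_apply, te, tv]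
        by_cases hi : i = π 0
        · have h3 : ((π.symm i : Fin 5) : ℕ) < k := by
            rw [symm_zero.2 hi.symm]
            omega
          rw [if_pos hi, if_pos h3]
          omega
        · rw [if_neg hi]
          split_ifs <;> omega
    refine ⟨K_iff.2 ⟨q, hqT, π, Or.inl ⟨?_, rfl⟩⟩, ?_⟩
    · intro hT
      have h3 := TT_top hT
      rw [hπ, Pi.add_apply, te, if_pos rfl] at h3
      omega
    · intro y hy
      obtain ⟨l, hl1, -, rfl⟩ := memA.1 hy
      have h3 : ((π.symm 4 : Fin 5) : ℕ) < l := by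
        rw [symm_zero.2 hπ]
        omega
      rw [tv, if_pos h3]
      omega
  · exfalso
    obtain ⟨k, hk5, rfl⟩ := memB.1 hxG
    have hq4 : q 4 = 6 := by
      have h7 := hx7
      rw [tv] at h7
      have h8 : 6 ≤ q 4 := by
        split_ifs at h7 <;> omega
      rcases h2 q hq with h | h
      · exact le_antisymm (TT_top h) h8
      · omega
    have hπ : π 4 ≠ 4 := by
      intro h
      have h7 := hx7
      rw [tv, symm_four.2 h, if_neg (by omega)] at h7
      omega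
    apply hn
    apply h1
    refine star hq₁ hb1 hb2 ?_ ?_
    · rw [Pi.sub_apply, te, if_neg (fun h => hπ h.symm)]
      omega
    · intro i _
      rw [Pi.sub_apply, te, tv]
      by_cases hi : i = π 4
      · have h3 : ¬ ((π.symm i : Fin 5) : ℕ) < k := by
          rw [symm_four.2 hi.symm]
          omega
        rw [if_pos hi, if_neg h3]
        omega
      · rw [if_neg hi]
        split_ifs <;> omega

theorem core_nonempty : Core.Nonempty := by
  set q : P := pt (-5) 1 1 3 6 with hq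
  set π : Equiv.Perm (Fin 5) := Equiv.swap 0 4 with hπ
  have q0 : q 0 = -5 := rfl
  have q1 : q 1 = 1 := rfl
  have q2 : q 2 = 1 := rfl
  have q3 : q 3 = 3 := rfl
  have q4 : q 4 = 6 := rfl
  have h0 : π 0 = 4 := by rw [hπ]; simp
  refine ⟨(sig q π).erase q, ⟨K_iff.2 ⟨q, ?_, π, Or.inl ⟨?_, rfl⟩⟩, ?_⟩, q, ?_, ?_⟩
  · refine ⟨?_, Or.inr ?_⟩
    · rintro ⟨h, -⟩
      omega
    · refine ⟨by omega, by omega, by omega, by omega, by omega, by omega, by omega, by omega,
        by omega, by omega⟩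
  · intro hT
    have h3 := TT_top hT
    rw [h0, Pi.add_apply, te, if_pos rfl] at h3
    omega
  · intro y hy
    obtain ⟨l, hl1, -, rfl⟩ := memA.1 hy
    have h3 : ((π.symm 4 : Fin 5) : ℕ) < l := by
      rw [symm_zero.2 h0]
      omega
    rw [tv, if_pos h3]
    omega
  · refine ⟨q4, q1, q3, by omega, by omega, by omega, by omega, Or.inl q0⟩
  · intro x hx
    obtain ⟨l, -, -, rfl⟩ := memA.1 hx
    constructor
    · intro i
      show q i ≤ vtx q π l i
      rw [tv]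
      split_ifs <;> omega
    · intro i
      show vtx q π l i ≤ q i + 1
      rw [tv]
      split_ifs <;> omega

theorem tor_finite : Tor.Finite := (K_finite finite_TT).subset fun _ h => h.1

theorem tor_card {s : Finset P} (hs : s ∈ Tor) : s.card = 5 := by
  obtain ⟨_, _, _, h, _⟩ := K_subset hs.1
  exact h

/-- The vertices of `K Z` have names. -/
theorem K_low {Z : Set P} (h : ∀ q ∈ Z, ∀ i, 0 ≤ q i + c₀ i) {s : Finset P} (hs : s ∈ K Z)
    {x : P} (hx : x ∈ s) : ∀ i, 0 ≤ x i + c₀ i := by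
  intro i
  obtain ⟨q, hq, -, -, hb⟩ := K_subset hs
  have h1 := h q hq i
  have h2 : q i ≤ x i := (hb x hx).1 i
  omega

theorem TT_low {q : P} (h : q ∈ TT) : ∀ i, 1 ≤ q i + c₀ i := by
  intro i
  obtain ⟨-, h⟩ := h
  fin_cases i <;> simp [c₀] <;> rcases h with h | h <;> omega

end Pool.Agent.CC39
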