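import Pool.Agent.CC39.GlueA
import Pool.Agent.CC39.GlueB
import Pool.Agent.CC39.GlueC
import Pool.Agent.CC39.Names
import Pool.Agent.CC39.Handle
import Pool.Agent.CC39.TorSub
import Pool.Agent.MK.StarC
import Pool.Agent.MK.ConnK
import Pool.Agent.DT70.Du

/-! Module CC39/Glue. Replacing the core by fillers. -/

set_option autoImplicit false

namespace Pool.Agent.CC39

open Pool.Agent.DT70 Pool.Agent.MK Pool.Agent.MKD

private theorem image_nam_inj {s s' : Finset P} (h : ∀ x ∈ s, ∀ i, 0 ≤ x i + c₀ i)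
    (h' : ∀ x ∈ s', ∀ i, 0 ≤ x i + c₀ i) (he : s.image nam = s'.image nam) : s ⊆ s' := by
  intro x hx
  have h1 : nam x ∈ s'.image nam := by
    rw [← he]
    exact Finset.mem_image_of_mem nam hx
  obtain ⟨y, hy, hyx⟩ := Finset.mem_image.1 h1
  rw [← nam_inj (h' y hy) (h x hx) hyx]
  exact hy

theorem imn_mono {A B : Set (Finset P)} (h : A ⊆ B) : imn A ⊆ imn B := by
  rintro t ⟨s, hs, rfl⟩
  exact ⟨s, h hs, rfl⟩

theorem imn_finite {A : Set (Finset P)} (h : A.Finite) : (imn A).Finite := by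
  refine (h.image (fun s => s.image nam)).subset ?_
  rintro t ⟨s, hs, rfl⟩
  exact ⟨s, hs, rfl⟩

theorem imn_sdiff {S A : Set (Finset P)} (h : ∀ s ∈ S, ∀ x ∈ s, ∀ i, 0 ≤ x i + c₀ i)
    (hA : A ⊆ S) : imn (S \ A) = imn S \ imn A := by
  ext t
  constructor
  · rintro ⟨s, ⟨hs, hsA⟩, rfl⟩
    refine ⟨⟨s, hs, rfl⟩, ?_⟩
    rintro ⟨s', hs', h1⟩
    apply hsA
    have h2 : s = s' := Finset.Subset.antisymm
      (image_nam_inj (h s hs) (h s' (hA hs')) h1) (image_nam_inj (h s' (hA hs')) (h s hs) h1.symm)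
    rw [h2]
    exact hs'
  · rintro ⟨⟨s, hs, rfl⟩, h2⟩
    exact ⟨s, ⟨hs, fun h3 => h2 ⟨s, h3, rfl⟩⟩, rfl⟩

theorem core_sub : Core ⊆ Tor := fun _ h => h.1

section glue

variable {Y Y' : Set P} {C C' D F F' : Code}

private theorem low_Z (hY : Spine Y) : ∀ q ∈ Y ∪ TT, ∀ i, 0 ≤ q i + c₀ i := by
  rintro q (hq | hq) i
  · have := hY.low q hq i
    omega
  · have := TT_low hq i
    omega

private theorem vlow (hY : Spine Y) : ∀ s ∈ K (Y ∪ TT), ∀ x ∈ s, ∀ i, 0 ≤ x i + c₀ i :=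
  fun _ hs _ hx => K_low (low_Z hY) hs hx

private theorem hTN (hY : Spine Y) : Tor ⊆ K (Y ∪ TT) := by
  refine tor_sub Set.subset_union_right ?_
  rintro q (hq | hq)
  · have := hY.top q hq
    omega
  · simp only [TT, Set.mem_ofPred_eq] at hq
    omega

private theorem tlow : ∀ s ∈ Tor, ∀ x ∈ s, ∀ i, 0 ≤ x i + c₀ i := fun _ hs _ hx =>
  K_low (Z := TT) (fun q hq i => by have := TT_low hq i; omega) hs.1 hx

private theorem h1 (hY : Spine Y) :
    ∀ s ∈ imn Core, ∀ v ∈ s, ∀ G ∈ imn (K (Y ∪ TT)), v ∈ G → G ∈ imn Tor := by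
  rintro s ⟨s0, hs0, rfl⟩ v hv G ⟨G0, hG0, rfl⟩ hvG
  obtain ⟨x, hx, rfl⟩ := Finset.mem_image.1 hv
  obtain ⟨y, hy, hyx⟩ := Finset.mem_image.1 hvG
  have h2 : y = x := nam_inj (vlow hY G0 hG0 y hy) (tlow s0 hs0.1 x hx) hyx
  rw [h2] at hy
  refine ⟨G0, core_vert (Z := Y ∪ TT) Set.subset_union_right ?_ hs0 hx hG0 hy, rfl⟩
  rintro q (hq | hq)
  · exact Or.inr (hY.top q hq)
  · exact Or.inl hq

private theorem h2 (S : Set (Finset P)) : ∀ s ∈ imn S, ∀ v ∈ s, Even v := by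
  rintro s ⟨s0, hs0, rfl⟩ v hv
  obtain ⟨x, hx, rfl⟩ := Finset.mem_image.1 hv
  exact even_two_mul _

private theorem h3 (hF : Filler D F) : ∀ t ∈ fs F, ∀ v ∈ t, Even v → ∃ s ∈ imn Core, v ∈ s := by
  rintro t ⟨f, hf, rfl⟩ v hv hev
  rw [List.mem_toFinset] at hv
  obtain ⟨s, hs, x, hx, rfl⟩ := hF.even f hf v hv hev
  exact ⟨s.image nam, ⟨s, hs, rfl⟩, Finset.mem_image_of_mem nam hx⟩

private theorem fsC (hY : Spine Y) (hC : Lists (K (Y ∪ TT) \ Core) C) :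
    fs C = imn (K (Y ∪ TT)) \ imn Core := by
  rw [hC.2]
  exact imn_sdiff (vlow hY) (core_sub.trans (hTN hY))

private theorem fsD (hD : Lists (Tor \ Core) D) : fs D = imn Tor \ imn Core := by
  rw [hD.2]
  exact imn_sdiff tlow core_sub

private theorem lksN (hY : Spine Y) : Lks false (imn (K (Y ∪ TT))) :=
  ren_lks (vlow hY) ((fe_lks (fe_handle hY.closed hY.ring hY.top)).1
    (K_lks hY.fin hY.closed hY.dim))

private theorem connN (hY : Spine Y) : IsConnected (Rz (imn (K (Y ∪ TT)))) := by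
  obtain ⟨f, g, hfg, -⟩ := fe_iso (fe_handle hY.closed hY.ring hY.top)
  exact ren_conn (vlow hY) (conn_transfer ⟨f, g, hfg⟩ (conn_K hY.closed hY.dim hY.conn))

private theorem finN (hY : Spine Y) : (imn (K (Y ∪ TT))).Finite :=
  imn_finite (K_finite (hY.fin.union fin_TT))

theorem glue_mfd (hY : Spine Y) (hC : Lists (K (Y ∪ TT) \ Core) C) (hD : Lists (Tor \ Core) D)
    (hF : Filler D F) : Mfd false (C ++ F) := by
  have hDF : fs (D ++ F) = (imn Tor \ imn Core) ∪ fs F := by rw [fs_append, fsD hD]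
  have hl : Lks false (fs (C ++ F)) := by
    rw [fs_append, fsC hY hC]
    refine glueA (T := imn Tor) (imn_mono (hTN hY)) (imn_mono core_sub) (h1 hY) (h2 _) (h3 hF)
      ?_ ?_ (lksN hY)
    · rintro t ⟨f, hf, rfl⟩ v hv
      rw [List.mem_toFinset] at hv
      rw [← hDF]
      exact (lk_iff false v _).1 (Or.inl (hF.lkF f hf v hv))
    · rintro s ⟨s0, hs0, rfl⟩ v hv
      obtain ⟨x, hx, rfl⟩ := Finset.mem_image.1 hv
      rw [← hDF]
      exact (lk_iff false _ _).1 (Or.inl (hF.lkC s0 hs0 x hx))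
  refine ⟨?_, ?_, ?_⟩
  · intro h
    exact hF.ne (List.append_eq_nil_iff.1 h).2
  · intro f hf
    rcases List.mem_append.1 hf with hf | hf
    · exact hC.1 f hf
    · exact hF.facets f hf
  · rintro v ⟨f, hf, hv⟩
    rw [lk_iff]
    exact hl v ⟨f.toFinset, ⟨f, hf, rfl⟩, List.mem_toFinset.2 hv⟩

theorem glue_conn (hY : Spine Y) (hC : Lists (K (Y ∪ TT) \ Core) C) (hD : Lists (Tor \ Core) D)
    (hF : Filler D F) : IsConnected (real (C ++ F)) := by
  have hW := hF.conn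
  rw [real_eq, fs_append, fsD hD] at hW
  rw [real_eq, fs_append, fsC hY hC]
  refine glueB (T := imn Tor) (imn_mono (hTN hY)) (imn_mono core_sub) (finN hY) (fs_finite F) ?_
    (h1 hY) (connN hY) hW
  obtain ⟨s, hs⟩ := core_nonempty
  refine ⟨s.image nam, ⟨s, hs, rfl⟩, ?_⟩
  rw [Finset.image_nonempty, ← Finset.card_pos, tor_card hs.1]
  norm_num

theorem glue_homeo (hY : Spine Y) (hC : Lists (K (Y ∪ TT) \ Core) C) (hD : Lists (Tor \ Core) D)
    (hF : Filler D F) (hF' : Filler D F') (h : SameB D F F') :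
    Nonempty (real (C ++ F) ≃ₜ real (C ++ F')) := by
  obtain ⟨f, g, hfg, hf, hg⟩ := h
  rw [real_eq, real_eq] at hfg
  have hDR : real D = Rz (imn Tor \ imn Core) := by rw [real_eq, fsD hD]
  rw [hDR] at hf hg
  rw [real_eq F] at hf
  rw [real_eq F'] at hg
  obtain ⟨p, q, hpq⟩ := glueC cls_cont (T := imn Tor) (Co := imn Core) (imn_mono (hTN hY))
    (imn_mono (hTN hY)) (finN hY) (finN hY) (fs_finite F) (fs_finite F') (h1 hY) (h1 hY)
    (h2 _) (h2 _) (h3 hF) (h3 hF') (Iso.refl cls_cont _) hfg (fun _ _ => rfl) (fun _ _ => rfl)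
    hf hg
  have e1 : real (C ++ F) = Rz (imn (K (Y ∪ TT)) \ imn Core ∪ fs F) := by
    rw [real_eq, fs_append, fsC hY hC]
  have e2 : real (C ++ F') = Rz (imn (K (Y ∪ TT)) \ imn Core ∪ fs F') := by
    rw [real_eq, fs_append, fsC hY hC]
  rw [e1, e2]
  exact hpq.homeo

theorem glue_pl (hY : Spine Y) (hY' : Spine Y') (hC : Lists (K (Y ∪ TT) \ Core) C)
    (hC' : Lists (K (Y' ∪ TT) \ Core) C') (hF : Filler D F)
    (h : FE Tor (K (Y ∪ TT)) (K (Y' ∪ TT))) :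
    PLHomeo (C ++ F) (C' ++ F) := by
  obtain ⟨f, g, hfg, hf⟩ := ren_iso (vlow hY) (vlow hY') (hTN hY) (hTN hY') h
  obtain ⟨hfg', hg⟩ := glueD cls_pl (imn_mono (hTN hY)) (imn_mono (hTN hY'))
    (imn_mono core_sub) (h1 hY) (h1 hY') hfg hf
  have e1 : real (C ++ F) = Rz (imn (K (Y ∪ TT)) \ imn Core ∪ fs F) := by
    rw [real_eq, fs_append, fsC hY hC]
  have e2 : real (C' ++ F) = Rz (imn (K (Y' ∪ TT)) \ imn Core ∪ fs F) := by
    rw [real_eq, fs_append, fsC hY' hC']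
  unfold PLHomeo
  rw [e1, e2]
  have hm : Rz (imn Tor \ imn Core) ⊆ Rz (imn Tor) := Rz_mono Set.sdiff_subset
  exact glueC cls_pl (T := imn Tor) (Co := imn Core) (imn_mono (hTN hY))
    (imn_mono (hTN hY')) (finN hY) (finN hY') (fs_finite F) (fs_finite F) (h1 hY) (h1 hY')
    (h2 _) (h2 _) (h3 hF) (h3 hF) hfg' (Iso.refl cls_pl _) (fun x hx => hf x (hm hx))
    (fun x hx => hg x (hm hx)) (fun _ _ _ => rfl) (fun _ _ _ => rfl)

end glue

end Pool.Agent.CC39
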