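import Pool.Agent.DT70.Sum

/-! Module CC39/GlueA. Replace the core `Co` of a solid torus `T ⊆ N` by `B`: links.

Let v be a vertex of (N \ Co) ∪ B. If v is a vertex of B or of Co, then the facets s ∈ N \ Co with
v ∈ s are in T: if v is a vertex of Co by (h1); if v is a vertex of B and of N then v is even (h2),
so a vertex of Co (h3). So lk v ((N \ Co) ∪ B) = lk v ((T \ Co) ∪ B): (h4), (h5). Otherwise no
facet of Co or B contains v, and lk v ((N \ Co) ∪ B) = lk v N.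
`lk_union`, `lk_eq_empty` are in DT70/Basic. -/

set_option autoImplicit false

namespace Pool.Agent.CC39

open Pool.Agent.DT70

private theorem lk_congr_of {v : ℕ} {X Y : Set (Finset ℕ)}
    (h : ∀ s, v ∈ s → (s ∈ X ↔ s ∈ Y)) : lk v X = lk v Y := by
  ext t
  constructor
  · rintro ⟨s, hs, hv, ht⟩
    exact ⟨s, (h s hv).1 hs, hv, ht⟩
  · rintro ⟨s, hs, hv, ht⟩
    exact ⟨s, (h s hv).2 hs, hv, ht⟩

theorem glueA {N T Co B : Set (Finset ℕ)} (hTN : T ⊆ N) (hCT : Co ⊆ T)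
    (h1 : ∀ s ∈ Co, ∀ v ∈ s, ∀ G ∈ N, v ∈ G → G ∈ T)
    (h2 : ∀ s ∈ N, ∀ v ∈ s, Even v)
    (h3 : ∀ t ∈ B, ∀ v ∈ t, Even v → ∃ s ∈ Co, v ∈ s)
    (h4 : ∀ t ∈ B, ∀ v ∈ t, LkOK false (lk v ((T \ Co) ∪ B)))
    (h5 : ∀ s ∈ Co, ∀ v ∈ s, LkOK false (lk v ((T \ Co) ∪ B)))
    (hN : Lks false N) : Lks false ((N \ Co) ∪ B) := by
  intro v hv
  by_cases hC : ∃ s ∈ Co, v ∈ s
  · obtain ⟨s, hs, hvs⟩ := hC
    have e : lk v ((N \ Co) ∪ B) = lk v ((T \ Co) ∪ B) := by
      apply lk_congr_of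
      intro G hG
      constructor
      · rintro (⟨hGN, hGC⟩ | hGB)
        · exact Or.inl ⟨h1 s hs v hvs G hGN hG, hGC⟩
        · exact Or.inr hGB
      · rintro (⟨hGT, hGC⟩ | hGB)
        · exact Or.inl ⟨hTN hGT, hGC⟩
        · exact Or.inr hGB
    rw [e]
    exact h5 s hs v hvs
  · by_cases hB : ∃ t ∈ B, v ∈ t
    · obtain ⟨t, ht, hvt⟩ := hB
      have hno : ∀ G ∈ N, v ∉ G := by
        intro G hG hvG
        exact hC (h3 t ht v hvt (h2 G hG v hvG))
      have e : lk v ((N \ Co) ∪ B) = lk v ((T \ Co) ∪ B) := by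
        apply lk_congr_of
        intro G hG
        constructor
        · rintro (⟨hGN, _⟩ | hGB)
          · exact absurd hG (hno G hGN)
          · exact Or.inr hGB
        · rintro (⟨hGT, hGC⟩ | hGB)
          · exact Or.inl ⟨hTN hGT, hGC⟩
          · exact Or.inr hGB
      rw [e]
      exact h4 t ht v hvt
    · have e : lk v ((N \ Co) ∪ B) = lk v N := by
        apply lk_congr_of
        intro G hG
        constructor
        · rintro (⟨hGN, _⟩ | hGB)
          · exact hGN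
          · exact absurd ⟨G, hGB, hG⟩ hB
        · intro hGN
          exact Or.inl ⟨hGN, fun hGC => hC ⟨G, hGC, hG⟩⟩
      rw [e]
      apply hN
      obtain ⟨s, hs, hvs⟩ := hv
      rcases hs with ⟨hsN, _⟩ | hsB
      · exact ⟨s, hsN, hvs⟩
      · exact absurd ⟨s, hsB, hvs⟩ hB

end Pool.Agent.CC39
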