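import Pool.Agent.CC39.Glue
import Pool.Agent.CC39.FamQ
import Pool.Agent.CC39.FamSpine
import Pool.Agent.CC39.FamTriv
import Pool.Agent.CC39.FamEss
import Pool.Agent.CC39.FamCode
import Pool.Agent.MK.Final2

/-! Module CC39/Main. The main theorem. -/

set_option autoImplicit false

namespace Pool.Agent.CC39

open Pool.Agent.DT70 Pool.Agent.MK Pool.Agent.MKD Pool.Agent.MKE

private theorem plh_trans {K L M : Code} (h : PLHomeo K L) (h' : PLHomeo L M) : PLHomeo K M := by
  obtain ⟨f, g, h⟩ := h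
  obtain ⟨f', g', h'⟩ := h'
  exact ⟨_, _, h.trans cls_pl h'⟩

private theorem computable_sh (N : ℕ) : Computable (sh (N := N)) := by
  refine Primrec.to_comp (Primrec.list_map Primrec.id ?_)
  exact Primrec₂.pair.comp₂ (Primrec.succ.comp ((Primrec.fin_val (n := N)).comp
    (Primrec.fst.comp Primrec.snd))).to₂ (Primrec.snd.comp Primrec.snd).to₂

theorem main :
    ∃ (p : ℕ → Prop) (Y : ℕ → Set P) (Y₀ : Set P) (C : ℕ → Code) (C₀ D : Code),
      (REPred p ∧ ∀ q : ℕ → Prop, REPred q → q ≤₀ p) ∧ Computable C ∧ Lists (Tor \ Core) D ∧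
      (∀ n, Spine (Y n) ∧ Lists (K (Y n ∪ TT) \ Core) (C n) ∧ (¬ p n → Essential (Y n))) ∧
      (Spine Y₀ ∧ Lists (K (Y₀ ∪ TT) \ Core) C₀ ∧ Trivial Y₀) ∧
      ∀ F F' : Code, Filler D F → Filler D F' → SameB D F F' →
        (∀ n, (Mfd false (C n ++ F) ∧ IsConnected (real (C n ++ F))) ∧
          (Mfd false (C n ++ F') ∧ IsConnected (real (C n ++ F'))) ∧
          Nonempty (real (C n ++ F) ≃ₜ real (C n ++ F')) ∧
          (p n → PLHomeo (C n ++ F) (C₀ ++ F) ∧ PLHomeo (C n ++ F') (C₀ ++ F'))) ∧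
        (PLHomeo (C₀ ++ F) (C₀ ++ F') → (∀ n, ¬ p n → ¬ PLHomeo (C n ++ F) (C n ++ F')) →
          (∀ n, PLHomeo (C n ++ F) (C n ++ F') ↔ p n) ∧ ¬ ∃ f, SolvesC f) := by
  obtain ⟨N, rels0, w, hfin, hw, hre, hcomp, hord⟩ := NB.novikov_boone
  set R : List (FreeGroup (Fin N)) := hfin.toFinset.toList with hR
  have hmem : ∀ r, r ∈ R ↔ r ∈ rels0 := by
    intro r
    rw [hR, Finset.mem_toList, Set.Finite.mem_toFinset]
  -- relators and words in the letters 1, ..., N
  set rels : List (List (ℕ × Bool)) := R.map (fun r => sh r.toWord) with hrels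
  set u : ℕ → List (ℕ × Bool) := fun n => sh (w n) with hu
  obtain ⟨C, hCc, hC⟩ := fam_codes N rels
  obtain ⟨D, hD⟩ := exists_collar
  have hlet : ∀ (a : List (Fin N × Bool)), ∀ x ∈ sh a, 1 ≤ x.1 ∧ x.1 ≤ N := by
    intro a x hx
    obtain ⟨x', -, rfl⟩ := List.mem_map.1 hx
    have := x'.1.isLt
    constructor
    · simp
    · simp only
      omega
  have hval : ∀ {G : Type} [Group G] (y : ℕ → G), (∀ r ∈ rels, val y r = 1) →
      ∀ r ∈ rels0, FreeGroup.lift (fun i : Fin N => y ((i : ℕ) + 1)) r = 1 := by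
    intro G _ y hy r hr
    have h1 := hy (sh r.toWord) (List.mem_map_of_mem ((hmem r).2 hr))
    rw [val_sh, FreeGroup.mk_toWord] at h1
    exact h1
  have hone : ∀ n, PresentedGroup.mk rels0 (FreeGroup.mk (w n)) = 1 →
      ∀ (G : Type) [Group G] (y : ℕ → G), (∀ r ∈ rels, val y r = 1) →
      val y (u n) = val y [] := by
    intro n hn G _ y hy
    have h3 := congrArg (PresentedGroup.toGroup (f := fun i : Fin N => y ((i : ℕ) + 1))
      (rels := rels0) (hval y hy)) hn
    rw [map_one] at h3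
    have h4 : val y (u n) = 1 := by
      rw [hu, val_sh]
      exact h3
    rw [h4]
    simp [val, ← FreeGroup.one_eq_mk]
  have hCu : Computable (fun n => C (u n)) := hCc.comp ((computable_sh N).comp hw)
  refine ⟨fun n => PresentedGroup.mk rels0 (FreeGroup.mk (w n)) = 1,
    fun n => fam N rels (u n) \ {dd}, fam N rels [] \ {dd}, fun n => C (u n), C [], D,
    ⟨hre, hcomp⟩, hCu, hD, ?_, ⟨fam_spine N rels [], hC [], fam_trivial N rels⟩, ?_⟩
  · intro n
    refine ⟨fam_spine N rels (u n), hC (u n), ?_⟩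
    intro hn
    have hw' := (hord n).resolve_left hn
    let y : ℕ → PresentedGroup rels0 :=
      fun j => if h : 1 ≤ j ∧ j ≤ N then PresentedGroup.of ⟨j - 1, by omega⟩ else 1
    have h5 : (FreeGroup.lift fun i : Fin N => y ((i : ℕ) + 1)) = PresentedGroup.mk rels0 := by
      ext i
      have hi := i.isLt
      simp only [FreeGroup.lift_apply_of]
      simp only [y]
      rw [dif_pos ⟨by omega, by omega⟩]
      rfl
    refine fam_essential N rels (u n) (by
      intro r hr
      obtain ⟨r', -, rfl⟩ := List.mem_map.1 hr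
      exact hlet _) (hlet _) y ?_ ?_
    · intro r hr
      obtain ⟨r', hr', rfl⟩ := List.mem_map.1 hr
      rw [val_sh, FreeGroup.mk_toWord, h5]
      exact PresentedGroup.one_of_mem ((hmem r').1 hr')
    · intro k hk
      rw [hu, val_sh, h5] at hk
      by_contra hk0
      exact hw' (isOfFinOrder_iff_zpow_eq_one.2 ⟨k, hk0, hk⟩)
  · intro F F' hF hF' hFF
    have key : ∀ n, (Mfd false (C (u n) ++ F) ∧ IsConnected (real (C (u n) ++ F))) ∧
        (Mfd false (C (u n) ++ F') ∧ IsConnected (real (C (u n) ++ F'))) ∧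
        Nonempty (real (C (u n) ++ F) ≃ₜ real (C (u n) ++ F')) ∧
        (PresentedGroup.mk rels0 (FreeGroup.mk (w n)) = 1 →
          PLHomeo (C (u n) ++ F) (C [] ++ F) ∧ PLHomeo (C (u n) ++ F') (C [] ++ F')) := by
      intro n
      have hY := fam_spine N rels (u n)
      have hY0 := fam_spine N rels []
      refine ⟨⟨glue_mfd hY (hC _) hD hF, glue_conn hY (hC _) hD hF⟩,
        ⟨glue_mfd hY (hC _) hD hF', glue_conn hY (hC _) hD hF'⟩,
        glue_homeo hY (hC _) hD hF hF' hFF, ?_⟩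
      intro hn
      have hfe := fam_feQ N rels (u n) [] (hone n hn)
      exact ⟨glue_pl hY hY0 (hC _) (hC _) hF hfe, glue_pl hY hY0 (hC _) (hC _) hF' hfe⟩
    refine ⟨key, ?_⟩
    intro h0 h1
    have hiff : ∀ n, PLHomeo (C (u n) ++ F) (C (u n) ++ F') ↔
        PresentedGroup.mk rels0 (FreeGroup.mk (w n)) = 1 := by
      intro n
      constructor
      · intro h2
        by_contra h3
        exact h1 n h3 h2
      · intro h2
        obtain ⟨h4, h5⟩ := (key n).2.2.2 h2
        exact plh_trans h4 (plh_trans h0 (PLHomeo_symm h5))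
    refine ⟨hiff, ?_⟩
    rintro ⟨f, hf, hsol⟩
    have hg : Computable (fun n => (C (u n) ++ F, C (u n) ++ F')) :=
      (Computable.list_append.comp hCu (Computable.const F)).pair
        (Computable.list_append.comp hCu (Computable.const F'))
    refine NB.not_computable_of_complete _ hcomp (decides hf hg fun n => ?_)
    obtain ⟨⟨m1, c1⟩, ⟨m2, c2⟩, hh, -⟩ := key n
    obtain ⟨d, hd, hd'⟩ := hsol _ _ m1 m2 c1 c2 hh
    exact ⟨d, hd, hd'.trans (hiff n)⟩

end Pool.Agent.CC39
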