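import Pool.Agent.CC39.Phi
import Pool.Agent.MKD.MoveG
import Pool.Agent.MKD.MoveC3

/-! Module CC39/MovesQ. The moves of MKD/MoveG and MKD/MoveC3 relative to the solid torus. -/

set_option autoImplicit false

namespace Pool.Agent.CC39

open Pool.Agent.DT70 Pool.Agent.MK Pool.Agent.MKD

private theorem nu39 {u v : ℤ} (h : nuP true u v) : u ≤ 2 := by
  unfold nuP at h
  simp only [true_and, Bool.true_eq_false, false_and, or_false] at h
  omega

private theorem mem_GG39 (s : ℕ) (I : Set ℤ) (c : P) : c ∈ tw (GG s) I ↔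
    ((arc s (c 0) (c 1) ∧ nuP true (c 4) (c 3)) ∨ (rect s (c 0) (c 1) ∧ c 4 = 2 ∧ c 3 = 2)) ∧
      c 2 ∈ I := by
  simp [tw, GG]

theorem dd0 : dd 0 = -3 := rfl
theorem dd1 : dd 1 = 0 := rfl
theorem dd2 : dd 2 = 1 := rfl
theorem dd3 : dd 3 = 2 := rfl
theorem dd4 : dd 4 = 2 := rfl

theorem move_GQ {m : ℕ} {rs : List Str} {s : ℕ} {j : ℤ} {T T' : Str} (h : NearG m rs s j T)
    (h' : NearG m rs s j T') (hlo : T'.lo = T.lo) (hhi : T'.hi = T.hi)
    (hcr : ∀ i, i ≠ j → i ≠ j + 1 → T'.cr i = T.cr i) (hpos : ∀ i, i ≠ j → T'.pos i = T.pos i)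
    (h1 : 1 ≤ T.hi) :
    FE Tor (K (Phi (XX m rs T))) (K (Phi (XX m rs T'))) := by
  have hd : dd ∉ tw (GG s) (Set.Icc (2 * j) (2 * j + 2)) := by
    rw [mem_GG39]
    rintro ⟨h1, -⟩
    rw [dd0, dd1] at h1
    unfold arc rect at h1
    omega
  have ht : ∀ q ∈ tw (GG s) (Set.Icc (2 * j) (2 * j + 2)), q 4 ≤ 2 := by
    intro q hq
    rw [mem_GG39] at hq
    rcases hq.1 with hq | hq
    · exact nu39 hq.2
    · omega
  have key : ∀ T'' : Str, NearG m rs s j T'' → 1 ≤ T''.hi → FE Tor (K (Phi (XX m rs T'')))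
      (K (Phi (XX m rs T'' ∪ tw (GG s) (Set.Icc (2 * j) (2 * j + 2))))) := by
    intro T'' h'' h1
    exact phi_excise (XX_prot h''.adm h1) rfl (col_inter h'') hd ht
  have hun : XX m rs T ∪ tw (GG s) (Set.Icc (2 * j) (2 * j + 2)) =
      XX m rs T' ∪ tw (GG s) (Set.Icc (2 * j) (2 * j + 2)) :=
    Set.Subset.antisymm (union_G h h' hlo hhi hcr hpos)
      (union_G h' h hlo.symm hhi.symm (fun i h1 h2 => (hcr i h1 h2).symm)
        (fun i h1 => (hpos i h1).symm))
  have h2 := key T h h1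
  have h3 := key T' h' (by omega)
  rw [← hun] at h3
  exact Relation.EqvGen.trans _ _ _ h2 (Relation.EqvGen.symm _ _ h3)

private theorem fls39 {r : Str} {c : P} (h : c ∈ disc false r) : c 4 ≤ 2 ∧ -2 ≤ c 0 := by
  have h7 : nuP false (c 4) (c 3) → c 3 = 0 ∧ 0 ≤ c 4 ∧ c 4 ≤ 2 := by
    unfold nuP
    simp
  have h8 : en false (c 4) (c 3) → c 3 = 0 ∧ 0 ≤ c 4 ∧ c 4 ≤ 2 := by
    unfold en
    simp
    omega
  have h9 : rt false = -2 := rfl
  rcases h with h | h | h | h | h | h | h | h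
  · have := h7 h.2.2.1
    omega
  · have := h7 h.2.2.1
    omega
  · have := h8 h.1
    omega
  · have := h8 h.1
    omega
  · have := h7 h.2.2.1
    omega
  · have := h7 h.2.2.2.1
    omega
  · obtain ⟨s, -, ha, hb⟩ := h
    have := h7 hb
    unfold arc at ha
    omega
  · obtain ⟨s, -, ha, hb⟩ := h
    have := h8 hb
    unfold rect at ha
    omega

private theorem R1_39 {r : Str} {c : P} (h : c ∈ R1 r) : c 4 ≤ 2 ∧ -2 ≤ c 0 :=
  ⟨nu39 h.2.2.2.1, h.2.1⟩

private theorem R2_39 {r : Str} {c : P} (h : c ∈ R2 r) : c 4 ≤ 2 ∧ -2 ≤ c 0 := by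
  have := fls39 h.1
  simpa [Function.update] using this

private theorem prot_XM {m : ℕ} {rs : List Str} {r T : Str} (h : Adm m rs T) (hr : r ∈ rs)
    (hb : Blank r T) (h1 : 1 ≤ T.hi) : Prot (XM m rs r T) := by
  have hp := XX_prot h h1
  have hin : ∀ c ∈ XX m rs T, c 0 ≤ -2 → c ∈ XM m rs r T := by
    intro c hc h2
    left
    refine ⟨hc, ?_⟩
    rintro ⟨h3, -⟩
    omega
  have hout : ∀ c ∈ XM m rs r T, c 0 < -2 → c ∈ XX m rs T := by
    rintro c (⟨hX, -⟩ | hC) h2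
    · exact hX
    · have := (R1_39 hC.1).2
      omega
  refine ⟨closed_XM h hr hb, hin _ hp.mem (by rw [dd0]; norm_num), ?_, ?_, ?_⟩
  · intro i hi
    have h2 := hp.free i hi
    have h0 : i ≠ 0 := by
      rintro rfl
      rw [dd0] at hi
      exact absurd hi (by decide)
    constructor
    · intro h3
      refine h2.1 (hout _ h3 ?_)
      have : (dd + e i) 0 = dd 0 := by simp [e, h0.symm]
      rw [this, dd0]
      norm_num
    · intro h3
      refine h2.2 (hout _ h3 ?_)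
      have : (dd - e i) 0 = dd 0 := by simp [e, h0.symm]
      rw [this, dd0]
      norm_num
  · intro q hq
    exact hin q (hp.ring hq) hq.2.2.2.2.1
  · rintro c (⟨hX, -⟩ | hC)
    · exact hp.top c hX
    · exact (R1_39 hC.1).1

theorem move_C3Q {m : ℕ} {rs : List Str} {r T T' : Str} (h : Adm m rs T) (h' : Adm m rs T')
    (hr : r ∈ rs) (hb : Blank r T) (hi : Ins r T T') (h1 : 1 ≤ T.hi) :
    FE Tor (K (Phi (XX m rs T))) (K (Phi (XX m rs T'))) := by
  have ho := h.okr r hr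
  have hd1 : dd ∉ R1 r := by
    intro h2
    have := (R1_39 h2).2
    rw [dd0] at this
    omega
  have hd2 : dd ∉ R2 r := by
    intro h2
    have := (R2_39 h2).2
    rw [dd0] at this
    omega
  have ht1 : ∀ q ∈ R1 r, q 4 ≤ 2 := fun q hq => (R1_39 hq).1
  have ht2 : ∀ q ∈ R2 r, q 4 ≤ 2 := fun q hq => (R2_39 hq).1
  have hM := prot_XM h hr hb h1
  have s1 := phi_excise (XX_prot h h1) (inter_R1 h hr hb) (col_R1_C0 r) hd1 ht1
  have s2 := phi_excise hM (inter_XM_R1 h hr hb) (col_R1_C1 r) hd1 ht1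
  rw [union_R1 h hr hb] at s2
  have s3 := phi_excise hM (inter_XM_R2 h hr hb) (col_R2_CA m r ho) hd2 ht2
  rw [union_R2 h h' hr hb hi] at s3
  have s4 := phi_excise (XX_prot h' (by rw [hi.hi]; exact h1)) (inter_R2 h h' hr hb hi)
    (col_R2_CB m r ho) hd2 ht2
  exact Relation.EqvGen.trans _ _ _ s1 (Relation.EqvGen.trans _ _ _
    (Relation.EqvGen.symm _ _ s2) (Relation.EqvGen.trans _ _ _ s3
      (Relation.EqvGen.symm _ _ s4)))

end Pool.Agent.CC39
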