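import Pool.Agent.CC39.Handle
import Pool.Agent.CC39.TorSub
import Pool.Agent.CC39.FamSpine

/-! Module CC39/Phi. Remove the square `dd`, attach the handle; excision relative to the solid
torus. -/

set_option autoImplicit false

namespace Pool.Agent.CC39

open Pool.Agent.DT70 Pool.Agent.MK Pool.Agent.MKD

/-- The centre of the removed square. -/
def dd : P := pt (-3) 0 1 2 2

/-- Remove the square, attach the handle. -/
def Phi (X : Set P) : Set P := (X \ {dd}) ∪ TT

/-- The square is a cell and not a face of another cell, the ring is present, everything is in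
the half space `c 4 ≤ 2`. -/
structure Prot (X : Set P) : Prop where
  closed : Closed X
  mem : dd ∈ X
  free : ∀ i, Even (dd i) → dd + e i ∉ X ∧ dd - e i ∉ X
  ring : Q ⊆ X
  top : ∀ q ∈ X, q 4 ≤ 2

theorem Prot.sdiff {X : Set P} (h : Prot X) : Closed (X \ {dd}) := by
  rintro c ⟨hc, hd⟩ i hi
  rw [Set.mem_singleton_iff] at hd
  have h1 := h.closed c hc i hi
  refine ⟨⟨h1.1, ?_⟩, ⟨h1.2, ?_⟩⟩
  · rw [Set.mem_singleton_iff]
    intro h2
    have h3 : c = dd - e i := by rw [← h2]; simp
    have h4 : Even (dd i) := by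
      rw [← h2]
      have : (c + e i) i = c i + 1 := by simp [e]
      rw [this]
      exact hi.add_odd odd_one
    exact (h.free i h4).2 (h3 ▸ hc)
  · rw [Set.mem_singleton_iff]
    intro h2
    have h3 : c = dd + e i := by rw [← h2]; simp
    have h4 : Even (dd i) := by
      rw [← h2]
      have : (c - e i) i = c i - 1 := by simp [e]
      rw [this]
      exact hi.sub_odd odd_one
    exact (h.free i h4).1 (h3 ▸ hc)

theorem Prot.phi {X : Set P} (h : Prot X) : Closed (Phi X) := closed_union h.sdiff closed_TT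

theorem dd_Q : dd ∉ Q := by
  intro h
  simp only [Q, Set.mem_ofPred_eq, dd, pt] at h
  simp at h

theorem phi_top {X : Set P} (h : ∀ q ∈ X, q 4 ≤ 2) : ∀ q ∈ Phi X, q 4 ≤ 6 := by
  rintro q (h1 | h1)
  · have := h q h1.1
    omega
  · simp only [TT, Set.mem_ofPred_eq] at h1
    omega

/-- Excision relative to the solid torus. -/
theorem phi_excise {X R C : Set P} (hX : Prot X) (hC : X ∩ R = C) (h : Col R C) (hd : dd ∉ R)
    (ht : ∀ q ∈ R, q 4 ≤ 2) : FE Tor (K (Phi X)) (K (Phi (X ∪ R))) := by
  have e1 : Phi (X ∪ R) = Phi X ∪ R := by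
    unfold Phi
    ext q
    simp only [Set.mem_union, Set.mem_sdiff, Set.mem_singleton_iff]
    constructor
    · rintro (⟨h1 | h1, h2⟩ | h1)
      · exact Or.inl (Or.inl ⟨h1, h2⟩)
      · exact Or.inr h1
      · exact Or.inl (Or.inr h1)
    · rintro ((⟨h1, h2⟩ | h1) | h1)
      · exact Or.inl ⟨Or.inl h1, h2⟩
      · exact Or.inr h1
      · refine Or.inl ⟨Or.inr h1, ?_⟩
        rintro rfl
        exact hd h1
  rw [e1]
  refine exciseS hX.phi ?_ h ?_
  · rw [← hC]
    apply Set.Subset.antisymm
    · rintro q ⟨h1 | h1, h2⟩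
      · exact ⟨h1.1, h2⟩
      · exact ⟨hX.ring (TT_le h1 (ht q h2)), h2⟩
    · rintro q ⟨h1, h2⟩
      refine ⟨Or.inl ⟨h1, ?_⟩, h2⟩
      rintro rfl
      exact hd h2
  · intro Z h1 h2
    refine tor_sub (Set.subset_union_right.trans h1) ?_
    intro q hq
    rcases h2 hq with h3 | h3
    · exact phi_top hX.top q h3
    · have := ht q h3
      omega

theorem XX_prot {m : ℕ} {rs : List Str} {T : Str} (h : Adm m rs T) (h1 : 1 ≤ T.hi) :
    Prot (XX m rs T) where
  closed := closed_XX m rs T h
  mem := (XX_ring m rs T h.zero.1 h1).2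
  free := XX_free m rs T
  ring := (XX_ring m rs T h.zero.1 h1).1
  top := XX_top m rs T

end Pool.Agent.CC39
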