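import Pool.Agent.CC39.Defs
import Pool.Agent.MKD.Slab

/-! Module CC39/SlabS. `slab_fe` and `Col.excise` of MKD/Slab relative to an arbitrary set of
facets `S₀`. -/

set_option autoImplicit false

namespace Pool.Agent.CC39

open Pool.Agent.DT70 Pool.Agent.MK Pool.Agent.MKD

private theorem sm_app (δ : ℤ) (j k : Fin 5) : (δ • e j) k = if k = j then δ else 0 := by
  simp [e]

private theorem add_app (c : P) (δ : ℤ) (j k : Fin 5) :
    (c + δ • e j) k = c k + if k = j then δ else 0 := by
  rw [Pi.add_apply, sm_app]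

private theorem cl_step {X : Set P} (hX : Closed X) {q : P} (hq : q ∈ X) {k : Fin 5} {δ : ℤ}
    (hk : Odd (q k)) (hδ : δ = 1 ∨ δ = -1) : q + δ • e k ∈ X := by
  rcases hδ with rfl | rfl
  · rw [one_smul]; exact (hX q hq k hk).1
  · rw [neg_smul, one_smul, ← sub_eq_add_neg]; exact (hX q hq k hk).2

private theorem odd_unit {δ : ℤ} (hδ : δ = 1 ∨ δ = -1) : Odd δ := by
  rcases hδ with rfl | rfl <;> decide

private theorem slab_aux (S₀ : Set (Finset P)) : ∀ n : ℕ, ∀ R R' : Set P, SlabStep R R' →
    (R \ R').ncard = n → (∀ Z, R' ⊆ Z → Z ⊆ R → S₀ ⊆ K Z) → FE S₀ (K R') (K R) := by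
  intro n
  induction n using Nat.strong_induction_on with
  | _ n IH =>
  intro R R' hS hn h1
  obtain ⟨hR, hR', hsub, hfin, l, ε, hε, htog⟩ := hS
  have hodd : Odd ε := odd_unit hε
  have hεε : ε * ε = 1 := by rcases hε with rfl | rfl <;> norm_num
  have hε' : (-ε) = 1 ∨ (-ε) = -1 := by rcases hε with rfl | rfl <;> norm_num
  by_cases hemp : R \ R' = ∅
  · have : R = R' := by
      apply Set.Subset.antisymm _ hsub
      rwa [Set.sdiff_eq_empty] at hemp
    rw [this]
    exact Relation.EqvGen.refl _
  -- choose f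
  obtain ⟨c0, hc0⟩ := Set.nonempty_iff_ne_empty.2 hemp
  have hne : {f ∈ R \ R' | Even (f l)}.Nonempty := by
    by_cases h : Even (c0 l)
    · exact ⟨c0, hc0, h⟩
    · have ho : Odd (c0 l) := by rwa [Int.not_even_iff_odd] at h
      refine ⟨c0 - ε • e l, (htog c0 hc0).2 ho, ?_⟩
      have : (c0 - ε • e l) l = c0 l - ε := by
        rw [Pi.sub_apply, sm_app, if_pos rfl]
      rw [this]
      exact ho.sub_odd hodd
  obtain ⟨f, ⟨hfD, hfe⟩, hmin⟩ := Set.exists_min_image {f ∈ R \ R' | Even (f l)}
    (fun f => 10 * (ε * f l) - ((dirs f).card : ℤ)) (hfin.subset (Set.sep_subset _ _)) hne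
  have hcard5 : ∀ g : P, ((dirs g).card : ℤ) ≤ 5 := by
    intro g
    have := Finset.card_le_univ (dirs g)
    simp only [Fintype.card_fin] at this
    exact_mod_cast this
  have hcard0 : ∀ g : P, (0 : ℤ) ≤ ((dirs g).card : ℤ) := fun g => Int.natCast_nonneg _
  obtain ⟨b, hb⟩ : ∃ b, b = f + ε • e l := ⟨_, rfl⟩
  have hbD : b ∈ R \ R' := by rw [hb]; exact (htog f hfD).1 hfe
  have hbl : b l = f l + ε := by rw [hb, add_app, if_pos rfl]
  have hbodd : Odd (b l) := by rw [hbl]; exact hfe.add_odd hodd
  have hfb : f = b + (-ε) • e l := by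
    rw [hb]; funext k; simp only [add_app]; split_ifs <;> ring
  -- f is free
  have hfree : ∀ (i : Fin 5) (δ : ℤ), (δ = 1 ∨ δ = -1) → Even (f i) → f + δ • e i ∈ R →
      f + δ • e i = b := by
    intro i δ hδ hei hg
    have hgodd : Odd ((f + δ • e i) i) := by
      rw [add_app, if_pos rfl]; exact hei.add_odd (odd_unit hδ)
    have hgD : f + δ • e i ∈ R \ R' := by
      refine ⟨hg, fun hg' => ?_⟩
      have hδ' : (-δ) = 1 ∨ (-δ) = -1 := by rcases hδ with rfl | rfl <;> norm_num
      have := cl_step hR' hg' hgodd hδ'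
      have h3 : f + δ • e i + (-δ) • e i = f := by
        funext k; simp only [add_app]; split_ifs <;> ring
      rw [h3] at this
      exact hfD.2 this
    by_cases hil : i = l
    · subst hil
      by_cases hde : δ = ε
      · rw [hde, hb]
      · exfalso
        have hde' : δ = -ε := by
          rcases hδ with h | h <;> rcases hε with h' | h'
          · exact absurd (h.trans h'.symm) hde
          · rw [h, h']; norm_num
          · rw [h, h']
          · exact absurd (h.trans h'.symm) hde
        have h3 := (htog _ hgD).2 hgodd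
        have h4 : (f + δ • e i - ε • e i) i = f i - 2 * ε := by
          rw [Pi.sub_apply, add_app, sm_app, if_pos rfl, if_pos rfl, hde']; ring
        have h5 : Even ((f + δ • e i - ε • e i) i) := by
          rw [h4]; exact hei.sub (even_two_mul ε)
        have h6 := hmin _ ⟨h3, h5⟩
        rw [h4] at h6
        have h7 := hcard5 f
        have h8 := hcard0 (f + δ • e i - ε • e i)
        have h9 : ε * (f i - 2 * ε) = ε * f i - 2 := by
          rw [mul_sub, mul_left_comm, hεε]; ring
        rw [h9] at h6
        linarith [hcard5 (f + δ • e i - ε • e i)]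
    · exfalso
      have h3 : (f + δ • e i) l = f l := by
        rw [add_app, if_neg (fun h => hil h.symm), add_zero]
      have h4 := hmin _ ⟨hgD, by rw [h3]; exact hfe⟩
      rw [h3] at h4
      have h5 : dirs (f + δ • e i) = insert i (dirs f) := by
        ext k
        simp only [dirs, Finset.mem_filter, Finset.mem_univ, true_and, Finset.mem_insert]
        rw [add_app]
        by_cases hk : k = i
        · subst hk
          simp only [if_true, true_or, iff_true]
          exact hei.add_odd (odd_unit hδ)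
        · simp [hk]
      have h6 : i ∉ dirs f := by
        simp only [dirs, Finset.mem_filter, Finset.mem_univ, true_and]
        rwa [Int.not_odd_iff_even]
      have h7 : (dirs (f + δ • e i)).card = (dirs f).card + 1 := by
        rw [h5, Finset.card_insert_of_notMem h6]
      rw [h7] at h4
      push_cast at h4
      linarith
  have hfneb : f ≠ b := by
    intro h
    have := congrFun h l
    rw [hbl] at this
    rcases hε with rfl | rfl <;> omega
  obtain ⟨X, hXdef⟩ : ∃ X : Set P, X = R \ {b, f} := ⟨_, rfl⟩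
  have memX : ∀ c, c ∈ X ↔ c ∈ R ∧ c ≠ b ∧ c ≠ f := by
    intro c; rw [hXdef]; simp
  have hXcl' : ∀ c ∈ X, ∀ i, Odd (c i) → ∀ δ : ℤ, (δ = 1 ∨ δ = -1) → c + δ • e i ∈ X := by
    intro c hc i hi δ hδ
    obtain ⟨hcR, hcb, hcf⟩ := (memX c).1 hc
    have hδ' : (-δ) = 1 ∨ (-δ) = -1 := by rcases hδ with rfl | rfl <;> norm_num
    rw [memX]
    have hback : ∀ d, c + δ • e i = d → c = d + (-δ) • e i := by
      intro d h; rw [← h]; funext k; simp only [add_app]; split_ifs <;> ring
    refine ⟨cl_step hR hcR hi hδ, ?_, ?_⟩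
    · intro h
      have hc' := hback b h
      have hbi : Even (b i) := by
        rw [← h, add_app, if_pos rfl]; exact hi.add_odd (odd_unit hδ)
      have hil : i ≠ l := by
        rintro rfl
        exact (Int.not_odd_iff_even.2 hbi) hbodd
      have hfi : f i = b i := by rw [hb, add_app, if_neg hil, add_zero]
      have hcl : Odd (c l) := by
        rw [hc', add_app, if_neg (Ne.symm hil), add_zero]; exact hbodd
      have h3 := cl_step hR hcR hcl hε'
      have h4 : c + (-ε) • e l = f + (-δ) • e i := by
        rw [hc', hfb]; funext k; simp only [add_app]; ring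
      rw [h4] at h3
      have h5 := hfree i (-δ) hδ' (by rw [hfi]; exact hbi) h3
      have h6 := congrFun h5 l
      rw [add_app, if_neg (Ne.symm hil), add_zero, hbl] at h6
      rcases hε with rfl | rfl <;> omega
    · intro h
      have hc' := hback f h
      have hfi : Even (f i) := by
        rw [← h, add_app, if_pos rfl]; exact hi.add_odd (odd_unit hδ)
      rw [hc'] at hcb hcR
      exact hcb (hfree i (-δ) hδ' hfi hcR)
  have hXcl : Closed X := by
    intro c hc i hi
    refine ⟨?_, ?_⟩
    · have := hXcl' c hc i hi 1 (Or.inl rfl)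
      rwa [one_smul] at this
    · have := hXcl' c hc i hi (-1) (Or.inr rfl)
      rwa [neg_smul, one_smul, ← sub_eq_add_neg] at this
  have hU : X ∪ {b, b + (-ε) • e l} = R := by
    rw [← hfb, hXdef]
    ext c
    simp only [Set.mem_union, Set.mem_sdiff, Set.mem_insert_iff, Set.mem_singleton_iff]
    constructor
    · rintro (h | rfl | rfl)
      · exact h.1
      · exact hbD.1
      · exact hfD.1
    · intro h
      by_cases h' : c = b ∨ c = f
      · exact Or.inr h'
      · exact Or.inl ⟨h, h'⟩
  have hXR : X ⊆ R := by rw [hXdef]; exact Set.sdiff_subset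
  have hR'X : R' ⊆ X := by
    intro c hc
    rw [memX]
    refine ⟨hsub hc, ?_, ?_⟩
    · rintro rfl; exact hbD.2 hc
    · rintro rfl; exact hfD.2 hc
  have hE : FE S₀ (K X) (K R) := by
    have := expand hXcl (b := b) (i := l) (ε := -ε) hε' hbodd ?_ ?_ (S₀ := S₀) ?_ ?_
    · rwa [hU] at this
    · rw [← hfb, memX]; tauto
    · intro j hj δ hδ hor
      rw [memX]
      refine ⟨cl_step hR hbD.1 hj hδ, ?_, ?_⟩
      · intro h
        have := congrFun h j
        rw [add_app, if_pos rfl] at this
        rcases hδ with rfl | rfl <;> omega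
      · intro h
        rw [hfb] at h
        have h3 := congrFun h j
        rw [add_app, add_app, if_pos rfl] at h3
        by_cases hjl : j = l
        · rw [if_pos hjl] at h3
          rcases hor with h4 | h4
          · exact h4 hjl
          · exact h4 (by linarith)
        · rw [if_neg hjl] at h3
          rcases hδ with rfl | rfl <;> omega
    · exact h1 X hR'X hXR
    · rw [hU]
      exact h1 R hsub subset_rfl
  have hfin' : (X \ R').Finite := hfin.subset (Set.sdiff_subset_sdiff_left hXR)
  have hS' : SlabStep X R' := by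
    refine ⟨hXcl, hR', hR'X, hfin', l, ε, hε, ?_⟩
    intro c hc
    obtain ⟨hcR, hcb, hcf⟩ := (memX c).1 hc.1
    have hcD : c ∈ R \ R' := ⟨hcR, hc.2⟩
    constructor
    · intro hev
      have h3 := (htog c hcD).1 hev
      refine ⟨(memX _).2 ⟨h3.1, ?_, ?_⟩, h3.2⟩
      · intro h
        apply hcf
        rw [hb] at h
        exact add_right_cancel h
      · intro h
        have h4 := congrFun h l
        rw [add_app, if_pos rfl] at h4
        rw [← h4] at hfe
        exact (Int.not_odd_iff_even.2 hfe) (hev.add_odd hodd)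
    · intro hod
      have h3 := (htog c hcD).2 hod
      refine ⟨(memX _).2 ⟨h3.1, ?_, ?_⟩, h3.2⟩
      · intro h
        have h4 := congrFun h l
        rw [Pi.sub_apply, sm_app, if_pos rfl] at h4
        rw [← h4] at hbodd
        exact (Int.not_odd_iff_even.2 (hod.sub_odd hodd)) hbodd
      · intro h
        apply hcb
        rw [hb, ← h]
        funext k
        simp
  have hlt : (X \ R').ncard < n := by
    rw [← hn]
    apply Set.ncard_lt_ncard _ hfin
    refine ⟨Set.sdiff_subset_sdiff_left hXR, fun h => ?_⟩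
    have := h hbD
    exact ((memX b).1 this.1).2.1 rfl
  exact Relation.EqvGen.trans _ _ _
    (IH _ hlt X R' hS' rfl (fun Z hZ hZ' => h1 Z hZ (hZ'.trans hXR))) hE

theorem slabS {R R' : Set P} (h : SlabStep R R') {S₀ : Set (Finset P)}
    (h1 : ∀ Z, R' ⊆ Z → Z ⊆ R → S₀ ⊆ K Z) : FE S₀ (K R') (K R) :=
  slab_aux S₀ _ R R' h rfl h1

theorem exciseS {X R C : Set P} (hX : Closed X) (hC : X ∩ R = C) (h : Col R C)
    {S₀ : Set (Finset P)} (h1 : ∀ Z, X ⊆ Z → Z ⊆ X ∪ R → S₀ ⊆ K Z) :
    FE S₀ (K X) (K (X ∪ R)) := by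
  induction h with
  | refl R =>
    have : X ∪ R = X := by
      rw [Set.union_eq_left]
      rw [← hC]
      exact Set.inter_subset_left
    rw [this]
    exact Relation.EqvGen.refl _
  | @step R R' C h h' ih =>
    have hCR' := Col.subset h'
    have hC' : X ∩ R' = C := by
      apply Set.Subset.antisymm
      · rw [← hC]
        exact Set.inter_subset_inter_right X h.2.2.1
      · intro c hc
        exact ⟨(hC ▸ hc : c ∈ X ∩ R).1, hCR' hc⟩
    have hsub : X ∪ R' ⊆ X ∪ R := Set.union_subset_union_right X h.2.2.1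
    have ih' := ih hC' (fun Z hZ hZ' => h1 Z hZ (hZ'.trans hsub))
    have hdiff : (X ∪ R) \ (X ∪ R') = R \ R' := by
      ext c
      constructor
      · rintro ⟨h3 | h3, h4⟩
        · exact absurd (Or.inl h3) h4
        · exact ⟨h3, fun h5 => h4 (Or.inr h5)⟩
      · rintro ⟨h3, h4⟩
        refine ⟨Or.inr h3, ?_⟩
        rintro (h5 | h5)
        · exact h4 (hCR' (hC ▸ ⟨h5, h3⟩))
        · exact h4 h5
    obtain ⟨a1, a2, a3, a4, l, ε, hε, ht⟩ := h
    have hstep : SlabStep (X ∪ R) (X ∪ R') :=
      ⟨closed_union hX a1, closed_union hX a2, hsub, by rw [hdiff]; exact a4, l, ε, hε, by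
        rw [hdiff]; exact ht⟩
    exact Relation.EqvGen.trans _ _ _ ih'
      (slabS hstep (fun Z hZ hZ' => h1 Z (Set.subset_union_left.trans hZ) hZ'))

end Pool.Agent.CC39
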