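import Pool.Agent.CC39.ListQ
import Pool.Agent.MKD.WordEq

/-! Module CC39/WordQ. The state depends only on the list of crossings without blanks (MKD/WordEq),
relative to the solid torus. -/

set_option autoImplicit false

namespace Pool.Agent.CC39

open Pool.Agent.DT70 Pool.Agent.MK Pool.Agent.MKD Pool.Agent.MKD.WordEq

variable {m : ℕ} {rl : List (List ℕ)}

namespace WordQ

theorem EEQ.rfl' {lo : ℤ} {W : List ℕ} : EEQ m rl lo W lo W := Relation.EqvGen.refl _

theorem EEQ.symm {lo lo' : ℤ} {W W' : List ℕ} (h : EEQ m rl lo W lo' W') :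
    EEQ m rl lo' W' lo W := Relation.EqvGen.symm _ _ h

theorem EEQ.trans {lo lo' lo'' : ℤ} {W W' W'' : List ℕ} (h : EEQ m rl lo W lo' W')
    (h' : EEQ m rl lo' W' lo'' W'') : EEQ m rl lo W lo'' W'' := Relation.EqvGen.trans _ _ _ h h'

/-- A crossing moves up through blanks. -/
theorem shift_zerosQ (hr : ∀ ρ ∈ rl, WOK m ρ) {lo : ℤ} {s : ℕ} (C : List ℕ) (k : ℕ) :
    ∀ A : List ℕ, WOK m (A ++ (s + 1) :: (List.replicate k 0 ++ C)) →
      FitsQ rl lo (A ++ (s + 1) :: (List.replicate k 0 ++ C)).length →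
      EEQ m rl lo (A ++ (s + 1) :: (List.replicate k 0 ++ C)) lo
        (A ++ (List.replicate k 0 ++ (s + 1) :: C)) := by
  induction k with
  | zero => intro A _ _; exact EEQ.rfl'
  | succ k ih =>
    intro A hA hf
    have h1 : EEQ m rl lo (A ++ (s + 1) :: 0 :: (List.replicate k 0 ++ C)) lo
        (A ++ 0 :: (s + 1) :: (List.replicate k 0 ++ C)) := E_shiftQ hr hA hf
    have e : A ++ 0 :: (s + 1) :: (List.replicate k 0 ++ C) =
        (A ++ [0]) ++ (s + 1) :: (List.replicate k 0 ++ C) := by simp
    have h2 := ih (A ++ [0]) (wok_of_nz (by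
      simp [nz_append, nz_zero, nz_succ, List.replicate_succ]) hA) (by
        convert hf using 1
        simp only [List.length_append, List.length_cons, List.length_replicate, List.length_nil]
        omega)
    rw [← e] at h2
    have e' : A ++ (List.replicate (k + 1) 0 ++ (s + 1) :: C) =
        (A ++ [0]) ++ (List.replicate k 0 ++ (s + 1) :: C) := by simp [List.replicate_succ]
    rw [e']
    exact EEQ.trans h1 h2

/-- The blanks of the second part move down. -/
theorem sortQ (hr : ∀ ρ ∈ rl, WOK m ρ) {lo : ℤ} : ∀ (B A : List ℕ), WOK m (A ++ B) →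
    FitsQ rl lo (A ++ B).length →
    EEQ m rl lo (A ++ B) lo
      (A ++ (List.replicate (B.length - (nz B).length) 0 ++ nz B)) := by
  intro B
  induction B with
  | nil => intro A _ _; exact EEQ.rfl'
  | cons b B ih =>
    intro A hA hf
    have hle : (nz B).length ≤ B.length := List.length_filter_le _ _
    have e : ∀ X : List ℕ, A ++ b :: X = (A ++ [b]) ++ X := fun X => by simp
    have h1 := ih (A ++ [b]) (by rw [← e]; exact hA) (by rw [← e]; exact hf)
    rw [← e, ← e] at h1
    rcases Nat.eq_zero_or_pos b with rfl | hb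
    · have e2 : A ++ (List.replicate ((0 :: B).length - (nz (0 :: B)).length) 0 ++ nz (0 :: B)) =
          A ++ 0 :: (List.replicate (B.length - (nz B).length) 0 ++ nz B) := by
        rw [nz_zero, List.length_cons, Nat.succ_sub hle, List.replicate_succ]
        rfl
      rw [e2]
      exact h1
    · obtain ⟨s, rfl⟩ := Nat.exists_eq_succ_of_ne_zero hb.ne'
      have e2 : A ++ (List.replicate (((s + 1) :: B).length - (nz ((s + 1) :: B)).length) 0 ++
          nz ((s + 1) :: B)) =
          A ++ (List.replicate (B.length - (nz B).length) 0 ++ (s + 1) :: nz B) := by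
        rw [nz_succ, List.length_cons, List.length_cons, Nat.succ_sub_succ]
      rw [e2]
      refine EEQ.trans h1 (shift_zerosQ hr (nz B) _ A (wok_of_nz ?_ hA) ?_)
      · simp only [nz_append, nz_succ, nz_zeros, nz_nz, List.nil_append]
      · convert hf using 1
        simp only [List.length_append, List.length_cons, List.length_replicate]
        omega

theorem same_lengthQ (hr : ∀ ρ ∈ rl, WOK m ρ) {lo : ℤ} {W W' : List ℕ} (h : WOK m W)
    (h' : WOK m W') (hf : FitsQ rl lo W.length) (hl : W.length = W'.length)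
    (hn : nz W = nz W') : EEQ m rl lo W lo W' := by
  have h1 := sortQ hr W [] h hf
  have h2 := sortQ hr W' [] h' (by rw [List.nil_append, ← hl]; exact hf)
  rw [← hl, ← hn] at h2
  exact EEQ.trans h1 (EEQ.symm h2)

theorem fits_topQ {lo : ℤ} {n : ℕ} (h : FitsQ rl lo n) (k : ℕ) : FitsQ rl lo (n + k) := by
  obtain ⟨⟨h1, h2⟩, h3⟩ := h
  refine ⟨⟨h1, ?_⟩, ?_⟩ <;> push_cast <;> omega

theorem fits_botQ {lo : ℤ} {n : ℕ} (h : FitsQ rl lo n) (k : ℕ) : FitsQ rl (lo - k) (n + k) := by
  obtain ⟨⟨h1, h2⟩, h3⟩ := h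
  refine ⟨⟨?_, ?_⟩, ?_⟩ <;> push_cast <;> omega

theorem topQ (hr : ∀ ρ ∈ rl, WOK m ρ) {lo : ℤ} {W : List ℕ} (h : WOK m W)
    (hf : FitsQ rl lo W.length) (k : ℕ) : EEQ m rl lo W lo (W ++ List.replicate k 0) := by
  induction k with
  | zero => rw [List.replicate_zero, List.append_nil]; exact EEQ.rfl'
  | succ k ih =>
    have h1 : EEQ m rl lo (W ++ List.replicate k 0) lo ((W ++ List.replicate k 0) ++ [0]) := by
      refine E_topQ hr (wok_of_nz ?_ h) ?_
      · rw [nz_append, nz_zeros, List.append_nil]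
      · rw [List.length_append, List.length_replicate]
        exact fits_topQ hf k
    rw [List.append_assoc, ← List.replicate_succ'] at h1
    exact EEQ.trans ih h1

theorem botQ (hr : ∀ ρ ∈ rl, WOK m ρ) {lo : ℤ} {W : List ℕ} (h : WOK m W)
    (hf : FitsQ rl lo W.length) (k : ℕ) : EEQ m rl lo W (lo - k) (List.replicate k 0 ++ W) := by
  induction k with
  | zero => simp only [List.replicate_zero, List.nil_append, Nat.cast_zero, sub_zero]; exact EEQ.rfl'
  | succ k ih =>
    have h1 : EEQ m rl (lo - k) (List.replicate k 0 ++ W) (lo - k - 1)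
        (0 :: (List.replicate k 0 ++ W)) := by
      refine E_botQ hr (wok_of_nz ?_ h) ?_
      · rw [nz_append, nz_zeros, List.nil_append]
      · rw [List.length_append, List.length_replicate, add_comm]
        exact fits_botQ hf k
    have e : lo - ((k + 1 : ℕ) : ℤ) = lo - k - 1 := by push_cast; ring
    rw [e, List.replicate_succ]
    exact EEQ.trans ih h1

end WordQ

open WordQ

theorem EE_of_nzQ (hr : ∀ ρ ∈ rl, WOK m ρ) {lo lo' : ℤ} {W W' : List ℕ} (h : WOK m W)
    (h' : WOK m W') (hf : FitsQ rl lo W.length) (hf' : FitsQ rl lo' W'.length) (hn : nz W = nz W') :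
    EEQ m rl lo W lo' W' := by
  -- the common bottom
  obtain ⟨a, a', ha⟩ : ∃ a a' : ℕ, lo - a = lo' - a' := by
    rcases le_total lo lo' with hl | hl
    · exact ⟨0, (lo' - lo).toNat, by push_cast; omega⟩
    · exact ⟨(lo - lo').toNat, 0, by push_cast; omega⟩
  have wz : ∀ {V : List ℕ} (k : ℕ), WOK m V → WOK m (List.replicate k 0 ++ V) := fun k hV =>
    wok_of_nz (by rw [nz_append, nz_zeros, List.nil_append]) hV
  have wz' : ∀ {V : List ℕ} (k : ℕ), WOK m V → WOK m (V ++ List.replicate k 0) := fun k hV =>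
    wok_of_nz (by rw [nz_append, nz_zeros, List.append_nil]) hV
  have e1 := botQ hr h hf a
  have e1' := botQ hr h' hf' a'
  have f1 : FitsQ rl (lo - a) (List.replicate a 0 ++ W).length := by
    rw [List.length_append, List.length_replicate, add_comm]
    exact fits_botQ hf a
  have f1' : FitsQ rl (lo' - a') (List.replicate a' 0 ++ W').length := by
    rw [List.length_append, List.length_replicate, add_comm]
    exact fits_botQ hf' a'
  have e2 := topQ hr (wz a h) f1 (a' + W'.length)
  have e2' := topQ hr (wz a' h') f1' (a + W.length)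
  rw [← ha] at e1' e2'
  refine EEQ.trans e1 (EEQ.trans e2 (EEQ.trans ?_ (EEQ.symm (EEQ.trans e1' e2'))))
  refine same_lengthQ hr (wz' _ (wz _ h)) (wz' _ (wz _ h')) ?_ ?_ ?_
  · rw [List.length_append, List.length_replicate]
    exact fits_topQ f1 _
  · simp only [List.length_append, List.length_replicate]
    omega
  · simp only [nz_append, nz_zeros, List.nil_append, List.append_nil, hn]

/-- Equivalence of lists of crossings. -/
def CEQ (m : ℕ) (rl : List (List ℕ)) (c c' : List ℕ) : Prop :=
  ∀ (lo lo' : ℤ) (W W' : List ℕ), WOK m W → WOK m W' → FitsQ rl lo W.length →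
    FitsQ rl lo' W'.length → nz W = nz c → nz W' = nz c' → EEQ m rl lo W lo' W'

theorem CE_reflQ (hr : ∀ ρ ∈ rl, WOK m ρ) (c : List ℕ) : CEQ m rl c c :=
  fun _ _ _ _ h h' hf hf' hn hn' => EE_of_nzQ hr h h' hf hf' (hn.trans hn'.symm)

theorem CE_symmQ {c c' : List ℕ} (h : CEQ m rl c c') : CEQ m rl c' c :=
  fun lo lo' W W' hW hW' hf hf' hn hn' => EEQ.symm (h lo' lo W' W hW' hW hf' hf hn' hn)

theorem CE_transQ {c c' c'' : List ℕ} (hc : WOK m c') (h : CEQ m rl c c')
    (h' : CEQ m rl c' c'') : CEQ m rl c c'' := by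
  intro lo lo' W W' hW hW' hf hf' hn hn'
  have e : nz (c' ++ List.replicate (lenR rl) 0) = nz c' := by
    rw [nz_append, nz_zeros, List.append_nil]
  have hV : WOK m (c' ++ List.replicate (lenR rl) 0) := wok_of_nz e.symm hc
  have hfV : FitsQ rl 0 (c' ++ List.replicate (lenR rl) 0).length := by
    refine ⟨⟨le_rfl, ?_⟩, ?_⟩
    · rw [List.length_append, List.length_replicate]
      push_cast
      omega
    · omega
  exact EEQ.trans (h lo 0 W _ hW hV hf hfV hn e) (h' 0 lo' _ W' hV hW' hfV hf' e hn')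

theorem CE_cancelQ (hr : ∀ ρ ∈ rl, WOK m ρ) {A B : List ℕ} {s : ℕ}
    (h : WOK m (A ++ (s + 1) :: (s + 1) :: B)) : CEQ m rl (A ++ (s + 1) :: (s + 1) :: B) (A ++ B) := by
  intro lo lo' W W' hW hW' hf hf' hn hn'
  have hfV : FitsQ rl 0 (A ++ (s + 1) :: (s + 1) :: (B ++ List.replicate (lenR rl) 0)).length := by
    refine ⟨⟨le_rfl, ?_⟩, by omega⟩
    simp only [List.length_append, List.length_cons, List.length_replicate]
    push_cast
    omega
  have hfV' : FitsQ rl 0 (A ++ 0 :: 0 :: (B ++ List.replicate (lenR rl) 0)).length := by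
    refine ⟨⟨le_rfl, ?_⟩, by omega⟩
    simp only [List.length_append, List.length_cons, List.length_replicate]
    push_cast
    omega
  have n1 : nz (A ++ (s + 1) :: (s + 1) :: (B ++ List.replicate (lenR rl) 0)) =
      nz (A ++ (s + 1) :: (s + 1) :: B) := by
    simp only [nz_append, nz_succ, nz_zeros, List.append_nil]
  have n2 : nz (A ++ 0 :: 0 :: (B ++ List.replicate (lenR rl) 0)) = nz (A ++ B) := by
    simp only [nz_append, nz_zero, nz_zeros, List.append_nil]
  have w1 := wok_of_nz n1.symm h
  have w2 : WOK m (A ++ 0 :: 0 :: (B ++ List.replicate (lenR rl) 0)) :=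
    wok_of_nz (hn'.trans n2.symm) hW'
  exact EEQ.trans (EE_of_nzQ hr hW w1 hf hfV (hn.trans n1.symm))
    (EEQ.trans (E_cancelQ hr w1 hfV) (EE_of_nzQ hr w2 hW' hfV' hf' (n2.trans hn'.symm)))

theorem CE_relatorQ (hr : ∀ ρ ∈ rl, WOK m ρ) {A B ρ : List ℕ} (hρ : ρ ∈ rl) (hA : par A = false)
    (h : WOK m (A ++ B)) : CEQ m rl (A ++ (ρ ++ B)) (A ++ B) := by
  intro lo lo' W W' hW hW' hf hf' hn hn'
  obtain ⟨l₁, l₂, hrl⟩ := List.append_of_mem hρ
  set A' := List.replicate (lenR l₁) 0 ++ A with hA'
  set B' := B ++ List.replicate (lenR rl) 0 with hB'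
  have nA' : nz A' = nz A := by rw [hA', nz_append, nz_zeros, List.nil_append]
  have nB' : nz B' = nz B := by rw [hB', nz_append, nz_zeros, List.append_nil]
  have pA' : par A' = false := by
    rw [hA', par_append, hA]
    have : par (List.replicate (lenR l₁) 0) = false := by
      unfold par
      have h0 : (List.replicate (lenR l₁) 0).countP (fun a => decide (a ≠ 0)) = 0 := by
        rw [List.countP_eq_zero]
        intro a ha
        rw [List.eq_of_mem_replicate ha]
        simp
      rw [h0]
      rfl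
    rw [this]
    rfl
  have w0 : WOK m (A' ++ B') := wok_of_nz (by rw [nz_append, nz_append, nA', nB']) h
  have n1 : nz (A' ++ (List.replicate (ρ.length + 2) 0 ++ B')) = nz (A ++ B) := by
    simp only [nz_append, nz_zeros, List.nil_append, nA', nB']
  have n2 : nz (A' ++ 0 :: (ρ ++ 0 :: B')) = nz (A ++ (ρ ++ B)) := by
    simp only [nz_append, nz_zero, nA', nB']
  have w1 : WOK m (A' ++ (List.replicate (ρ.length + 2) 0 ++ B')) := wok_of_nz n1.symm h
  have w2 : WOK m (A' ++ 0 :: (ρ ++ 0 :: B')) := wok_of_nz (hn.trans n2.symm) hW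
  have f2 : FitsQ rl (-(A.length : ℤ)) (A' ++ 0 :: (ρ ++ 0 :: B')).length := by
    refine ⟨⟨by omega, ?_⟩, ?_⟩
    · rw [hA', hB']
      simp only [List.length_append, List.length_cons, List.length_replicate]
      push_cast
      omega
    · rw [hA', hB']
      simp only [List.length_append, List.length_cons, List.length_replicate]
      push_cast
      omega
  have f1 : FitsQ rl (-(A.length : ℤ)) (A' ++ (List.replicate (ρ.length + 2) 0 ++ B')).length := by
    convert f2 using 1
    simp only [List.length_append, List.length_cons, List.length_replicate]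
    omega
  have key := E_insQ hr hrl pA' (lo := -(A.length : ℤ)) (by
    rw [hA', List.length_append, List.length_replicate]
    push_cast
    ring) w0 f2
  exact EEQ.trans (EE_of_nzQ hr hW w2 hf f2 (hn.trans n2.symm))
    (EEQ.trans (EEQ.symm key) (EE_of_nzQ hr w1 hW' f1 hf' (n1.trans hn'.symm)))

end Pool.Agent.CC39
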